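import Pool.Agent.Lib.MP_4c145a_lc.Cons

/-!
# Growing to `ack m n` and shrinking back, with unreliable decrements
-/

namespace Pool.Agent.MP_4c145a_lc

open Function

theorem star_inv {S : Type} {R : S → S → Prop} {I : ℕ → S → Prop} {s t : S} (h0 : I 0 s)
    (hs : ∀ i u v, I i u → R u v → I (i + 1) v) (h : Relation.ReflTransGen R s t) :
    ∃ k, I k t := by
  induction h with
  | refl => exact ⟨0, h0⟩
  | tail _ h1 ih =>
    obtain ⟨k, hk⟩ := ih
    exact ⟨k + 1, hs _ _ _ hk h1⟩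

theorem star_exists {S : Type} {R : S → S → Prop} {I : ℕ → S → Prop} {s : S} (n : ℕ)
    (h0 : I 0 s) (hs : ∀ i u, i < n → I i u → ∃ v, R u v ∧ I (i + 1) v) :
    ∃ t, Relation.ReflTransGen R s t ∧ I n t := by
  induction n with
  | zero => exact ⟨s, Relation.ReflTransGen.refl, h0⟩
  | succ n ih =>
    obtain ⟨t, h1, h2⟩ := ih (fun i u hi => hs i u (by omega))
    obtain ⟨v, h3, h4⟩ := hs n t (by omega) h2
    exact ⟨v, h1.tail h3, h4⟩

theorem ack_succ_eq_iterate (m k : ℕ) : ack (m + 1) k = (ack m)^[k + 1] 1 := by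
  induction k with
  | zero => simp [ack_succ_zero]
  | succ k ih => rw [ack_succ_succ, ih, ← Function.iterate_succ_apply' (ack m)]

/-- `r` differs from `s` at most in the registers `a` and `b`. -/
def Same2 (a b : ℕ) (s t : ℕ → ℕ) : Prop := ∀ c, c ≠ a → c ≠ b → t c = s c

theorem rdec {c : ℕ} {s t : ℕ → ℕ} (h : rstep (.dec c) s t) :
    (t c = s c ∨ t c + 1 = s c) ∧ ∀ d, d ≠ c → t d = s d := by
  rcases h with rfl | ⟨h1, rfl⟩
  · exact ⟨Or.inl rfl, fun _ _ => rfl⟩
  · refine ⟨Or.inr (by rw [update_self]; omega), fun d hd => update_of_ne hd _ _⟩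

theorem rinc {c : ℕ} {s t : ℕ → ℕ} (h : rstep (.inc c) s t) :
    t c = s c + 1 ∧ ∀ d, d ≠ c → t d = s d := by
  have h : t = _ := h
  subst h
  exact ⟨update_self _ _ _, fun d hd => update_of_ne hd _ _⟩

theorem rdec_exists {c : ℕ} {s : ℕ → ℕ} (h : 0 < s c) :
    ∃ t, rstep (.dec c) s t ∧ t c + 1 = s c ∧ ∀ d, d ≠ c → t d = s d := by
  refine ⟨update s c (s c - 1), Or.inr ⟨h, rfl⟩, ?_, fun _ hd => update_of_ne hd _ _⟩
  rw [update_self]; omega

theorem rinc_exists (c : ℕ) (s : ℕ → ℕ) :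
    ∃ t, rstep (.inc c) s t ∧ t c = s c + 1 ∧ ∀ d, d ≠ c → t d = s d :=
  ⟨update s c (s c + 1), rfl, update_self _ _ _, fun _ hd => update_of_ne hd _ _⟩

/-- Move the content of `a` to `b`. -/
def moveP (a b : ℕ) : Prog :=
  .seq (.star (.seq (.atom (.dec a)) (.atom (.inc b)))) (.atom (.zero a))

theorem rmove_sound {a b : ℕ} (hab : a ≠ b) {s t : ℕ → ℕ} (h : (moveP a b).rel rstep s t) :
    t a = 0 ∧ s b + s a ≤ t b ∧ ∀ c, c ≠ a → c ≠ b → t c = s c := by
  obtain ⟨u, h1, h2⟩ := h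
  have h2 : u a = 0 ∧ t = u := h2
  obtain ⟨h2, rfl⟩ := h2
  obtain ⟨k, hk⟩ := star_inv (I := fun _ w => s b + s a ≤ w b + w a ∧ ∀ c, c ≠ a → c ≠ b →
    w c = s c) (s := s) ⟨le_rfl, fun _ _ _ => rfl⟩ (by
      rintro _ w v ⟨hw1, hw2⟩ ⟨w', h3, h4⟩
      obtain ⟨h5, h6⟩ := rdec h3
      obtain ⟨h7, h8⟩ := rinc h4
      have h9 := h6 b hab.symm
      have h10 := h8 a hab
      refine ⟨by omega, fun c hca hcb => ?_⟩
      rw [h8 c hcb, h6 c hca, hw2 c hca hcb]) h1
  exact ⟨h2, by omega, hk.2⟩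

theorem rmove_exists {a b : ℕ} (hab : a ≠ b) (s : ℕ → ℕ) :
    ∃ t, (moveP a b).rel rstep s t ∧ t a = 0 ∧ t b = s b + s a ∧
      ∀ c, c ≠ a → c ≠ b → t c = s c := by
  obtain ⟨t, h1, h2, h3, h4⟩ := star_exists (R := (Prog.seq (.atom (.dec a)) (.atom (.inc b))).rel
    rstep) (I := fun i w => w a + i = s a ∧ w b = s b + i ∧ ∀ c, c ≠ a → c ≠ b →
    w c = s c) (s := s) (s a) ⟨rfl, rfl, fun _ _ _ => rfl⟩ (by
      rintro i w hi ⟨hw1, hw2, hw3⟩
      obtain ⟨v, h3, h4, h5⟩ := rdec_exists (c := a) (s := w) (by omega)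
      obtain ⟨v', h6, h7, h8⟩ := rinc_exists b v
      refine ⟨v', ⟨v, h3, h6⟩, ?_, ?_, ?_⟩
      · have := h8 a hab; omega
      · have := h5 b hab.symm; omega
      · intro c hca hcb
        rw [h8 c hcb, h5 c hca, hw3 c hca hcb])
  have h5 : t a = 0 := by omega
  exact ⟨t, ⟨t, h1, h5, rfl⟩, h5, h3, h4⟩

/-- Grow register `x` from `n` to `ack m n`. -/
def growP : ℕ → ℕ → Prog
  | 0, x => .atom (.inc x)
  | m + 1, x => .seq (.atom (.inc (m + 2))) (.seq (growP m (m + 2))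
      (.seq (.star (.seq (.atom (.dec x)) (growP m (m + 2))))
        (.seq (.atom (.zero x)) (moveP (m + 2) x))))

/-- Shrink register `x` from `ack m n` to `n`. -/
def shrinkP : ℕ → ℕ → Prog
  | 0, x => .atom (.dec x)
  | m + 1, x => .seq (moveP x (m + 2)) (.seq (shrinkP m (m + 2))
      (.seq (.star (.seq (shrinkP m (m + 2)) (.atom (.inc x))))
        (.seq (.atom (.dec (m + 2))) (.atom (.zero (m + 2))))))

theorem silent_grow (m : ℕ) : ∀ x, (growP m x).Silent := by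
  induction m with
  | zero => intro x; trivial
  | succ m ih =>
    intro x
    exact ⟨trivial, ih _, ⟨trivial, ih _⟩, trivial, ⟨trivial, trivial⟩, trivial⟩

theorem silent_shrink (m : ℕ) : ∀ x, (shrinkP m x).Silent := by
  induction m with
  | zero => intro x; trivial
  | succ m ih =>
    intro x
    exact ⟨⟨⟨trivial, trivial⟩, trivial⟩, ih _, ⟨ih _, trivial⟩, trivial, trivial⟩

theorem grow_sound (m : ℕ) : ∀ x s t, (x < 2 ∨ m + 2 ≤ x) →
    (∀ c, 2 ≤ c → c < m + 2 → s c = 0) → (growP m x).rel rstep s t →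
    ack m (s x) ≤ t x ∧ ∀ c, c ≠ x → t c = s c := by
  induction m with
  | zero =>
    intro x s t _ _ h
    obtain ⟨h1, h2⟩ := rinc h
    exact ⟨by rw [ack_zero]; omega, h2⟩
  | succ m ih =>
    rintro x s t hx haux ⟨s1, h1, s2, h2, s3, h3, s4, h4, h5⟩
    have hxy : x ≠ m + 2 := by omega
    obtain ⟨h6, h7⟩ := rinc h1
    obtain ⟨h8, h9⟩ := ih (m + 2) s1 s2 (by omega) (by
      intro c hc1 hc2
      rw [h7 c (by omega)]
      exact haux c hc1 (by omega)) h2
    have h4 : s3 x = 0 ∧ s4 = s3 := h4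
    obtain ⟨h4, rfl⟩ := h4
    obtain ⟨k, h10, h11, h12⟩ := star_inv (I := fun i w => ack (m + 1) i ≤ w (m + 2) ∧
      s x ≤ w x + i ∧ ∀ c, c ≠ x → c ≠ m + 2 → w c = s c) (s := s2) ⟨by
        rw [ack_succ_zero]
        have : 1 ≤ s1 (m + 2) := by omega
        exact (ack_mono_right m this).trans h8, by
        rw [h9 x hxy, h7 x hxy]; omega, by
        intro c hc1 hc2
        rw [h9 c hc2, h7 c hc2]⟩ (by
      rintro i w v ⟨hw1, hw2, hw3⟩ ⟨w', h13, h14⟩
      obtain ⟨h15, h16⟩ := rdec h13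
      obtain ⟨h17, h18⟩ := ih (m + 2) w' v (by omega) (by
        intro c hc1 hc2
        rw [h16 c (by omega), hw3 c (by omega) (by omega)]
        exact haux c hc1 (by omega)) h14
      refine ⟨?_, ?_, ?_⟩
      · rw [ack_succ_succ]
        refine le_trans (ack_mono_right m ?_) h17
        rw [h16 _ hxy.symm]
        exact hw1
      · rw [h18 x hxy]; omega
      · intro c hc1 hc2
        rw [h18 c hc2, h16 c hc1, hw3 c hc1 hc2]) h3
    obtain ⟨h13, h14, h15⟩ := rmove_sound hxy.symm h5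
    refine ⟨?_, ?_⟩
    · have : ack (m + 1) (s x) ≤ ack (m + 1) k := ack_mono_right _ (by omega)
      omega
    · intro c hc
      by_cases hcy : c = m + 2
      · subst hcy
        rw [h13, haux (m + 2) (by omega) (by omega)]
      · rw [h15 c hcy hc, h12 c hc hcy]

theorem grow_exists (m : ℕ) : ∀ x s, (x < 2 ∨ m + 2 ≤ x) →
    (∀ c, 2 ≤ c → c < m + 2 → s c = 0) →
    ∃ t, (growP m x).rel rstep s t ∧ t x = ack m (s x) ∧ ∀ c, c ≠ x → t c = s c := by
  induction m with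
  | zero =>
    intro x s _ _
    obtain ⟨t, h1, h2, h3⟩ := rinc_exists x s
    exact ⟨t, h1, by rw [ack_zero]; omega, h3⟩
  | succ m ih =>
    intro x s hx haux
    have hxy : x ≠ m + 2 := by omega
    obtain ⟨s1, h1, h6, h7⟩ := rinc_exists (m + 2) s
    obtain ⟨s2, h2, h8, h9⟩ := ih (m + 2) s1 (by omega) (by
      intro c hc1 hc2
      rw [h7 c (by omega)]
      exact haux c hc1 (by omega))
    have hy1 : s1 (m + 2) = 1 := by
      have := haux (m + 2) (by omega) (by omega)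
      omega
    obtain ⟨s3, h3, h10, h11, h12⟩ := star_exists
      (R := (Prog.seq (.atom (.dec x)) (growP m (m + 2))).rel rstep)
      (I := fun i w => w (m + 2) = ack (m + 1) i ∧
      w x + i = s x ∧ ∀ c, c ≠ x → c ≠ m + 2 → w c = s c) (s := s2) (s x) ⟨by
        rw [ack_succ_zero, h8, hy1], by
        rw [h9 x hxy, h7 x hxy]; rfl, by
        intro c hc1 hc2
        rw [h9 c hc2, h7 c hc2]⟩ (by
      rintro i w hi ⟨hw1, hw2, hw3⟩
      obtain ⟨w', h13, h15, h16⟩ := rdec_exists (c := x) (s := w) (by omega)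
      obtain ⟨v, h14, h17, h18⟩ := ih (m + 2) w' (by omega) (by
        intro c hc1 hc2
        rw [h16 c (by omega), hw3 c (by omega) (by omega)]
        exact haux c hc1 (by omega))
      refine ⟨v, ⟨w', h13, h14⟩, ?_, ?_, ?_⟩
      · rw [ack_succ_succ, h17, h16 _ hxy.symm, hw1]
      · rw [h18 x hxy]; omega
      · intro c hc1 hc2
        rw [h18 c hc2, h16 c hc1, hw3 c hc1 hc2])
    have h4 : s3 x = 0 := by omega
    obtain ⟨t, h5, h13, h14, h15⟩ := rmove_exists hxy.symm s3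
    refine ⟨t, ⟨s1, h1, s2, h2, s3, h3, s3, ⟨h4, rfl⟩, h5⟩, by omega, ?_⟩
    intro c hc
    by_cases hcy : c = m + 2
    · subst hcy
      rw [h13, haux (m + 2) (by omega) (by omega)]
    · rw [h15 c hcy hc, h12 c hc hcy]

theorem shrink_sound (m : ℕ) : ∀ x s t, (x < 2 ∨ m + 2 ≤ x) →
    (∀ c, 2 ≤ c → c < m + 2 → s c = 0) → (shrinkP m x).rel rstep s t →
    s x ≤ ack m (t x) ∧ ∀ c, c ≠ x → t c = s c := by
  induction m with
  | zero =>
    intro x s t _ _ h
    obtain ⟨h1, h2⟩ := rdec h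
    exact ⟨by rw [ack_zero]; omega, h2⟩
  | succ m ih =>
    rintro x s t hx haux ⟨s1, h1, s2, h2, s3, h3, s4, h4, h5⟩
    have hxy : x ≠ m + 2 := by omega
    obtain ⟨h6, h6', h7⟩ := rmove_sound hxy h1
    obtain ⟨h8, h9⟩ := ih (m + 2) s1 s2 (by omega) (by
      intro c hc1 hc2
      rw [h7 c (by omega) (by omega)]
      exact haux c hc1 (by omega)) h2
    obtain ⟨k, h10, h11, h12⟩ := star_inv (I := fun i w => s x ≤ (ack m)^[i + 1] (w (m + 2)) ∧
      w x = i ∧ ∀ c, c ≠ x → c ≠ m + 2 → w c = s c) (s := s2) ⟨by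
        simp only [zero_add, Function.iterate_one]
        omega, by
        rw [h9 x hxy, h6], by
        intro c hc1 hc2
        rw [h9 c hc2, h7 c hc1 hc2]⟩ (by
      rintro i w v ⟨hw1, hw2, hw3⟩ ⟨w', h13, h14⟩
      obtain ⟨h15, h16⟩ := rinc h14
      obtain ⟨h17, h18⟩ := ih (m + 2) w w' (by omega) (by
        intro c hc1 hc2
        rw [hw3 c (by omega) (by omega)]
        exact haux c hc1 (by omega)) h13
      refine ⟨?_, ?_, ?_⟩
      · rw [Function.iterate_succ_apply]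
        refine hw1.trans ((ack_mono_right m).iterate (i + 1) ?_)
        rw [h16 _ hxy.symm]
        exact h17
      · rw [h15, h18 x hxy, hw2]
      · intro c hc1 hc2
        rw [h16 c hc1, h18 c hc2, hw3 c hc1 hc2]) h3
    obtain ⟨h13, h14⟩ := rdec h4
    have h5 : s4 (m + 2) = 0 ∧ t = s4 := h5
    obtain ⟨h5, rfl⟩ := h5
    refine ⟨?_, ?_⟩
    · rw [h14 x hxy, h11, ack_succ_eq_iterate]
      exact h10.trans ((ack_mono_right m).iterate (k + 1) (by omega))
    · intro c hc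
      by_cases hcy : c = m + 2
      · subst hcy
        rw [h5, haux (m + 2) (by omega) (by omega)]
      · rw [h14 c hcy, h12 c hc hcy]

theorem shrink_exists (m : ℕ) : ∀ x s n, (x < 2 ∨ m + 2 ≤ x) →
    (∀ c, 2 ≤ c → c < m + 2 → s c = 0) → s x = ack m n →
    ∃ t, (shrinkP m x).rel rstep s t ∧ t x = n ∧ ∀ c, c ≠ x → t c = s c := by
  induction m with
  | zero =>
    intro x s n _ _ hn
    rw [ack_zero] at hn
    obtain ⟨t, h1, h2, h3⟩ := rdec_exists (c := x) (s := s) (by omega)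
    exact ⟨t, h1, by omega, h3⟩
  | succ m ih =>
    intro x s n hx haux hn
    rw [ack_succ_eq_iterate] at hn
    have hxy : x ≠ m + 2 := by omega
    obtain ⟨s1, h1, h6, h6', h7⟩ := rmove_exists hxy s
    have hy0 := haux (m + 2) (by omega) (by omega)
    obtain ⟨s2, h2, h8, h9⟩ := ih (m + 2) s1 ((ack m)^[n] 1) (by omega) (by
      intro c hc1 hc2
      rw [h7 c (by omega) (by omega)]
      exact haux c hc1 (by omega)) (by
      rw [h6', hy0, zero_add, hn, Function.iterate_succ_apply'])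
    obtain ⟨s3, h3, h10, h11, h12⟩ := star_exists
      (R := (Prog.seq (shrinkP m (m + 2)) (.atom (.inc x))).rel rstep)
      (I := fun i w => w (m + 2) = (ack m)^[n - i] 1 ∧
      w x = i ∧ ∀ c, c ≠ x → c ≠ m + 2 → w c = s c) (s := s2) n ⟨by
        rw [h8]; rfl, by
        rw [h9 x hxy, h6], by
        intro c hc1 hc2
        rw [h9 c hc2, h7 c hc1 hc2]⟩ (by
      rintro i w hi ⟨hw1, hw2, hw3⟩
      obtain ⟨w', h13, h17, h18⟩ := ih (m + 2) w ((ack m)^[n - (i + 1)] 1) (by omega) (by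
        intro c hc1 hc2
        rw [hw3 c (by omega) (by omega)]
        exact haux c hc1 (by omega)) (by
        rw [hw1, ← Function.iterate_succ_apply' (ack m)]
        congr 2
        omega)
      obtain ⟨v, h14, h15, h16⟩ := rinc_exists x w'
      refine ⟨v, ⟨w', h13, h14⟩, ?_, ?_, ?_⟩
      · rw [h16 _ hxy.symm, h17]
      · rw [h15, h18 x hxy, hw2]
      · intro c hc1 hc2
        rw [h16 c hc1, h18 c hc2, hw3 c hc1 hc2])
    have h10' : s3 (m + 2) = 1 := by rw [h10]; simp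
    obtain ⟨s4, h4, h13, h14⟩ := rdec_exists (c := m + 2) (s := s3) (by omega)
    have h5 : s4 (m + 2) = 0 := by omega
    refine ⟨s4, ⟨s1, h1, s2, h2, s3, h3, s4, h4, h5, rfl⟩, ?_, ?_⟩
    · rw [h14 x hxy, h11]
    · intro c hc
      by_cases hcy : c = m + 2
      · subst hcy
        rw [h5, haux (m + 2) (by omega) (by omega)]
      · rw [h14 c hcy, h12 c hc hcy]

end Pool.Agent.MP_4c145a_lc
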