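import Pool.Agent.Lib.MP_4c145a_lc.Decide

/-!
# Codes of propagating grammars are correct
-/

namespace Pool.Agent.MP_4c145a_lc

/-! ### Short paths -/

theorem exists_path {α : Type} {r : α → α → Prop} {a b : α} (h : Relation.ReflTransGen r a b) :
    ∃ (k : ℕ) (v : ℕ → α), v 0 = a ∧ v k = b ∧ ∀ i < k, r (v i) (v (i + 1)) := by
  induction h with
  | refl => exact ⟨0, fun _ => a, rfl, rfl, by simp⟩
  | @tail b c _ hr ih =>
    obtain ⟨k, v, h0, hk, hv⟩ := ih
    refine ⟨k + 1, fun i => if i ≤ k then v i else c, by simp [h0], by simp, ?_⟩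
    intro i hi
    by_cases hik : i = k
    · subst hik
      simp [hk, hr]
    · have h1 : i ≤ k := by omega
      have h2 : i + 1 ≤ k := by omega
      simp only [h1, h2, if_true]
      exact hv i (by omega)

theorem path_reach {α : Type} {r : α → α → Prop} {v : ℕ → α} {k : ℕ}
    (hv : ∀ i < k, r (v i) (v (i + 1))) : ∀ i j, i ≤ j → j ≤ k →
      Relation.ReflTransGen r (v i) (v j) := by
  intro i j hij
  induction hij with
  | refl => intro _; exact .refl
  | @step j _ ih =>
    intro hj
    exact (ih (by omega)).tail (hv j (by omega))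

theorem short_path {α β : Type} [Fintype β] {r : α → α → Prop} {Q : α → Prop} (φ : α → β)
    (hφ : ∀ a b, Q a → Q b → φ a = φ b → a = b) {a b : α} (h : Relation.ReflTransGen r a b)
    (hQ : ∀ c, Relation.ReflTransGen r a c → Relation.ReflTransGen r c b → Q c) :
    ∃ k ≤ Fintype.card β, ∃ v : ℕ → α, v 0 = a ∧ v k = b ∧ ∀ i < k, r (v i) (v (i + 1)) := by
  classical
  have hex : ∃ k, ∃ v : ℕ → α, v 0 = a ∧ v k = b ∧ ∀ i < k, r (v i) (v (i + 1)) := by
    obtain ⟨k, v, h⟩ := exists_path h
    exact ⟨k, v, h⟩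
  obtain ⟨v, h0, hk, hv⟩ := Nat.find_spec hex
  set k := Nat.find hex with hkdef
  refine ⟨k, ?_, v, h0, hk, hv⟩
  by_contra hlt
  push Not at hlt
  have hcard : Fintype.card β < Fintype.card (Fin k) := by simpa using hlt
  obtain ⟨i, j, hij, he⟩ := Fintype.exists_ne_map_eq_of_card_lt (fun i : Fin k => φ (v i)) hcard
  -- a repetition gives a shorter path
  have key : ∀ i j : Fin k, i.1 < j.1 → φ (v i) = φ (v j) → False := by
    intro i j hij he
    have hi := i.2
    have hj := j.2
    have hQv : ∀ l, l ≤ k → Q (v l) := by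
      intro l hl
      refine hQ _ ?_ ?_
      · rw [← h0]
        exact path_reach hv 0 l (by omega) hl
      · rw [← hk]
        exact path_reach hv l k hl le_rfl
    have hvv : v i = v j := hφ _ _ (hQv i (by omega)) (hQv j (by omega)) he
    have hd : ∃ w : ℕ → α, w 0 = a ∧ w (k - (j - i)) = b ∧
        ∀ l < k - (j - i), r (w l) (w (l + 1)) := by
      refine ⟨fun l => if l ≤ i then v l else v (l + (j - i)), ?_, ?_, ?_⟩
      · simp [h0]
      · have h1 : ¬ (k - (j.1 - i.1) ≤ i.1) := by omega
        simp only [h1, if_false]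
        have h2 : k - (j.1 - i.1) + (j.1 - i.1) = k := by omega
        rw [h2, hk]
      · intro l hl
        by_cases h1 : l + 1 ≤ i.1
        · have h2 : l ≤ i.1 := by omega
          simp only [h1, h2, if_true]
          exact hv l (by omega)
        · by_cases h2 : l ≤ i.1
          · have h3 : l = i.1 := by omega
            subst h3
            simp only [le_refl, if_true, h1, if_false]
            rw [hvv]
            have h4 : i.1 + 1 + (j.1 - i.1) = j.1 + 1 := by omega
            rw [h4]
            exact hv j hj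
          · simp only [h1, h2, if_false]
            have h4 : l + 1 + (j.1 - i.1) = l + (j.1 - i.1) + 1 := by omega
            rw [h4]
            exact hv _ (by omega)
    have := Nat.find_min' hex hd
    omega
  rcases lt_or_gt_of_ne (fun h => hij (Fin.ext h)) with h | h
  · exact key i j h he
  · exact key j i h he.symm

/-- Padding of words, used to bound their number. -/
def padw (M L : ℕ) (u : List ℕ) : Fin L → Fin (M + 1) := fun i =>
  ⟨min (u.getD i M) M, by omega⟩

theorem padw_inj {M L : ℕ} (u v : List ℕ) (hu : u.length ≤ L ∧ ∀ x ∈ u, x < M)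
    (hv : v.length ≤ L ∧ ∀ x ∈ v, x < M) (h : padw M L u = padw M L v) : u = v := by
  have key : ∀ i < L, min (u.getD i M) M = min (v.getD i M) M := by
    intro i hi
    have := congrFun h ⟨i, hi⟩
    simpa [padw] using congrArg Fin.val this
  have hlen : ∀ a b : List ℕ, a.length ≤ L ∧ (∀ x ∈ a, x < M) → b.length ≤ L ∧ (∀ x ∈ b, x < M) →
      (∀ i < L, min (a.getD i M) M = min (b.getD i M) M) → ¬ a.length < b.length := by
    intro a b ha hb hab hlt
    have h1 := hab a.length (by omega)
    rw [List.getD_eq_default _ _ le_rfl, List.getD_eq_getElem _ _ hlt] at h1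
    have h2 := hb.2 _ (List.getElem_mem hlt)
    omega
  have h1 : u.length = v.length := by
    have := hlen u v hu hv key
    have := hlen v u hv hu (fun i hi => (key i hi).symm)
    omega
  refine List.ext_getElem h1 ?_
  intro i hi1 hi2
  have h2 := key i (by omega)
  rw [List.getD_eq_getElem _ _ hi1, List.getD_eq_getElem _ _ hi2] at h2
  have h3 := hu.2 _ (List.getElem_mem hi1)
  have h4 := hv.2 _ (List.getElem_mem hi2)
  omega

/-! ### The code of a grammar -/

theorem target_eq (n : ℕ) : target n = List.replicate n 0 ++ List.replicate n 1 := by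
  simp [target, List.map_const']

theorem target_reverse (n : ℕ) :
    (target n).reverse = List.replicate n 1 ++ List.replicate n 0 := by
  simp [target_eq]

variable {G : Grammar ℕ} {R : List (ℕ × List ℕ × List ℕ)}

/-- `R` lists the rules of `G`. -/
def Lists (R : List (ℕ × List ℕ × List ℕ)) (G : Grammar ℕ) : Prop :=
  ∀ (X : ℕ) (y C : List ℕ), (∃ W, (X, y, W) ∈ G.P ∧ ∀ Z ∈ C, Z ∉ W) ↔
    ∃ W, (X, y.reverse, W) ∈ R ∧ ∀ Z ∈ C, Z ∉ W

theorem mem_applies {X : ℕ} {u y : List ℕ} :
    y ∈ applies R X u ↔ ∃ W, (X, y, W) ∈ R ∧ ∀ Z ∈ u, Z ∉ W := by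
  simp only [applies, List.mem_map, List.mem_filter, decide_eq_true_eq]
  constructor
  · rintro ⟨⟨X', y', W⟩, ⟨h1, h2, h3⟩, h4⟩
    simp only at h2 h3 h4
    subst h2 h4
    exact ⟨W, h1, h3⟩
  · rintro ⟨W, h1, h2⟩
    exact ⟨(X, y, W), ⟨h1, rfl, h2⟩, rfl⟩

theorem mem_succs (hR : Lists R G) (u : List ℕ) : ∀ v,
    v ∈ succs R u ↔ Rw G.P ∅ u.reverse v.reverse := by
  induction u with
  | nil =>
    intro v
    simp only [succs, List.mem_singleton, List.reverse_nil]
    constructor
    · rintro rfl
      exact Rw.nil _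
    · intro h
      generalize hw : v.reverse = w at h
      cases h
      simpa using hw
  | cons X u ih =>
    intro v
    rw [List.reverse_cons, Rw.append_iff]
    simp only [succs, List.mem_flatMap, List.mem_map]
    constructor
    · rintro ⟨y, hy, v', hv', rfl⟩
      refine ⟨v'.reverse, y.reverse, by simp, (ih v').1 hv', ?_⟩
      rw [rw_single]
      obtain ⟨W, h1, h2⟩ := (hR X y.reverse u).2 (by simpa using mem_applies.1 hy)
      refine ⟨W, h1, ?_⟩
      rintro Z (hZ | hZ)
      · exact h2 Z (by simpa using hZ)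
      · simp at hZ
    · rintro ⟨v1, v2, hv, h1, h2⟩
      rw [rw_single] at h2
      obtain ⟨W, h3, h4⟩ := h2
      refine ⟨v2.reverse, ?_, v1.reverse, (ih _).2 (by simpa using h1), ?_⟩
      · rw [mem_applies]
        exact (hR X v2 u).1 ⟨W, h3, fun Z hZ => h4 Z (Or.inl (by simpa using hZ))⟩
      · rw [← List.reverse_append, ← hv, List.reverse_reverse]

theorem reachL_succ (D : Code) (L t : ℕ) : reachL D L (t + 1) =
    reachL D L t ++ ((reachL D L t).flatMap (succs D.2.2)).filter
      fun v => decide (v.length ≤ L) := by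
  rw [reachL, Function.iterate_succ_apply']
  rfl

theorem reachL_sound {D : Code} (hR : Lists D.2.2 G) (hw : D.2.1 = G.w.reverse) (L : ℕ) :
    ∀ t v, v ∈ reachL D L t → Relation.ReflTransGen G.Step G.w v.reverse := by
  intro t
  induction t with
  | zero =>
    intro v hv
    have hv : v = D.2.1 := by simpa [reachL] using hv
    rw [hv, hw, List.reverse_reverse]
  | succ t ih =>
    intro v hv
    rw [reachL_succ, List.mem_append] at hv
    rcases hv with hv | hv
    · exact ih v hv
    · obtain ⟨hv, -⟩ := List.mem_filter.1 hv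
      obtain ⟨u, hu, huv⟩ := List.mem_flatMap.1 hv
      have h1 := ih u hu
      have h2 := (mem_succs hR u v).1 huv
      by_cases hu0 : u = []
      · subst hu0
        have h3 : v = [] := by simpa [succs] using huv
        rw [h3]
        exact h1
      · exact h1.tail ((step_iff _ _ _).2 ⟨by simpa using hu0, h2⟩)

theorem reachL_mono (D : Code) (L : ℕ) {t t' : ℕ} (h : t ≤ t') {v : List ℕ}
    (hv : v ∈ reachL D L t) : v ∈ reachL D L t' := by
  induction h with
  | refl => exact hv
  | step _ ih => rw [reachL_succ]; exact List.mem_append_left _ ih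

theorem Rw.length_le {P : Set (ℕ × List ℕ × Set ℕ)} (hP : ∀ X y W, (X, y, W) ∈ P → y ≠ [])
    {C : Set ℕ} {u v : List ℕ} (h : Rw P C u v) : u.length ≤ v.length := by
  induction h with
  | nil => simp
  | @cons C X y W u v hm _ _ ih =>
    have := List.length_pos_iff.2 (hP _ _ _ hm)
    rw [List.length_cons, List.length_append]
    omega

theorem Rw.symbols {C : Set ℕ} {u v : List ℕ} (h : Rw G.P C u v) : ∀ x ∈ v, x ∈ G.V := by
  induction h with
  | nil => simp
  | @cons C X y W u v hm _ _ ih =>
    intro x hx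
    rcases List.mem_append.1 hx with hx | hx
    · exact (G.P_mem _ _ _ hm).2.1 x hx
    · exact ih x hx

theorem reachL_complete {D : Code} (hR : Lists D.2.2 G) (hw : D.2.1 = G.w.reverse)
    (hM : ∀ x ∈ G.V, x < D.1) (hP : G.Propagating) {x : List ℕ}
    (hx : Relation.ReflTransGen G.Step G.w x) :
    x.reverse ∈ reachL D x.length ((D.1 + 1) ^ x.length) := by
  have hlen : ∀ c, Relation.ReflTransGen G.Step c x → c.length ≤ x.length := by
    intro c hc
    induction hc using Relation.ReflTransGen.head_induction_on with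
    | refl => exact le_rfl
    | head hs _ ih => exact (((step_iff _ _ _).1 hs).2.length_le hP).trans ih
  have hsym : ∀ c, Relation.ReflTransGen G.Step G.w c → ∀ y ∈ c, y < D.1 := by
    intro c hc
    induction hc with
    | refl => exact fun y hy => hM y (G.w_mem y hy)
    | tail _ hs _ => exact fun y hy => hM y (((step_iff _ _ _).1 hs).2.symbols y hy)
  obtain ⟨k, hk, v, h0, hkx, hv⟩ := short_path (β := Fin x.length → Fin (D.1 + 1))
    (Q := fun u => u.length ≤ x.length ∧ ∀ y ∈ u, y < D.1) (padw D.1 x.length)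
    (fun a b ha hb hab => padw_inj a b ha hb hab) hx (fun c h1 h2 => ⟨hlen c h2, hsym c h1⟩)
  have hcard : Fintype.card (Fin x.length → Fin (D.1 + 1)) = (D.1 + 1) ^ x.length := by simp
  rw [hcard] at hk
  have key : ∀ i, i ≤ k → (v i).reverse ∈ reachL D x.length i := by
    intro i
    induction i with
    | zero =>
      intro _
      rw [h0, ← hw]
      simp [reachL]
    | succ i ih =>
      intro hi
      rw [reachL_succ, List.mem_append]
      right
      refine List.mem_filter.2 ⟨List.mem_flatMap.2 ⟨_, ih (by omega), ?_⟩, ?_⟩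
      · rw [mem_succs hR]
        simpa using ((step_iff _ _ _).1 (hv i (by omega))).2
      · have := hlen (v (i + 1)) (by
          rw [← hkx]
          exact path_reach hv (i + 1) k hi le_rfl)
        simpa using this
  have := key k le_rfl
  rw [hkx] at this
  exact reachL_mono D _ hk this

theorem exists_lists (G : Grammar ℕ) : ∃ R, Lists R G := by
  classical
  let Vl : List ℕ := G.V_finite.toFinset.toList
  let wl : Set ℕ → List ℕ := fun W => Vl.filter fun x => decide (x ∈ W)
  have hwl : ∀ W ⊆ G.V, ∀ Z, Z ∈ wl W ↔ Z ∈ W := by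
    intro W hW Z
    simp only [wl, Vl, List.mem_filter, Finset.mem_toList, Set.Finite.mem_toFinset,
      decide_eq_true_eq]
    exact ⟨fun h => h.2, fun h => ⟨hW h, h⟩⟩
  refine ⟨G.P_finite.toFinset.toList.map fun r => (r.1, r.2.1.reverse, wl r.2.2), ?_⟩
  intro X y C
  constructor
  · rintro ⟨W, h1, h2⟩
    refine ⟨wl W, List.mem_map.2 ⟨(X, y, W), by simpa using h1, rfl⟩, ?_⟩
    intro Z hZ hZW
    exact h2 Z hZ ((hwl W (fun x hx => ((G.P_mem _ _ _ h1).2.2 hx).1) Z).1 hZW)
  · rintro ⟨Wl, h1, h2⟩
    obtain ⟨⟨X', y', W⟩, h3, h4⟩ := List.mem_map.1 h1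
    have h3 : (X', y', W) ∈ G.P := by simpa using h3
    simp only [Prod.mk.injEq] at h4
    obtain ⟨rfl, h5, rfl⟩ := h4
    have h6 : y' = y := List.reverse_injective h5
    subst h6
    refine ⟨W, h3, ?_⟩
    intro Z hZ hZW
    exact h2 Z hZ ((hwl W (fun x hx => ((G.P_mem _ _ _ h3).2.2 hx).1) Z).2 hZW)

/-- Every propagating grammar has a correct code. -/
theorem exists_code (G : Grammar ℕ) (hP : G.Propagating) : ∃ D : Code, ∀ n,
    acc D n ↔ Relation.ReflTransGen G.Step G.w (List.replicate n 1 ++ List.replicate n 0) := by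
  obtain ⟨R, hR⟩ := exists_lists G
  obtain ⟨M, hM⟩ : ∃ M, ∀ x ∈ G.V, x < M := by
    obtain ⟨M, hM⟩ := G.V_finite.bddAbove
    exact ⟨M + 1, fun x hx => Nat.lt_succ_of_le (hM hx)⟩
  refine ⟨(M, G.w.reverse, R), fun n => ⟨fun h => ?_, fun h => ?_⟩⟩
  · have := reachL_sound (D := (M, G.w.reverse, R)) hR rfl _ _ _ h
    rwa [target_reverse] at this
  · have := reachL_complete (D := (M, G.w.reverse, R)) hR rfl hM hP h
    have hl : (List.replicate n 1 ++ List.replicate n 0 : List ℕ).length = 2 * n := by
      simp; omega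
    have hr : (List.replicate n 1 ++ List.replicate n 0 : List ℕ).reverse = target n := by
      simp [target_eq]
    rw [hl, hr] at this
    exact this

end Pool.Agent.MP_4c145a_lc
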