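import Pool.Agent.Lib.MP_4c145a_lc.Exact

/-!
# Primitive recursive functions are computed by exact programs in primitive recursive space
-/

namespace Pool.Agent.MP_4c145a_lc

open Function List.Vector

/-- The program `p` adds the value of `f` on the registers `r` to the register `o`, using work
registers `≥ N` only and at most `S` free units. -/
def Spec {n : ℕ} (f S : List.Vector ℕ n → ℕ) (r : Fin n → ℕ) (o N : ℕ) (p : Prog) : Prop :=
  p.Silent ∧ (∃ K, p.Bdd K) ∧ ∀ s : ℕ → ℕ, (∀ c, N ≤ c → s c = 0) →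
    (∀ t, p.rel xstep s t → Adds s t o (f (ofFn fun i => s (r i)))) ∧
    (S (ofFn fun i => s (r i)) ≤ s 0 → ∃ t, p.rel xstep s t)

/-- `f` can be computed by exact programs in primitive recursive space. -/
def Good {n : ℕ} (f : List.Vector ℕ n → ℕ) : Prop :=
  ∃ S : List.Vector ℕ n → ℕ, Nat.Primrec' S ∧ ∀ (r : Fin n → ℕ) (o N : ℕ),
    (∀ i, r i ≠ 0 ∧ r i < N ∧ r i ≠ o) → o ≠ 0 → o < N → ∃ p, Spec f S r o N p

theorem good_zero : Good (n := 0) fun _ => 0 := by
  refine ⟨fun _ => 0, Nat.Primrec'.zero, fun r o N _ _ _ => ⟨.atom .skip, trivial, bdd_skip, ?_⟩⟩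
  intro s _
  refine ⟨?_, fun _ => ⟨s, rfl⟩⟩
  intro t h
  have h : t = s := h
  subst h
  exact ⟨rfl, rfl, fun _ _ _ => rfl⟩

theorem good_get {n : ℕ} (i : Fin n) : Good fun v : List.Vector ℕ n => v.get i := by
  refine ⟨fun v => v.get i, Nat.Primrec'.get i, fun r o N hr ho hoN =>
    ⟨copyP (r i) o N, silent_copy _ _ _, ?_, ?_⟩⟩
  · exact bdd_copy (hr i).1 ho (by omega)
  · intro s hs
    obtain ⟨h1, h2, h3⟩ := hr i
    simp only [get_ofFn]
    exact ⟨fun t h => xcopy_sound h1 ho (by omega) h3 (by omega) (by omega)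
      (hs N le_rfl) h, fun h => xcopy_exists h1 ho (by omega) h3 (by omega) h⟩

theorem good_succ : Good (n := 1) fun v => Nat.succ v.head := by
  refine ⟨fun v => Nat.succ v.head, Nat.Primrec'.succ, fun r o N hr ho hoN =>
    ⟨.seq (copyP (r 0) o N) (.atom (.inc o)), ⟨silent_copy _ _ _, trivial⟩, ?_, ?_⟩⟩
  · exact bdd_seq (bdd_copy (hr 0).1 ho (by omega)) (bdd_inc ho)
  · intro s hs
    obtain ⟨h1, h2, h3⟩ := hr 0
    simp only [head_ofFn]
    refine ⟨?_, ?_⟩
    · rintro t ⟨u, h4, h5⟩
      obtain ⟨h6, h7, h8⟩ := xcopy_sound h1 ho (by omega) h3 (by omega) (by omega)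
        (hs N le_rfl) h4
      obtain ⟨h9, h10, h11⟩ := xinc ho h5
      refine ⟨by omega, by omega, ?_⟩
      intro c hc hc0
      rw [h11 c hc hc0, h8 c hc hc0]
    · intro h
      obtain ⟨u, h4⟩ := xcopy_exists (b := o) (c := N) h1 ho (by omega) h3 (by omega)
        (s := s) (by omega)
      obtain ⟨h6, h7, h8⟩ := xcopy_sound h1 ho (by omega) h3 (by omega) (by omega)
        (hs N le_rfl) h4
      obtain ⟨t, h5⟩ := xinc_exists (c := o) (s := u) (by omega)
      exact ⟨t, u, h4, h5⟩

/-! ### Composition -/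

/-- Empty the registers `N, …, N + k - 1`. -/
def clearsP (N : ℕ) : ℕ → Prog
  | 0 => .atom .skip
  | k + 1 => .seq (clearsP N k) (clearP (N + k))

theorem silent_clears (N k : ℕ) : (clearsP N k).Silent := by
  induction k with
  | zero => trivial
  | succ k ih => exact ⟨ih, silent_clear _⟩

theorem bdd_clears {N : ℕ} (hN : N ≠ 0) (k : ℕ) : ∃ K, (clearsP N k).Bdd K := by
  induction k with
  | zero => exact bdd_skip
  | succ k ih => exact bdd_seq ih (bdd_clear (by omega))

theorem xclears_sound {N : ℕ} (hN : N ≠ 0) (k : ℕ) : ∀ s t, (clearsP N k).rel xstep s t →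
    (∀ i < k, t (N + i) = 0) ∧ t 0 = s 0 + ∑ i ∈ Finset.range k, s (N + i) ∧
      ∀ c, (c < N ∨ N + k ≤ c) → c ≠ 0 → t c = s c := by
  induction k with
  | zero =>
    intro s t h
    have h : t = s := h
    subst h
    exact ⟨by simp, by simp, fun _ _ _ => rfl⟩
  | succ k ih =>
    rintro s t ⟨u, h1, h2⟩
    obtain ⟨h3, h4, h5⟩ := ih s u h1
    obtain ⟨h6, h7, h8⟩ := xclear_sound (by omega) h2
    refine ⟨?_, ?_, ?_⟩
    · intro i hi
      by_cases hik : i = k
      · subst hik; exact h6
      · rw [h8 (N + i) (by omega) (by omega)]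
        exact h3 i (by omega)
    · rw [h7, h4, Finset.sum_range_succ, h5 (N + k) (by omega) (by omega)]
      omega
    · intro c hc hc0
      rw [h8 c (by omega) hc0, h5 c (by omega) hc0]

theorem xclears_exists {N : ℕ} (hN : N ≠ 0) (k : ℕ) (s : ℕ → ℕ) :
    ∃ t, (clearsP N k).rel xstep s t := by
  induction k with
  | zero => exact ⟨s, rfl⟩
  | succ k ih =>
    obtain ⟨u, h1⟩ := ih
    obtain ⟨t, h2⟩ := xclear_exists (a := N + k) (by omega) u
    exact ⟨t, u, h1, h2⟩

theorem primrec'_sum {n m : ℕ} (h : Fin n → List.Vector ℕ m → ℕ)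
    (hh : ∀ i, Nat.Primrec' (h i)) : Nat.Primrec' fun v => ∑ i, h i v := by
  induction n with
  | zero => simpa using Nat.Primrec'.const 0
  | succ n ih =>
    simp only [Fin.sum_univ_succ]
    exact Nat.Primrec'.add.comp₂ _ (hh 0) (ih _ fun i => hh i.succ)

theorem comp_inputs {n m : ℕ} (g S : Fin n → List.Vector ℕ m → ℕ) (r : Fin m → ℕ) (N : ℕ)
    (hN : N ≠ 0) (hr : ∀ i, r i ≠ 0 ∧ r i < N)
    (hg : ∀ i : Fin n, ∃ p, Spec (g i) (S i) r (N + i) (N + n) p) :
    ∀ k, k ≤ n → ∃ p : Prog, p.Silent ∧ (∃ K, p.Bdd K) ∧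
      ∀ s : ℕ → ℕ, (∀ c, N ≤ c → s c = 0) →
        (∀ t, p.rel xstep s t →
          (∀ i : Fin n, i.1 < k → t (N + i) = g i (ofFn fun i => s (r i))) ∧
          (∀ c, N + k ≤ c → t c = 0) ∧
          t 0 + ∑ i ∈ Finset.range k, t (N + i) = s 0 ∧ (∀ c, c < N → c ≠ 0 → t c = s c)) ∧
        ((∑ i : Fin n, (S i (ofFn fun i => s (r i)) + g i (ofFn fun i => s (r i)))) ≤ s 0 →
          ∃ t, p.rel xstep s t) := by
  intro k
  induction k with
  | zero =>
    intro _
    refine ⟨.atom .skip, trivial, bdd_skip, fun s hs => ⟨?_, fun _ => ⟨s, rfl⟩⟩⟩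
    intro t h
    have h : t = s := h
    subst h
    exact ⟨by simp, by simpa using hs, by simp, fun _ _ _ => rfl⟩
  | succ k ih =>
    intro hk
    obtain ⟨p, hp1, hp2, hp3⟩ := ih (by omega)
    obtain ⟨q, hq1, hq2, hq3⟩ := hg ⟨k, by omega⟩
    refine ⟨.seq p q, ⟨hp1, hq1⟩, bdd_seq hp2 hq2, ?_⟩
    intro s hs
    obtain ⟨h1, h2⟩ := hp3 s hs
    have hin : ∀ u, p.rel xstep s u → (fun i => u (r i)) = fun i => s (r i) := by
      intro u hu
      funext i
      exact (h1 u hu).2.2.2 (r i) (hr i).2 (hr i).1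
    refine ⟨?_, ?_⟩
    · rintro t ⟨u, hu, ht⟩
      obtain ⟨h3, h4, h5, h6⟩ := h1 u hu
      obtain ⟨h7, -⟩ := hq3 u (fun c hc => h4 c (by omega))
      obtain ⟨h8, h9, h10⟩ := h7 t ht
      rw [hin u hu] at h8 h9
      simp only at h8 h9 h10
      refine ⟨?_, ?_, ?_, ?_⟩
      · intro i hi
        by_cases hik : i.1 = k
        · have : i = ⟨k, by omega⟩ := Fin.ext hik
          rw [this]
          show t (N + k) = _
          rw [h8, h4 (N + k) le_rfl, zero_add]
        · rw [h10 (N + i) (by omega) (by omega)]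
          exact h3 i (by omega)
      · intro c hc
        rw [h10 c (by omega) (by omega)]
        exact h4 c (by omega)
      · rw [Finset.sum_range_succ]
        have e1 : ∑ x ∈ Finset.range k, t (N + x) = ∑ x ∈ Finset.range k, u (N + x) := by
          refine Finset.sum_congr rfl fun x hx => ?_
          have := Finset.mem_range.1 hx
          exact h10 (N + x) (by omega) (by omega)
        rw [e1, h8, h4 (N + k) le_rfl]
        omega
      · intro c hc hc0
        rw [h10 c (by omega) hc0, h6 c hc hc0]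
    · intro h
      obtain ⟨u, hu⟩ := h2 h
      obtain ⟨h3, h4, h5, h6⟩ := h1 u hu
      obtain ⟨-, h7⟩ := hq3 u (fun c hc => h4 c (by omega))
      rw [hin u hu] at h7
      obtain ⟨t, ht⟩ := h7 (by
        have e1 : ∑ x ∈ Finset.range k, u (N + x) ≤
            ∑ i ∈ Finset.univ.erase (⟨k, by omega⟩ : Fin n),
              (S i (ofFn fun i => s (r i)) + g i (ofFn fun i => s (r i))) := by
          have e2 : ∑ x ∈ Finset.range k, u (N + x) = ∑ i : Fin k, u (N + i.1) :=
            Finset.sum_range _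
          rw [e2]
          have e3 : ∑ i : Fin k, u (N + i.1) =
              ∑ i ∈ (Finset.univ : Finset (Fin k)).map (Fin.castLEEmb (by omega : k ≤ n)),
                u (N + i.1) := by
            rw [Finset.sum_map]
            rfl
          rw [e3]
          have e4 : ∀ i ∈ (Finset.univ : Finset (Fin k)).map
              (Fin.castLEEmb (by omega : k ≤ n)), u (N + i.1) ≤
                S i (ofFn fun i => s (r i)) + g i (ofFn fun i => s (r i)) := by
            intro i hi
            obtain ⟨j, -, rfl⟩ := Finset.mem_map.1 hi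
            rw [h3 _ (by simp)]
            omega
          refine (Finset.sum_le_sum e4).trans (Finset.sum_le_sum_of_subset ?_)
          intro i hi
          obtain ⟨j, -, rfl⟩ := Finset.mem_map.1 hi
          refine Finset.mem_erase.2 ⟨?_, Finset.mem_univ _⟩
          intro hj
          have := congrArg Fin.val hj
          simp at this
          omega
        have e5 := Finset.add_sum_erase Finset.univ
          (fun i => S i (ofFn fun i => s (r i)) + g i (ofFn fun i => s (r i)))
          (Finset.mem_univ (⟨k, by omega⟩ : Fin n))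
        omega)
      exact ⟨t, u, hu, ht⟩

theorem good_comp {m n : ℕ} {f : List.Vector ℕ n → ℕ} (g : Fin n → List.Vector ℕ m → ℕ)
    (hf : Good f) (hg : ∀ i, Nat.Primrec' (g i)) (ihg : ∀ i, Good (g i))
    : Good fun a => f (ofFn fun i => g i a) := by
  obtain ⟨Sf, hSf, hf⟩ := hf
  choose Sg hSg hg' using ihg
  refine ⟨fun v => (∑ i, (Sg i v + g i v)) + Sf (ofFn fun i => g i v), ?_, ?_⟩
  · refine Nat.Primrec'.add.comp₂ _ (primrec'_sum _ fun i => ?_) (hSf.comp _ hg)
    exact Nat.Primrec'.add.comp₂ _ (hSg i) (hg i)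
  · intro r o N hr ho hoN
    have hN : N ≠ 0 := by omega
    obtain ⟨p, hp1, hp2, hp3⟩ := comp_inputs g Sg r N hN (fun i => ⟨(hr i).1, (hr i).2.1⟩)
      (fun i => hg' i r (N + i) (N + n) (by
        intro j
        have := hr j
        refine ⟨by omega, by omega, by omega⟩) (by omega) (by have := i.2; omega)) n le_rfl
    obtain ⟨q, hq1, hq2, hq3⟩ := hf (fun i => N + i) o (N + n) (by
      intro i
      have := i.2
      exact ⟨by omega, by omega, by omega⟩) ho (by omega)
    refine ⟨.seq p (.seq q (clearsP N n)), ⟨hp1, hq1, silent_clears _ _⟩,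
      bdd_seq hp2 (bdd_seq hq2 (bdd_clears hN n)), ?_⟩
    intro s hs
    obtain ⟨h1, h2⟩ := hp3 s hs
    have key : ∀ u, p.rel xstep s u → (fun i : Fin n => u (N + i)) =
        fun i => g i (ofFn fun i => s (r i)) := by
      intro u hu
      funext i
      exact (h1 u hu).1 i i.2
    refine ⟨?_, ?_⟩
    · rintro t ⟨u, hu, w, hw, ht⟩
      obtain ⟨h3, h4, h5, h6⟩ := h1 u hu
      obtain ⟨h7, -⟩ := hq3 u h4
      obtain ⟨h8, h9, h10⟩ := h7 w hw
      obtain ⟨h11, h12, h13⟩ := xclears_sound hN n w t ht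
      simp only at h8 h9
      rw [key u hu] at h8 h9
      refine ⟨?_, ?_, ?_⟩
      · rw [h13 o (Or.inl hoN) ho, h8, h6 o hoN ho]
      · have e1 : ∑ i ∈ Finset.range n, w (N + i) = ∑ i ∈ Finset.range n, u (N + i) := by
          refine Finset.sum_congr rfl fun x _ => ?_
          exact h10 (N + x) (by omega) (by omega)
        rw [e1] at h12
        simp only
        omega
      · intro c hc hc0
        by_cases hcN : c < N
        · rw [h13 c (Or.inl hcN) hc0, h10 c hc hc0, h6 c hcN hc0]
        · rw [hs c (by omega)]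
          by_cases hcn : c < N + n
          · obtain ⟨i, rfl⟩ : ∃ i, c = N + i := ⟨c - N, by omega⟩
            exact h11 i (by omega)
          · rw [h13 c (Or.inr (by omega)) hc0, h10 c hc hc0, h4 c (by omega)]
    · intro h
      obtain ⟨u, hu⟩ := h2 (by simp only at h; omega)
      obtain ⟨h3, h4, h5, h6⟩ := h1 u hu
      obtain ⟨-, h7⟩ := hq3 u h4
      simp only at h7
      rw [key u hu] at h7
      obtain ⟨w, hw⟩ := h7 (by
        have e2 : ∑ x ∈ Finset.range n, u (N + x) = ∑ i : Fin n, u (N + i.1) :=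
            Finset.sum_range _
        have e3 : ∑ i : Fin n, u (N + i.1) ≤
            ∑ i : Fin n, (Sg i (ofFn fun i => s (r i)) + g i (ofFn fun i => s (r i))) := by
          refine Finset.sum_le_sum fun i _ => ?_
          rw [h3 i i.2]
          omega
        simp only at h
        omega)
      obtain ⟨t, ht⟩ := xclears_exists hN n w
      exact ⟨t, u, hu, w, hw, ht⟩

end Pool.Agent.MP_4c145a_lc
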