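import Pool.Agent.Lib.MP_4c145a_lc.Compile

/-!
# Primitive recursive functions are computed by exact programs, part 2: recursion
-/

namespace Pool.Agent.MP_4c145a_lc

open Function List.Vector

/-- The `i`-th value of a primitive recursion. -/
def recVal {n : ℕ} (f : List.Vector ℕ n → ℕ) (g : List.Vector ℕ (n + 2) → ℕ)
    (τ : List.Vector ℕ n) (i : ℕ) : ℕ :=
  i.rec (f τ) fun y IH => g (y ::ᵥ IH ::ᵥ τ)

theorem recVal_zero {n : ℕ} (f : List.Vector ℕ n → ℕ) (g : List.Vector ℕ (n + 2) → ℕ)
    (τ : List.Vector ℕ n) : recVal f g τ 0 = f τ := rfl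

theorem recVal_succ {n : ℕ} (f : List.Vector ℕ n → ℕ) (g : List.Vector ℕ (n + 2) → ℕ)
    (τ : List.Vector ℕ n) (i : ℕ) :
    recVal f g τ (i + 1) = g (i ::ᵥ recVal f g τ i ::ᵥ τ) := rfl

/-- Space used by one round of the recursion. -/
def roundSp {n : ℕ} (f : List.Vector ℕ n → ℕ) (g Sg : List.Vector ℕ (n + 2) → ℕ)
    (τ : List.Vector ℕ n) (i : ℕ) : ℕ :=
  Sg (i ::ᵥ recVal f g τ i ::ᵥ τ) + recVal f g τ i + recVal f g τ (i + 1) + 1

/-- Space used by `x` rounds of the recursion. -/
def totalSp {n : ℕ} (f Sf : List.Vector ℕ n → ℕ) (g Sg : List.Vector ℕ (n + 2) → ℕ)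
    (τ : List.Vector ℕ n) (x : ℕ) : ℕ :=
  x.rec (Sf τ + f τ) fun i IH => IH + roundSp f g Sg τ i

theorem le_totalSp {n : ℕ} (f Sf : List.Vector ℕ n → ℕ) (g Sg : List.Vector ℕ (n + 2) → ℕ)
    (τ : List.Vector ℕ n) (x : ℕ) : Sf τ + f τ ≤ totalSp f Sf g Sg τ x ∧
      ∀ i < x, roundSp f g Sg τ i ≤ totalSp f Sf g Sg τ x := by
  induction x with
  | zero => exact ⟨le_rfl, by simp⟩
  | succ x ih =>
    have h : totalSp f Sf g Sg τ (x + 1) = totalSp f Sf g Sg τ x + roundSp f g Sg τ x := rfl
    refine ⟨by omega, fun i hi => ?_⟩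
    rcases Nat.lt_succ_iff_lt_or_eq.1 hi with hi | rfl
    · have := ih.2 i hi
      omega
    · omega

theorem primrec'_space {n : ℕ} {f Sf : List.Vector ℕ n → ℕ} {g Sg : List.Vector ℕ (n + 2) → ℕ}
    (hf : Nat.Primrec' f) (hSf : Nat.Primrec' Sf) (hg : Nat.Primrec' g) (hSg : Nat.Primrec' Sg) :
    Nat.Primrec' fun v : List.Vector ℕ (n + 1) => v.head + totalSp f Sf g Sg v.tail v.head := by
  have h0 : Nat.Primrec' fun v : List.Vector ℕ (n + 1) => recVal f g v.tail v.head :=
    Nat.Primrec'.prec hf hg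
  have hvh : Primrec fun v : List.Vector ℕ (n + 2) => v.head := Primrec.vector_head
  have hvt : Primrec fun v : List.Vector ℕ (n + 2) => v.tail.tail :=
    Primrec.vector_tail.comp Primrec.vector_tail
  have h1 : Primrec fun v : List.Vector ℕ (n + 2) => recVal f g v.tail.tail v.head :=
    (h0.to_prim.comp (Primrec.vector_cons.comp hvh hvt)).of_eq (by intro v; simp)
  have h2 : Primrec fun v : List.Vector ℕ (n + 2) => recVal f g v.tail.tail (v.head + 1) :=
    (h0.to_prim.comp (Primrec.vector_cons.comp (Primrec.succ.comp hvh) hvt)).of_eq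
      (by intro v; simp)
  have h3 : Primrec fun v : List.Vector ℕ (n + 2) =>
      Sg (v.head ::ᵥ recVal f g v.tail.tail v.head ::ᵥ v.tail.tail) :=
    hSg.to_prim.comp (Primrec.vector_cons.comp hvh (Primrec.vector_cons.comp h1 hvt))
  have h4 : Primrec fun v : List.Vector ℕ (n + 2) =>
      v.tail.head + roundSp f g Sg v.tail.tail v.head := by
    unfold roundSp
    exact Primrec.nat_add.comp (Primrec.vector_head.comp Primrec.vector_tail)
      (Primrec.succ.comp (Primrec.nat_add.comp (Primrec.nat_add.comp h3 h1) h2))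
  have h5 : Nat.Primrec' fun v : List.Vector ℕ (n + 1) => totalSp f Sf g Sg v.tail v.head := by
    have h6 := Nat.Primrec'.prec (Nat.Primrec'.add.comp₂ _ hSf hf) (Nat.Primrec'.of_prim h4)
    exact h6.of_eq (by intro v; simp [totalSp])
  exact Nat.Primrec'.add.comp₂ _ Nat.Primrec'.head h5

theorem good_prec {n : ℕ} {f : List.Vector ℕ n → ℕ} {g : List.Vector ℕ (n + 2) → ℕ}
    (hf : Nat.Primrec' f) (hg : Nat.Primrec' g) (gf : Good f) (gg : Good g) :
    Good fun v : List.Vector ℕ (n + 1) =>
      v.head.rec (f v.tail) fun y IH => g (y ::ᵥ IH ::ᵥ v.tail) := by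
  obtain ⟨Sf, hSf, gf⟩ := gf
  obtain ⟨Sg, hSg, gg⟩ := gg
  refine ⟨fun v => v.head + totalSp f Sf g Sg v.tail v.head, primrec'_space hf hSf hg hSg, ?_⟩
  intro r o N hr ho hoN
  have hN : N ≠ 0 := by omega
  obtain ⟨pf, pf1, pf2, pf3⟩ := gf (fun i => r i.succ) (N + 1) (N + 5) (by
    intro i
    have := hr i.succ
    exact ⟨by omega, by omega, by omega⟩) (by omega) (by omega)
  let r' : Fin (n + 2) → ℕ := Fin.cons N (Fin.cons (N + 1) fun i => r i.succ)
  obtain ⟨pg, pg1, pg2, pg3⟩ := gg r' (N + 2) (N + 5) (by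
    intro i
    refine Fin.cases ?_ (fun i => ?_) i
    · exact ⟨by simp only [r', Fin.cons_zero]; omega, by simp only [r', Fin.cons_zero]; omega,
        by simp only [r', Fin.cons_zero]; omega⟩
    · refine Fin.cases ?_ (fun i => ?_) i
      · exact ⟨by simp only [r', Fin.cons_succ, Fin.cons_zero]; omega,
          by simp only [r', Fin.cons_succ, Fin.cons_zero]; omega,
          by simp only [r', Fin.cons_succ, Fin.cons_zero]; omega⟩
      · have := hr i.succ
        exact ⟨by simp only [r', Fin.cons_succ]; omega, by simp only [r', Fin.cons_succ]; omega,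
          by simp only [r', Fin.cons_succ]; omega⟩) (by omega) (by omega)
  have hvec : ∀ s : ℕ → ℕ, (ofFn fun i => s (r' i)) =
      s N ::ᵥ s (N + 1) ::ᵥ ofFn fun i => s (r i.succ) := fun s => rfl
  have ha := hr 0
  let body : Prog := .seq pg (.seq (clearP (N + 1)) (.seq (moveP (N + 2) (N + 1))
    (.atom (.inc N))))
  let loop : Prog := .seq (.star (.seq (.atom (.dec (N + 3))) body)) (.atom (.zero (N + 3)))
  refine ⟨.seq (copyP (r 0) (N + 3) (N + 4)) (.seq pf (.seq loop (.seq (clearP N)
    (moveP (N + 1) o)))), ?_, ?_, ?_⟩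
  · exact ⟨silent_copy _ _ _, pf1, ⟨⟨trivial, pg1, silent_clear _, silent_move _ _, trivial⟩,
      trivial⟩, silent_clear _, silent_move _ _⟩
  · exact bdd_seq (bdd_copy ha.1 (by omega) (by omega)) (bdd_seq pf2 (bdd_seq
      (bdd_seq (bdd_star (bdd_seq (bdd_dec (by omega)) (bdd_seq pg2 (bdd_seq
        (bdd_clear (by omega)) (bdd_seq (bdd_move (by omega) (by omega)) (bdd_inc hN))))))
        (bdd_zero (by omega))) (bdd_seq (bdd_clear hN) (bdd_move (by omega) ho))))
  · intro s hs
    simp only [head_ofFn, tail_ofFn]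
    set x := s (r 0) with hx
    set τ := (ofFn fun i : Fin n => s (r i.succ)) with hτ
    -- the state before the loop
    have A1 : ∀ s1, (copyP (r 0) (N + 3) (N + 4)).rel xstep s s1 → Adds s s1 (N + 3) x :=
      fun s1 h => xcopy_sound ha.1 (by omega) (by omega) (by omega) (by omega) (by omega)
        (hs (N + 4) (by omega)) h
    have A2 : ∀ s1 s2, (copyP (r 0) (N + 3) (N + 4)).rel xstep s s1 → pf.rel xstep s1 s2 →
        Adds s1 s2 (N + 1) (f τ) := by
      intro s1 s2 h1 h2
      obtain ⟨e1, e2, e3⟩ := A1 s1 h1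
      have e4 : (ofFn fun i => s1 (r i.succ)) = τ := by
        rw [hτ]
        congr 1
        funext i
        have := hr i.succ
        exact e3 _ (by omega) (by omega)
      have := (pf3 s1 (fun c hc => by rw [e3 c (by omega) (by omega)]; exact hs c (by omega))).1
        s2 h2
      rw [e4] at this
      exact this
    let I : ℕ → (ℕ → ℕ) → Prop := fun i v => v N = i ∧ v (N + 1) = recVal f g τ i ∧
      (∀ c, N + 2 ≤ c → c ≠ N + 3 → v c = 0) ∧ v (N + 3) + i = x ∧
      v 0 + x + recVal f g τ i = s 0 ∧ ∀ c, c < N → c ≠ 0 → v c = s c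
    have hI0 : ∀ s1 s2, (copyP (r 0) (N + 3) (N + 4)).rel xstep s s1 → pf.rel xstep s1 s2 →
        I 0 s2 := by
      intro s1 s2 h1 h2
      obtain ⟨e1, e2, e3⟩ := A1 s1 h1
      obtain ⟨e4, e5, e6⟩ := A2 s1 s2 h1 h2
      have z0 := hs N le_rfl
      have z1 := hs (N + 1) (by omega)
      have z3 := hs (N + 3) (by omega)
      refine ⟨?_, ?_, ?_, ?_, ?_, ?_⟩
      · rw [e6 N (by omega) hN, e3 N (by omega) hN, z0]
      · rw [e4, e3 (N + 1) (by omega) (by omega), z1, zero_add, recVal_zero]
      · intro c hc hc3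
        rw [e6 c (by omega) (by omega), e3 c hc3 (by omega)]
        exact hs c (by omega)
      · rw [e6 (N + 3) (by omega) (by omega)]
        omega
      · rw [recVal_zero]
        omega
      · intro c hc hc0
        rw [e6 c (by omega) hc0, e3 c (by omega) hc0]
    -- one round, up to the computation of the new value
    have B1 : ∀ i v v1, I i v → xstep (.dec (N + 3)) v v1 → (∀ c, N + 5 ≤ c → v1 c = 0) ∧
        (ofFn fun i => v1 (r' i)) = i ::ᵥ recVal f g τ i ::ᵥ τ ∧ v1 (N + 3) + (i + 1) = x ∧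
        v1 0 + x + recVal f g τ i = s 0 + 1 ∧ v1 N = i ∧ v1 (N + 1) = recVal f g τ i ∧
        (∀ c, N + 2 ≤ c → c ≠ N + 3 → v1 c = 0) ∧ ∀ c, c < N → c ≠ 0 → v1 c = s c := by
      rintro i v v1 ⟨i1, i2, i3, i4, i5, i6⟩ h
      obtain ⟨e1, e2, e3⟩ := xdec (by omega) h
      have e4 : v1 N = i := by rw [e3 N (by omega) hN, i1]
      have e5 : v1 (N + 1) = recVal f g τ i := by rw [e3 (N + 1) (by omega) (by omega), i2]
      refine ⟨?_, ?_, by omega, by omega, e4, e5, ?_, ?_⟩
      · intro c hc
        rw [e3 c (by omega) (by omega)]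
        exact i3 c (by omega) (by omega)
      · rw [hvec, e4, e5]
        congr 2
        rw [hτ]
        congr 1
        funext j
        have := hr j.succ
        rw [e3 _ (by omega) (by omega), i6 _ this.2.1 this.1]
      · intro c hc hc3
        rw [e3 c hc3 (by omega)]
        exact i3 c hc hc3
      · intro c hc hc0
        rw [e3 c (by omega) hc0, i6 c hc hc0]
    have B2 : ∀ i v v1 v2, I i v → xstep (.dec (N + 3)) v v1 → pg.rel xstep v1 v2 →
        Adds v1 v2 (N + 2) (recVal f g τ (i + 1)) := by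
      intro i v v1 v2 hI h1 h2
      obtain ⟨e1, e2, -⟩ := B1 i v v1 hI h1
      have := (pg3 v1 e1).1 v2 h2
      rw [e2] at this
      exact this
    have hstep : ∀ i v v', I i v → (Prog.seq (.atom (.dec (N + 3))) body).rel xstep v v' →
        I (i + 1) v' := by
      rintro i v v5 hI ⟨v1, h1, v2, h2, v3, h3, v4, h4, h5⟩
      obtain ⟨e1, e2, e3, e4, e5, e6, e7, e8⟩ := B1 i v v1 hI h1
      obtain ⟨f1, f2, f3⟩ := B2 i v v1 v2 hI h1 h2
      obtain ⟨g1, g2, g3⟩ := xclear_sound (by omega) h3
      obtain ⟨k1, k2, k3, k4⟩ := xmove_sound (by omega) (by omega) (by omega) h4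
      obtain ⟨l1, l2, l3⟩ := xinc hN h5
      have z2 := e7 (N + 2) le_rfl (by omega)
      have a1 : v2 N = i := by rw [f3 N (by omega) hN, e5]
      have a2 : v2 (N + 1) = recVal f g τ i := by rw [f3 (N + 1) (by omega) (by omega), e6]
      have a3 : v3 (N + 2) = recVal f g τ (i + 1) := by
        rw [g3 (N + 2) (by omega) (by omega), f1, z2, zero_add]
      refine ⟨?_, ?_, ?_, ?_, ?_, ?_⟩
      · rw [l1, k4 N (by omega) (by omega) hN, g3 N (by omega) hN, a1]
      · rw [l3 (N + 1) (by omega) (by omega), k2, g1, a3, zero_add]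
      · intro c hc hc3
        rw [l3 c (by omega) (by omega)]
        by_cases hc2 : c = N + 2
        · subst hc2; exact k1
        · rw [k4 c hc2 (by omega) (by omega), g3 c (by omega) (by omega),
            f3 c hc2 (by omega)]
          exact e7 c hc hc3
      · rw [l3 (N + 3) (by omega) (by omega), k4 (N + 3) (by omega) (by omega) (by omega),
          g3 (N + 3) (by omega) (by omega), f3 (N + 3) (by omega) (by omega)]
        exact e3
      · omega
      · intro c hc hc0
        rw [l3 c (by omega) hc0, k4 c (by omega) (by omega) hc0, g3 c (by omega) hc0,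
          f3 c (by omega) hc0, e8 c hc hc0]
    refine ⟨?_, ?_⟩
    · rintro t ⟨s1, h1, s2, h2, s3, ⟨s3', h3, h3'⟩, s4, h4, h5⟩
      have h3' : s3' (N + 3) = 0 ∧ s3 = s3' := h3'
      obtain ⟨h3', rfl⟩ := h3'
      obtain ⟨k, i1, i2, i3, i4, i5, i6⟩ := star_inv (hI0 s1 s2 h1 h2) hstep h3
      have hk : k = x := by omega
      subst hk
      obtain ⟨g1, g2, g3⟩ := xclear_sound hN h4
      obtain ⟨k1, k2, k3, k4⟩ := xmove_sound (by omega) ho (by omega) h5
      have hfin : (Nat.rec (f τ) (fun y IH => g (y ::ᵥ IH ::ᵥ τ)) x : ℕ) = recVal f g τ x := rfl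
      rw [hfin]
      refine ⟨?_, by omega, ?_⟩
      · rw [k2, g3 o (by omega) ho, g3 (N + 1) (by omega) (by omega), i6 o hoN ho, i2]
      · intro c hc hc0
        by_cases hcN : c < N
        · rw [k4 c (by omega) hc hc0, g3 c (by omega) hc0, i6 c hcN hc0]
        · rw [hs c (by omega)]
          by_cases hc1 : c = N + 1
          · subst hc1; exact k1
          · rw [k4 c hc1 hc hc0]
            by_cases hcN' : c = N
            · subst hcN'; exact g1
            · rw [g3 c hcN' hc0]
              by_cases hc3 : c = N + 3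
              · subst hc3; exact h3'
              · exact i3 c (by omega) hc3
    · intro hS
      obtain ⟨hS1, hS2⟩ := le_totalSp f Sf g Sg τ x
      obtain ⟨s1, h1⟩ := xcopy_exists (a := r 0) (b := N + 3) (c := N + 4) ha.1 (by omega)
        (by omega) (by omega) (by omega) (s := s) (by omega)
      obtain ⟨e1, e2, e3⟩ := A1 s1 h1
      have e4 : (ofFn fun i => s1 (r i.succ)) = τ := by
        rw [hτ]
        congr 1
        funext i
        have := hr i.succ
        exact e3 _ (by omega) (by omega)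
      obtain ⟨s2, h2⟩ := (pf3 s1 (fun c hc => by
        rw [e3 c (by omega) (by omega)]; exact hs c (by omega))).2 (by rw [e4]; omega)
      obtain ⟨s3, h3, i1, i2, i3, i4, i5, i6⟩ := star_exists
        (R := (Prog.seq (.atom (.dec (N + 3))) body).rel xstep) (I := I) (s := s2) x
        (hI0 s1 s2 h1 h2) (by
          intro i v hi hI
          have hI' := hI
          obtain ⟨i1, i2, i3, i4, i5, i6⟩ := hI'
          have hr1 := hS2 i hi
          unfold roundSp at hr1
          obtain ⟨v1, k1⟩ := xdec_exists (c := N + 3) (s := v) (by omega)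
          obtain ⟨e1, e2, e3, e4, e5, e6, e7, e8⟩ := B1 i v v1 hI k1
          obtain ⟨v2, k2⟩ := (pg3 v1 e1).2 (by rw [e2]; omega)
          obtain ⟨f1, f2, f3⟩ := B2 i v v1 v2 hI k1 k2
          obtain ⟨v3, k3⟩ := xclear_exists (a := N + 1) (by omega) v2
          obtain ⟨g1, g2, g3⟩ := xclear_sound (by omega) k3
          obtain ⟨v4, k4⟩ := xmove_exists (a := N + 2) (b := N + 1) (by omega) (by omega)
            (by omega) v3
          obtain ⟨l1, l2, l3, l4⟩ := xmove_sound (by omega) (by omega) (by omega) k4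
          have a2 : v2 (N + 1) = recVal f g τ i := by
            rw [f3 (N + 1) (by omega) (by omega), e6]
          obtain ⟨v5, k5⟩ := xinc_exists (c := N) (s := v4) (by omega)
          have hrun : (Prog.seq (.atom (.dec (N + 3))) body).rel xstep v v5 :=
            ⟨v1, k1, v2, k2, v3, k3, v4, k4, k5⟩
          exact ⟨v5, hrun, hstep i v v5 hI hrun⟩)
      obtain ⟨s4, h4⟩ := xclear_exists (a := N) hN s3
      obtain ⟨t, h5⟩ := xmove_exists (a := N + 1) (b := o) (by omega) ho (by omega) s4
      exact ⟨t, s1, h1, s2, h2, s3, ⟨s3, h3, by omega, rfl⟩, s4, h4, h5⟩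

theorem good_of_primrec' {n : ℕ} {f : List.Vector ℕ n → ℕ} (hf : Nat.Primrec' f) : Good f := by
  induction hf with
  | zero => exact good_zero
  | succ => exact good_succ
  | get i => exact good_get i
  | comp g _ hg ihf ihg => exact good_comp g ihf hg ihg
  | prec hf hg ihf ihg => exact good_prec hf hg ihf ihg

end Pool.Agent.MP_4c145a_lc
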