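import Pool.Agent.Lib.MP_4c145a_lc.Prog

/-!
# Conservative programs: a run that keeps the total is exact
-/

namespace Pool.Agent.MP_4c145a_lc

open Function

/-- The register part of `gstep`. -/
def rstep : Instr → (ℕ → ℕ) → (ℕ → ℕ) → Prop
  | .skip, s, t => t = s
  | .inc c, s, t => t = update s c (s c + 1)
  | .dec c, s, t => t = s ∨ (0 < s c ∧ t = update s c (s c - 1))
  | .zero c, s, t => s c = 0 ∧ t = s
  | .emit _, s, t => t = s

/-- Programs without output. -/
def Prog.Silent : Prog → Prop
  | .atom (.emit _) => False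
  | .atom _ => True
  | .seq p q => p.Silent ∧ q.Silent
  | .star p => p.Silent

theorem silent_sound (p : Prog) : p.Silent → ∀ a b : St, p.rel gstep a b →
    p.rel rstep a.1 b.1 ∧ b.2 = a.2 := by
  induction p with
  | atom i =>
    rintro hp ⟨s, o⟩ ⟨t, o'⟩ h
    cases i with
    | skip =>
      have h : (t, o') = (s, o) := h
      simp only [Prod.mk.injEq] at h
      exact ⟨h.1, h.2⟩
    | inc c =>
      have h : (t, o') = (update s c (s c + 1), o) := h
      simp only [Prod.mk.injEq] at h
      exact ⟨h.1, h.2⟩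
    | dec c =>
      have h : (t, o') = (s, o) ∨ (0 < s c ∧ (t, o') = (update s c (s c - 1), o)) := h
      simp only [Prod.mk.injEq] at h
      rcases h with h | ⟨h1, h⟩
      · exact ⟨Or.inl h.1, h.2⟩
      · exact ⟨Or.inr ⟨h1, h.1⟩, h.2⟩
    | zero c =>
      have h : s c = 0 ∧ (t, o') = (s, o) := h
      simp only [Prod.mk.injEq] at h
      exact ⟨⟨h.1, h.2.1⟩, h.2.2⟩
    | emit b => exact absurd hp (by simp [Prog.Silent])
  | seq p q ihp ihq =>
    rintro ⟨hp, hq⟩ a b ⟨u, h1, h2⟩
    obtain ⟨h3, h4⟩ := ihp hp _ _ h1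
    obtain ⟨h5, h6⟩ := ihq hq _ _ h2
    exact ⟨⟨u.1, h3, h5⟩, h6.trans h4⟩
  | star p ih =>
    intro hp a b h
    induction h with
    | refl => exact ⟨Relation.ReflTransGen.refl, rfl⟩
    | tail _ h1 ih2 =>
      obtain ⟨h3, h4⟩ := ih hp _ _ h1
      exact ⟨Relation.ReflTransGen.tail ih2.1 h3, h4.trans ih2.2⟩

theorem silent_complete (p : Prog) : p.Silent → ∀ s t o, p.rel rstep s t →
    p.rel gstep (s, o) (t, o) := by
  induction p with
  | atom i =>
    intro hp s t o h
    cases i with
    | skip =>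
      have h : t = s := h
      rw [h]
      exact rfl
    | inc c =>
      have h : t = update s c (s c + 1) := h
      rw [h]
      exact rfl
    | dec c =>
      rcases h with h | ⟨h1, h⟩
      · exact Or.inl (by rw [h])
      · exact Or.inr ⟨h1, by rw [h]⟩
    | zero c => exact ⟨h.1, by rw [h.2]⟩
    | emit b => exact absurd hp (by simp [Prog.Silent])
  | seq p q ihp ihq =>
    rintro ⟨hp, hq⟩ s t o ⟨u, h1, h2⟩
    exact ⟨(u, o), ihp hp _ _ _ h1, ihq hq _ _ _ h2⟩
  | star p ih =>
    intro hp s t o h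
    induction h with
    | refl => exact Relation.ReflTransGen.refl
    | tail _ h1 ih2 => exact Relation.ReflTransGen.tail ih2 (ih hp _ _ _ h1)

/-- Exact steps, where the free units are kept in register `0`. -/
def xstep : Instr → (ℕ → ℕ) → (ℕ → ℕ) → Prop
  | .skip, s, t => t = s
  | .inc c, s, t => 0 < s 0 ∧ t = update (update s 0 (s 0 - 1)) c (s c + 1)
  | .dec c, s, t => 0 < s c ∧ t = update (update s c (s c - 1)) 0 (s 0 + 1)
  | .zero c, s, t => s c = 0 ∧ t = s
  | .emit _, s, t => t = s

/-- The conservative version of a program. -/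
def Prog.cons : Prog → Prog
  | .atom (.inc c) => .seq (.atom (.dec 0)) (.atom (.inc c))
  | .atom (.dec c) => .seq (.atom (.dec c)) (.atom (.inc 0))
  | .atom i => .atom i
  | .seq p q => .seq p.cons q.cons
  | .star p => .star p.cons

/-- All registers are positive and below `K`. -/
def Prog.Bdd (K : ℕ) : Prog → Prop
  | .atom (.inc c) => 0 < c ∧ c < K
  | .atom (.dec c) => 0 < c ∧ c < K
  | .atom (.zero c) => 0 < c ∧ c < K
  | .atom _ => True
  | .seq p q => p.Bdd K ∧ q.Bdd K
  | .star p => p.Bdd K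

theorem Prog.Bdd.mono {K K' : ℕ} (h : K ≤ K') {p : Prog} (hp : p.Bdd K) : p.Bdd K' := by
  induction p with
  | atom i =>
    cases i with
    | skip => trivial
    | inc c => exact ⟨hp.1, lt_of_lt_of_le hp.2 h⟩
    | dec c => exact ⟨hp.1, lt_of_lt_of_le hp.2 h⟩
    | zero c => exact ⟨hp.1, lt_of_lt_of_le hp.2 h⟩
    | emit b => trivial
  | seq p q ihp ihq => exact ⟨ihp hp.1, ihq hp.2⟩
  | star p ih => exact ih hp

theorem silent_cons (p : Prog) (hp : p.Silent) : p.cons.Silent := by
  induction p with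
  | atom i =>
    cases i with
    | skip => trivial
    | inc c => exact ⟨trivial, trivial⟩
    | dec c => exact ⟨trivial, trivial⟩
    | zero c => trivial
    | emit b => exact absurd hp (by simp [Prog.Silent])
  | seq p q ihp ihq => exact ⟨ihp hp.1, ihq hp.2⟩
  | star p ih => exact ih hp

/-- The total content of the registers below `K`. -/
def tot (K : ℕ) (s : ℕ → ℕ) : ℕ := ∑ c ∈ Finset.range K, s c

theorem tot_update {K c : ℕ} (hc : c < K) (s : ℕ → ℕ) (v : ℕ) :
    tot K (update s c v) + s c = tot K s + v := by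
  have h1 : tot K (update s c v) = v + ∑ x ∈ Finset.range K \ {c}, s x :=
    Finset.sum_update_of_mem (Finset.mem_range.2 hc) s v
  have h2 : tot K s = s c + ∑ x ∈ Finset.range K \ {c}, s x := by
    have := Finset.sum_update_of_mem (Finset.mem_range.2 hc) s (s c)
    rw [update_eq_self] at this
    exact this
  omega

theorem cons_sound {K : ℕ} (hK : 0 < K) (p : Prog) : p.Bdd K → ∀ s t, p.cons.rel rstep s t →
    tot K s ≤ tot K t ∧ (tot K s = tot K t → p.rel xstep s t) := by
  induction p with
  | atom i =>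
    intro hp s t h
    cases i with
    | skip =>
      have h : t = s := h
      subst h
      exact ⟨le_rfl, fun _ => rfl⟩
    | inc c =>
      obtain ⟨u, h1, h2⟩ := h
      have h2 : t = update u c (u c + 1) := h2
      have h3 := tot_update hp.2 u (u c + 1)
      rw [← h2] at h3
      rcases h1 with rfl | ⟨hpos, h1⟩
      · exact ⟨by omega, fun h => by omega⟩
      · have h4 := tot_update hK s (s 0 - 1)
        rw [← h1] at h4
        refine ⟨by omega, fun _ => ⟨hpos, ?_⟩⟩
        rw [h2, h1]
        congr 1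
        rw [update_of_ne (by have := hp.1; omega)]
    | dec c =>
      obtain ⟨u, h1, h2⟩ := h
      have h2 : t = update u 0 (u 0 + 1) := h2
      have h3 := tot_update hK u (u 0 + 1)
      rw [← h2] at h3
      rcases h1 with rfl | ⟨hpos, h1⟩
      · exact ⟨by omega, fun h => by omega⟩
      · have h4 := tot_update hp.2 s (s c - 1)
        rw [← h1] at h4
        refine ⟨by omega, fun _ => ⟨hpos, ?_⟩⟩
        rw [h2, h1]
        congr 1
        rw [update_of_ne (by have := hp.1; omega)]
    | zero c =>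
      have h : s c = 0 ∧ t = s := h
      obtain ⟨h1, rfl⟩ := h
      exact ⟨le_rfl, fun _ => ⟨h1, rfl⟩⟩
    | emit b =>
      have h : t = s := h
      subst h
      exact ⟨le_rfl, fun _ => rfl⟩
  | seq p q ihp ihq =>
    rintro ⟨hp, hq⟩ s t ⟨u, h1, h2⟩
    obtain ⟨h3, h4⟩ := ihp hp _ _ h1
    obtain ⟨h5, h6⟩ := ihq hq _ _ h2
    exact ⟨h3.trans h5, fun h => ⟨u, h4 (by omega), h6 (by omega)⟩⟩
  | star p ih =>
    intro hp s t h
    induction h with
    | refl => exact ⟨le_rfl, fun _ => Relation.ReflTransGen.refl⟩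
    | tail _ h1 ih2 =>
      obtain ⟨h3, h4⟩ := ih hp _ _ h1
      exact ⟨ih2.1.trans h3, fun h => Relation.ReflTransGen.tail (ih2.2 (by omega)) (h4 (by omega))⟩

theorem cons_complete {K : ℕ} (p : Prog) : p.Bdd K → ∀ s t, p.rel xstep s t →
    p.cons.rel rstep s t := by
  induction p with
  | atom i =>
    intro hp s t h
    cases i with
    | skip => exact h
    | inc c =>
      refine ⟨update s 0 (s 0 - 1), Or.inr ⟨h.1, rfl⟩, ?_⟩
      show t = _
      rw [h.2, update_of_ne (by have := hp.1; omega)]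
    | dec c =>
      refine ⟨update s c (s c - 1), Or.inr ⟨h.1, rfl⟩, ?_⟩
      show t = _
      rw [h.2, update_of_ne (by have := hp.1; omega)]
    | zero c => exact h
    | emit b => exact h
  | seq p q ihp ihq =>
    rintro ⟨hp, hq⟩ s t ⟨u, h1, h2⟩
    exact ⟨u, ihp hp _ _ h1, ihq hq _ _ h2⟩
  | star p ih =>
    intro hp s t h
    induction h with
    | refl => exact Relation.ReflTransGen.refl
    | tail _ h1 ih2 => exact Relation.ReflTransGen.tail ih2 (ih hp _ _ h1)

end Pool.Agent.MP_4c145a_lc
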