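import Pool.Agent.Lib.MP_4c145a_lc.MainProg

/-!
# Membership of `1ⁿ0ⁿ` in LF-EP0L languages is uniformly primitive recursive
-/

namespace Pool.Agent.MP_4c145a_lc

/-- Codes of grammars: a bound for the symbols, the reversed axiom, and the list of the rules
`(X, reversed y, W)`. -/
abbrev Code : Type := ℕ × List ℕ × List (ℕ × List ℕ × List ℕ)

/-- The right sides of the rules for `X` that can be used with left context `u`. -/
def applies (R : List (ℕ × List ℕ × List ℕ)) (X : ℕ) (u : List ℕ) : List (List ℕ) :=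
  (R.filter fun r => decide (r.1 = X ∧ ∀ Z ∈ u, Z ∉ r.2.2)).map fun r => r.2.1

/-- All results of a parallel step, for reversed words. -/
def succs (R : List (ℕ × List ℕ × List ℕ)) : List ℕ → List (List ℕ)
  | [] => [[]]
  | X :: u => (applies R X u).flatMap fun y => (succs R u).map fun v => y ++ v

/-- The words of length at most `L` that can be reached in `t` steps. -/
def reachL (D : Code) (L t : ℕ) : List (List ℕ) :=
  (fun S => S ++ (S.flatMap (succs D.2.2)).filter fun v => decide (v.length ≤ L))^[t] [D.2.1]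

/-- The reversed word `0ⁿ1ⁿ`. -/
def target (n : ℕ) : List ℕ := (List.range n).map (fun _ => 0) ++ (List.range n).map (fun _ => 1)

/-- The grammar with code `D` generates `1ⁿ0ⁿ`. -/
def acc (D : Code) (n : ℕ) : Prop := target n ∈ reachL D (2 * n) ((D.1 + 1) ^ (2 * n))

theorem primrecRel_applies : PrimrecRel fun (r : ℕ × List ℕ × List ℕ) (p : ℕ × List ℕ) =>
    r.1 = p.1 ∧ ∀ Z ∈ p.2, Z ∉ r.2.2 := by
  have h1 : PrimrecRel fun (W : List ℕ) (Z : ℕ) => ∃ a ∈ W, a = Z :=
    PrimrecRel.exists_mem_list Primrec.eq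
  have h2 : PrimrecRel fun (Z : ℕ) (W : List ℕ) => Z ∉ W := by
    refine (PrimrecRel.not h1.swap).of_eq ?_
    intro Z W
    simp [Function.swap]
  have h3 : PrimrecRel fun (u : List ℕ) (W : List ℕ) => ∀ Z ∈ u, Z ∉ W :=
    PrimrecRel.forall_mem_list h2
  have h4 : PrimrecRel fun (r : ℕ × List ℕ × List ℕ) (p : ℕ × List ℕ) => ∀ Z ∈ p.2, Z ∉ r.2.2 :=
    h3.comp₂ (Primrec.snd.comp Primrec.snd).to₂
      (Primrec.snd.comp (Primrec.snd.comp Primrec.fst)).to₂
  have h5 : PrimrecRel fun (r : ℕ × List ℕ × List ℕ) (p : ℕ × List ℕ) => r.1 = p.1 :=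
    PrimrecRel.comp₂ Primrec.eq (Primrec.fst.comp Primrec.fst).to₂
      (Primrec.fst.comp Primrec.snd).to₂
  exact PrimrecPred.and h5 h4

theorem primrec_applies : Primrec fun p : List (ℕ × List ℕ × List ℕ) × ℕ × List ℕ =>
    applies p.1 p.2.1 p.2.2 := by
  have h1 : Primrec₂ fun (R : List (ℕ × List ℕ × List ℕ)) (p : ℕ × List ℕ) =>
      R.filter fun r => decide (r.1 = p.1 ∧ ∀ Z ∈ p.2, Z ∉ r.2.2) :=
    PrimrecRel.listFilter primrecRel_applies
  exact Primrec.list_map (h1.comp Primrec.fst Primrec.snd)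
    ((Primrec.fst.comp (Primrec.snd.comp Primrec.snd)).to₂)

theorem primrec_succs : Primrec₂ succs := by
  have h1 : Primrec₂ fun (y : List ℕ) (S : List (List ℕ)) => S.map fun v => y ++ v :=
    Primrec.list_map Primrec.snd
      (Primrec.list_append.comp (Primrec.fst.comp Primrec.fst) Primrec.snd).to₂
  have h2 : Primrec fun p : (List (ℕ × List ℕ × List ℕ) × List ℕ) ×
      (ℕ × List ℕ × List (List ℕ)) => (applies p.1.1 p.2.1 p.2.2.1).flatMap
        fun y => p.2.2.2.map fun v => y ++ v := by
    refine Primrec.list_flatMap (primrec_applies.comp (Primrec.pair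
      (Primrec.fst.comp Primrec.fst) (Primrec.pair (Primrec.fst.comp Primrec.snd)
        (Primrec.fst.comp (Primrec.snd.comp Primrec.snd))))) ?_
    exact h1.comp₂ Primrec₂.right
      (Primrec.snd.comp (Primrec.snd.comp (Primrec.snd.comp Primrec.fst))).to₂
  have h3 : Primrec fun p : List (ℕ × List ℕ × List ℕ) × List ℕ =>
      (List.recOn p.2 [[]] fun b l IH => (applies p.1 b l).flatMap
        fun y => IH.map fun v => y ++ v : List (List ℕ)) :=
    Primrec.list_rec Primrec.snd (Primrec.const [[]]) h2.to₂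
  refine h3.of_eq ?_
  rintro ⟨R, u⟩
  induction u with
  | nil => rfl
  | cons X u ih =>
    simp only at ih ⊢
    show _ = (applies R X u).flatMap fun y => (succs R u).map fun v => y ++ v
    rw [← ih]

theorem primrec_reachL : Primrec fun p : Code × ℕ × ℕ => reachL p.1 p.2.1 p.2.2 := by
  have hf : PrimrecRel fun (v : List ℕ) (L : ℕ) => v.length ≤ L :=
    PrimrecRel.comp₂ Primrec.nat_le (Primrec.list_length.comp Primrec.fst).to₂ Primrec₂.right
  have hfilt : Primrec₂ fun (S : List (List ℕ)) (L : ℕ) =>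
      S.filter fun v => decide (v.length ≤ L) := PrimrecRel.listFilter hf
  have hflat : Primrec fun p : (Code × ℕ × ℕ) × List (List ℕ) =>
      p.2.flatMap (succs p.1.1.2.2) :=
    Primrec.list_flatMap Primrec.snd (primrec_succs.comp₂
      (Primrec.snd.comp (Primrec.snd.comp (Primrec.fst.comp (Primrec.fst.comp
        Primrec.fst)))).to₂ Primrec₂.right)
  have hstep : Primrec₂ fun (p : Code × ℕ × ℕ) (S : List (List ℕ)) =>
      S ++ (S.flatMap (succs p.1.2.2)).filter fun v => decide (v.length ≤ p.2.1) :=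
    (Primrec.list_append.comp Primrec.snd (hfilt.comp hflat
      (Primrec.fst.comp (Primrec.snd.comp Primrec.fst)))).to₂
  exact Primrec.nat_iterate (Primrec.snd.comp Primrec.snd)
    (Primrec.list_cons.comp (Primrec.fst.comp (Primrec.snd.comp Primrec.fst))
      (Primrec.const [])) hstep

theorem primrec_pow : Primrec₂ fun (a b : ℕ) => a ^ b :=
  Primrec₂.unpaired'.1 Nat.Primrec.pow

theorem primrec_target : Primrec target :=
  Primrec.list_append.comp (Primrec.list_map Primrec.list_range (Primrec₂.const 0))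
    (Primrec.list_map Primrec.list_range (Primrec₂.const 1))

theorem primrecRel_acc : PrimrecRel acc := by
  have h1 : PrimrecRel fun (W : List (List ℕ)) (Z : List ℕ) => ∃ a ∈ W, a = Z :=
    PrimrecRel.exists_mem_list Primrec.eq
  have h2 : Primrec fun p : Code × ℕ => reachL p.1 (2 * p.2) ((p.1.1 + 1) ^ (2 * p.2)) := by
    have h3 : Primrec fun p : Code × ℕ => 2 * p.2 :=
      Primrec.nat_mul.comp (Primrec.const 2) Primrec.snd
    exact primrec_reachL.comp (Primrec.pair Primrec.fst (Primrec.pair h3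
      (primrec_pow.comp (Primrec.succ.comp (Primrec.fst.comp Primrec.fst)) h3)))
  refine (h1.comp h2 (primrec_target.comp Primrec.snd)).of_eq ?_
  rintro ⟨D, n⟩
  simp [acc]

/-- The diagonal predicate. -/
def diag (n : ℕ) : Prop := ¬ acc ((Encodable.decode (α := Code) n.pred).getD (0, [], [])) n

theorem primrec_diag : PrimrecPred diag := by
  refine PrimrecPred.not (primrecRel_acc.comp ?_ Primrec.id)
  exact Primrec.option_getD.comp (Primrec.decode.comp Primrec.pred) (Primrec.const _)

end Pool.Agent.MP_4c145a_lc
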