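import Mathlib

/-!
# Left forbidding E0L grammars (definitions)

Symbols are taken from a type `α` (in the final theorem `α = ℕ`, so that grammars with different
alphabets can be compared). Alphabets are finite sets of symbols and words are lists of symbols.
-/

namespace Pool.Agent.MP_4c145a_lc

/-- A left forbidding E0L grammar `G = (V, T, P, w)` with symbols in `α`: `V` is a finite alphabet,
`T ⊆ V` the terminals, `P` a finite set of rules `(X → y, W)` with `X ∈ V`, `y ∈ V*` and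
`W ⊆ V \ T`, and `w ∈ V⁺` the axiom. -/
structure Grammar (α : Type) where
  /-- the total alphabet `V` -/
  V : Set α
  /-- the terminals `T` -/
  T : Set α
  /-- the rules `(X → y, W)` -/
  P : Set (α × List α × Set α)
  /-- the axiom -/
  w : List α
  V_finite : V.Finite
  T_subset : T ⊆ V
  P_finite : P.Finite
  P_mem : ∀ X y W, (X, y, W) ∈ P → X ∈ V ∧ (∀ Y ∈ y, Y ∈ V) ∧ W ⊆ V \ T
  w_ne : w ≠ []
  w_mem : ∀ Y ∈ w, Y ∈ V

variable {α : Type}

/-- One parallel step `u ⇒ v`: `u = X₁ ⋯ Xₖ` with `k ≥ 1`, `v = y₁ ⋯ yₖ`, and for every `i` some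
rule `(Xᵢ → yᵢ, Wᵢ)` of `G` has no symbol of `Wᵢ` among `X₁, …, Xᵢ₋₁`. -/
def Grammar.Step (G : Grammar α) (u v : List α) : Prop :=
  u ≠ [] ∧ ∃ ys : List (List α), ys.length = u.length ∧ v = ys.flatten ∧
    ∀ (i : ℕ) (hu : i < u.length) (hy : i < ys.length),
      ∃ W : Set α, (u[i], ys[i], W) ∈ G.P ∧ ∀ Z ∈ u.take i, Z ∉ W

/-- The generated language `L(G) = {x ∈ T* : w ⇒* x}`. -/
def Grammar.language (G : Grammar α) : Set (List α) :=
  {x | (∀ s ∈ x, s ∈ G.T) ∧ Relation.ReflTransGen G.Step G.w x}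

/-- `G` is an LF-EP0L grammar: no rule erases a symbol. -/
def Grammar.Propagating (G : Grammar α) : Prop :=
  ∀ X y W, (X, y, W) ∈ G.P → y ≠ []

end Pool.Agent.MP_4c145a_lc
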