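import Pool.Agent.Lib.MP_4c145a_lc.Ack

/-!
# Exact building blocks
-/

namespace Pool.Agent.MP_4c145a_lc

open Function

/-- `t` arises from `s` by taking `k` free units and adding them to register `o`. -/
def Adds (s t : ℕ → ℕ) (o k : ℕ) : Prop :=
  t o = s o + k ∧ t 0 + k = s 0 ∧ ∀ c, c ≠ o → c ≠ 0 → t c = s c

theorem xdec {c : ℕ} (hc : c ≠ 0) {s t : ℕ → ℕ} (h : xstep (.dec c) s t) :
    t c + 1 = s c ∧ t 0 = s 0 + 1 ∧ ∀ d, d ≠ c → d ≠ 0 → t d = s d := by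
  obtain ⟨h1, rfl⟩ := h
  refine ⟨?_, update_self _ _ _, fun d hd hd0 => ?_⟩
  · rw [update_of_ne hc, update_self]; omega
  · rw [update_of_ne hd0, update_of_ne hd]

theorem xinc {c : ℕ} (hc : c ≠ 0) {s t : ℕ → ℕ} (h : xstep (.inc c) s t) :
    t c = s c + 1 ∧ t 0 + 1 = s 0 ∧ ∀ d, d ≠ c → d ≠ 0 → t d = s d := by
  obtain ⟨h1, rfl⟩ := h
  refine ⟨update_self _ _ _, ?_, fun d hd hd0 => ?_⟩
  · rw [update_of_ne hc.symm, update_self]; omega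
  · rw [update_of_ne hd, update_of_ne hd0]

theorem xdec_exists {c : ℕ} {s : ℕ → ℕ} (h : 0 < s c) : ∃ t, xstep (.dec c) s t :=
  ⟨_, h, rfl⟩

theorem xinc_exists {c : ℕ} {s : ℕ → ℕ} (h : 0 < s 0) : ∃ t, xstep (.inc c) s t :=
  ⟨_, h, rfl⟩

theorem bdd_seq {p q : Prog} (hp : ∃ K, p.Bdd K) (hq : ∃ K, q.Bdd K) : ∃ K, (Prog.seq p q).Bdd K := by
  obtain ⟨K, hK⟩ := hp
  obtain ⟨K', hK'⟩ := hq
  exact ⟨max K K', hK.mono (le_max_left _ _), hK'.mono (le_max_right _ _)⟩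

theorem bdd_star {p : Prog} (hp : ∃ K, p.Bdd K) : ∃ K, (Prog.star p).Bdd K := hp

theorem bdd_inc {c : ℕ} (hc : c ≠ 0) : ∃ K, (Prog.atom (.inc c)).Bdd K :=
  ⟨c + 1, by omega, by omega⟩

theorem bdd_dec {c : ℕ} (hc : c ≠ 0) : ∃ K, (Prog.atom (.dec c)).Bdd K :=
  ⟨c + 1, by omega, by omega⟩

theorem bdd_zero {c : ℕ} (hc : c ≠ 0) : ∃ K, (Prog.atom (.zero c)).Bdd K :=
  ⟨c + 1, by omega, by omega⟩

theorem bdd_skip : ∃ K, (Prog.atom .skip).Bdd K := ⟨0, trivial⟩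

/-! ### Moving -/

theorem bdd_move {a b : ℕ} (ha : a ≠ 0) (hb : b ≠ 0) : ∃ K, (moveP a b).Bdd K :=
  bdd_seq (bdd_star (bdd_seq (bdd_dec ha) (bdd_inc hb))) (bdd_zero ha)

theorem silent_move (a b : ℕ) : (moveP a b).Silent := ⟨⟨trivial, trivial⟩, trivial⟩

theorem xmove_sound {a b : ℕ} (ha : a ≠ 0) (hb : b ≠ 0) (hab : a ≠ b) {s t : ℕ → ℕ}
    (h : (moveP a b).rel xstep s t) :
    t a = 0 ∧ t b = s b + s a ∧ t 0 = s 0 ∧ ∀ c, c ≠ a → c ≠ b → c ≠ 0 → t c = s c := by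
  obtain ⟨u, h1, h2⟩ := h
  have h2 : u a = 0 ∧ t = u := h2
  obtain ⟨h2, rfl⟩ := h2
  obtain ⟨k, hk1, hk2, hk3⟩ := star_inv (I := fun _ w => w b + w a = s b + s a ∧ w 0 = s 0 ∧
    ∀ c, c ≠ a → c ≠ b → c ≠ 0 → w c = s c) (s := s) ⟨rfl, rfl, fun _ _ _ _ => rfl⟩ (by
      rintro _ w v ⟨hw1, hw2, hw3⟩ ⟨w', h3, h4⟩
      obtain ⟨h5, h5', h6⟩ := xdec ha h3
      obtain ⟨h7, h7', h8⟩ := xinc hb h4
      have h9 := h6 b hab.symm hb
      have h10 := h8 a hab ha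
      refine ⟨by omega, by omega, fun c hca hcb hc0 => ?_⟩
      rw [h8 c hcb hc0, h6 c hca hc0, hw3 c hca hcb hc0]) h1
  exact ⟨h2, by omega, hk2, hk3⟩

theorem xmove_exists {a b : ℕ} (ha : a ≠ 0) (hb : b ≠ 0) (hab : a ≠ b) (s : ℕ → ℕ) :
    ∃ t, (moveP a b).rel xstep s t := by
  obtain ⟨t, h1, h2⟩ := star_exists (R := (Prog.seq (.atom (.dec a)) (.atom (.inc b))).rel
    xstep) (I := fun i w => w a + i = s a) (s := s) (s a) rfl (by
      rintro i w hi hw1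
      obtain ⟨v, h3⟩ := xdec_exists (c := a) (s := w) (by omega)
      obtain ⟨h4, h4', h5⟩ := xdec ha h3
      obtain ⟨v', h6⟩ := xinc_exists (c := b) (s := v) (by omega)
      obtain ⟨h7, h7', h8⟩ := xinc hb h6
      refine ⟨v', ⟨v, h3, h6⟩, ?_⟩
      have := h8 a hab ha
      omega)
  exact ⟨t, t, h1, by omega, rfl⟩

/-! ### Clearing -/

/-- Empty register `a`. -/
def clearP (a : ℕ) : Prog := .seq (.star (.atom (.dec a))) (.atom (.zero a))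

theorem bdd_clear {a : ℕ} (ha : a ≠ 0) : ∃ K, (clearP a).Bdd K :=
  bdd_seq (bdd_star (bdd_dec ha)) (bdd_zero ha)

theorem silent_clear (a : ℕ) : (clearP a).Silent := ⟨trivial, trivial⟩

theorem xclear_sound {a : ℕ} (ha : a ≠ 0) {s t : ℕ → ℕ} (h : (clearP a).rel xstep s t) :
    t a = 0 ∧ t 0 = s 0 + s a ∧ ∀ c, c ≠ a → c ≠ 0 → t c = s c := by
  obtain ⟨u, h1, h2⟩ := h
  have h2 : u a = 0 ∧ t = u := h2
  obtain ⟨h2, rfl⟩ := h2
  obtain ⟨k, hk1, hk2⟩ := star_inv (I := fun _ w => w 0 + w a = s 0 + s a ∧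
    ∀ c, c ≠ a → c ≠ 0 → w c = s c) (s := s) ⟨rfl, fun _ _ _ => rfl⟩ (by
      rintro _ w v ⟨hw1, hw2⟩ h3
      obtain ⟨h5, h5', h6⟩ := xdec ha h3
      refine ⟨by omega, fun c hca hc0 => ?_⟩
      rw [h6 c hca hc0, hw2 c hca hc0]) h1
  exact ⟨h2, by omega, hk2⟩

theorem xclear_exists {a : ℕ} (ha : a ≠ 0) (s : ℕ → ℕ) : ∃ t, (clearP a).rel xstep s t := by
  obtain ⟨t, h1, h2⟩ := star_exists (R := (Prog.atom (.dec a)).rel
    xstep) (I := fun i w => w a + i = s a) (s := s) (s a) rfl (by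
      rintro i w hi hw1
      obtain ⟨v, h3⟩ := xdec_exists (c := a) (s := w) (by omega)
      obtain ⟨h4, h4', h5⟩ := xdec ha h3
      exact ⟨v, h3, by omega⟩)
  exact ⟨t, t, h1, by omega, rfl⟩

/-! ### Copying -/

/-- Copy register `a` to `b`, with the help of the empty register `c`. -/
def copyP (a b c : ℕ) : Prog :=
  .seq (.seq (.star (.seq (.atom (.dec a)) (.seq (.atom (.inc c)) (.atom (.inc b)))))
    (.atom (.zero a))) (moveP c a)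

theorem bdd_copy {a b c : ℕ} (ha : a ≠ 0) (hb : b ≠ 0) (hc : c ≠ 0) : ∃ K, (copyP a b c).Bdd K :=
  bdd_seq (bdd_seq (bdd_star (bdd_seq (bdd_dec ha) (bdd_seq (bdd_inc hc) (bdd_inc hb))))
    (bdd_zero ha)) (bdd_move hc ha)

theorem silent_copy (a b c : ℕ) : (copyP a b c).Silent :=
  ⟨⟨⟨trivial, trivial, trivial⟩, trivial⟩, silent_move _ _⟩

theorem xcopy_sound {a b c : ℕ} (ha : a ≠ 0) (hb : b ≠ 0) (hc : c ≠ 0) (hab : a ≠ b)
    (hac : a ≠ c) (hbc : b ≠ c) {s t : ℕ → ℕ} (hs : s c = 0)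
    (h : (copyP a b c).rel xstep s t) : Adds s t b (s a) := by
  obtain ⟨w, ⟨u, h1, h2⟩, h3⟩ := h
  have h2 : u a = 0 ∧ w = u := h2
  obtain ⟨h2, rfl⟩ := h2
  obtain ⟨k, hk1, hk2, hk3, hk4⟩ := star_inv (I := fun _ w => w c + w a = s a ∧
    w b = s b + w c ∧ w 0 + w c = s 0 ∧
    ∀ d, d ≠ a → d ≠ b → d ≠ c → d ≠ 0 → w d = s d) (s := s)
    ⟨by omega, by omega, by omega, fun _ _ _ _ _ => rfl⟩ (by
      rintro _ w v ⟨hw1, hw2, hw3, hw4⟩ ⟨w', h3, w'', h4, h5⟩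
      obtain ⟨h6, h6', h7⟩ := xdec ha h3
      obtain ⟨h8, h8', h9⟩ := xinc hc h4
      obtain ⟨h10, h10', h11⟩ := xinc hb h5
      have e1 := h7 b hab.symm hb
      have e2 := h7 c hac.symm hc
      have e3 := h9 a hac ha
      have e4 := h9 b hbc hb
      have e5 := h11 a hab ha
      have e6 := h11 c hbc.symm hc
      refine ⟨by omega, by omega, by omega, fun d hda hdb hdc hd0 => ?_⟩
      rw [h11 d hdb hd0, h9 d hdc hd0, h7 d hda hd0, hw4 d hda hdb hdc hd0]) h1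
  obtain ⟨h4, h5, h6, h7⟩ := xmove_sound hc ha hac.symm h3
  have e1 := h7 b hbc hab.symm hb
  refine ⟨by omega, by omega, ?_⟩
  intro d hdb hd0
  by_cases hda : d = a
  · subst hda
    omega
  · by_cases hdc : d = c
    · subst hdc
      omega
    · rw [h7 d hdc hda hd0, hk4 d hda hdb hdc hd0]

theorem xcopy_exists {a b c : ℕ} (ha : a ≠ 0) (hb : b ≠ 0) (hc : c ≠ 0) (hab : a ≠ b)
    (hac : a ≠ c) {s : ℕ → ℕ} (hs : s a ≤ s 0) :
    ∃ t, (copyP a b c).rel xstep s t := by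
  obtain ⟨t, h1, h2, h3⟩ := star_exists (R := (Prog.seq (.atom (.dec a))
    (.seq (.atom (.inc c)) (.atom (.inc b)))).rel
    xstep) (I := fun i w => w a + i = s a ∧ w 0 + i = s 0) (s := s) (s a) ⟨rfl, rfl⟩ (by
      rintro i w hi ⟨hw1, hw2⟩
      obtain ⟨v, h3⟩ := xdec_exists (c := a) (s := w) (by omega)
      obtain ⟨h4, h4', h5⟩ := xdec ha h3
      obtain ⟨v', h6⟩ := xinc_exists (c := c) (s := v) (by omega)
      obtain ⟨h7, h7', h8⟩ := xinc hc h6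
      obtain ⟨v'', h9⟩ := xinc_exists (c := b) (s := v') (by omega)
      obtain ⟨h10, h10', h11⟩ := xinc hb h9
      refine ⟨v'', ⟨v, h3, v', h6, h9⟩, ?_, ?_⟩
      · have := h8 a hac ha
        have := h11 a hab ha
        omega
      · omega)
  obtain ⟨t', h4⟩ := xmove_exists hc ha hac.symm t
  exact ⟨t', t, ⟨t, h1, by omega, rfl⟩, h4⟩

end Pool.Agent.MP_4c145a_lc
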