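import Pool.Agent.Lib.MP_4c145a_lc.Codes

/-!
# The families LF-E0L and LF-EP0L are different
-/

namespace Pool.Agent.MP_4c145a_lc

/-- A numbering of the instructions. -/
def Instr.num : Instr → ℕ × ℕ
  | .skip => (0, 0)
  | .inc c => (1, c)
  | .dec c => (2, c)
  | .zero c => (3, c)
  | .emit b => (4, b.toNat)

theorem Instr.num_injective : Function.Injective Instr.num := by
  intro a b h
  cases a <;> cases b <;> simp [Instr.num] at h ⊢
  · exact h
  · exact h
  · exact h
  · rename_i b c
    cases b <;> cases c <;> simp at h ⊢

/-- A numbering of the symbols, given one of the states. -/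
def Sym.num {σ : Type} (e : σ → ℕ) : Sym σ → ℕ × (ℕ × ℕ) × ℕ
  | .term b => (0, (0, 0), b.toNat)
  | .L i q => (1, i.num, e q)
  | .last => (2, (0, 0), 0)
  | .X c => (3, (0, 0), c)
  | .F => (4, (0, 0), 0)
  | .R => (5, (0, 0), 0)

theorem Sym.num_injective {σ : Type} {e : σ → ℕ} (he : Function.Injective e) :
    Function.Injective (Sym.num e) := by
  intro a b h
  cases a <;> cases b <;> simp [Sym.num] at h ⊢
  · rename_i b c
    cases b <;> cases c <;> simp at h ⊢
  · exact ⟨Instr.num_injective h.1, he h.2⟩
  · exact h

theorem exists_numbering (σ : Type) (hσ : Finite σ) : ∃ g : Sym σ → ℕ,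
    Function.Injective g ∧ g (.term false) = 0 ∧ g (.term true) = 1 := by
  obtain ⟨e, he⟩ : ∃ e : σ → ℕ, Function.Injective e := Countable.exists_injective_nat σ
  obtain ⟨d, hd⟩ : ∃ d : ℕ × (ℕ × ℕ) × ℕ → ℕ, Function.Injective d :=
    Countable.exists_injective_nat _
  let g : Sym σ → ℕ := fun s => match s with
    | .term b => b.toNat
    | s => d (Sym.num e s) + 2
  refine ⟨g, ?_, rfl, rfl⟩
  intro a b h
  have hb : ∀ b : Bool, b.toNat < 2 := by intro b; cases b <;> simp
  have key : ∀ a b : Sym σ, d (Sym.num e a) + 2 = d (Sym.num e b) + 2 → a = b :=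
    fun a b h => Sym.num_injective he (hd (by omega))
  cases a with
  | term x =>
    cases b with
    | term y =>
      have h : x.toNat = y.toNat := h
      cases x <;> cases y <;> simp at h ⊢
    | _ => exact absurd (show x.toNat = _ + 2 from h) (by have := hb x; omega)
  | L i q =>
    cases b with
    | term y => exact absurd (show _ + 2 = y.toNat from h) (by have := hb y; omega)
    | _ => exact key _ _ h
  | last =>
    cases b with
    | term y => exact absurd (show _ + 2 = y.toNat from h) (by have := hb y; omega)
    | _ => exact key _ _ h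
  | X c =>
    cases b with
    | term y => exact absurd (show _ + 2 = y.toNat from h) (by have := hb y; omega)
    | _ => exact key _ _ h
  | F =>
    cases b with
    | term y => exact absurd (show _ + 2 = y.toNat from h) (by have := hb y; omega)
    | _ => exact key _ _ h
  | R =>
    cases b with
    | term y => exact absurd (show _ + 2 = y.toNat from h) (by have := hb y; omega)
    | _ => exact key _ _ h

/-- Every primitive recursive predicate is coded by the words `1ⁿ0ⁿ` of an LF-E0L language. -/
theorem exists_grammar (P : ℕ → Prop) (hP : PrimrecPred P) : ∃ G : Grammar ℕ, ∀ n,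
    (List.replicate n 1 ++ List.replicate n 0 : List ℕ) ∈ G.language ↔ P n := by
  classical
  have hf : Primrec fun n => if P n then 0 else 1 :=
    Primrec.ite hP (Primrec.const 0) (Primrec.const 1)
  obtain ⟨p, hp⟩ := exists_prog _ hf
  obtain ⟨g, hg, h0, h1⟩ := exists_numbering p.machine.σ p.machine.σ_finite
  refine ⟨(gram p.machine).map g hg, fun n => ?_⟩
  have hw : (List.replicate n 1 ++ List.replicate n 0 : List ℕ) =
      ((bword n).map Sym.term).map g := by
    simp [bword, h0, h1]
  rw [hw, mem_language_map_iff, mem_prog_language, hp n]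
  by_cases h : P n <;> simp [h]

theorem main : ∃ G : Grammar ℕ, ∀ G' : Grammar ℕ, G'.Propagating →
    G'.language ≠ G.language \ {[]} := by
  obtain ⟨G, hG⟩ := exists_grammar diag primrec_diag
  refine ⟨G, fun G' hP heq => ?_⟩
  have hmem : ∀ n, 0 < n → ((List.replicate n 1 ++ List.replicate n 0 : List ℕ) ∈ G'.language ↔
      diag n) := by
    intro n hn
    rw [heq, ← hG n]
    constructor
    · exact fun h => h.1
    · intro h
      refine ⟨h, fun h0 => ?_⟩
      have := congrArg List.length (Set.mem_singleton_iff.1 h0)
      simp at this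
      omega
  by_cases hT : 0 ∈ G'.T ∧ 1 ∈ G'.T
  · obtain ⟨D, hD⟩ := exists_code G' hP
    have h1 := hmem (Encodable.encode D + 1) (by omega)
    have h2 : diag (Encodable.encode D + 1) ↔ ¬ acc D (Encodable.encode D + 1) := by
      simp only [diag, Nat.pred_succ, Encodable.encodek, Option.getD_some]
    rw [h2, hD] at h1
    have h3 : ∀ n, (List.replicate n 1 ++ List.replicate n 0 : List ℕ) ∈ G'.language ↔
        Relation.ReflTransGen G'.Step G'.w (List.replicate n 1 ++ List.replicate n 0) := by
      intro n
      refine ⟨fun h => h.2, fun h => ⟨?_, h⟩⟩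
      intro s hs
      rcases List.mem_append.1 hs with hs | hs
      · rw [List.eq_of_mem_replicate hs]; exact hT.2
      · rw [List.eq_of_mem_replicate hs]; exact hT.1
    rw [h3] at h1
    exact (iff_not_self h1).elim
  · -- the code of a grammar that generates nothing relevant
    obtain ⟨D, hD⟩ : ∃ D : Code, D = (0, [5], []) := ⟨_, rfl⟩
    have h1 : ∀ L t, reachL D L t = [[5]] := by
      intro L t
      induction t with
      | zero => simp [reachL, hD]
      | succ t ih => rw [reachL_succ, ih, hD]; simp [succs, applies]
    have h2 : diag (Encodable.encode D + 1) := by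
      simp only [diag, Nat.pred_succ, Encodable.encodek, Option.getD_some]
      rw [acc, h1, List.mem_singleton, target_eq]
      intro h
      have : (5 : ℕ) ∈ List.replicate (Encodable.encode D + 1) 0 ++
          List.replicate (Encodable.encode D + 1) 1 := by rw [h]; simp
      rcases List.mem_append.1 this with h | h
      · exact absurd (List.eq_of_mem_replicate h) (by omega)
      · exact absurd (List.eq_of_mem_replicate h) (by omega)
    have h3 := ((hmem _ (by omega)).2 h2).1
    refine hT ⟨h3 0 ?_, h3 1 ?_⟩
    · exact List.mem_append_right _ (by simp)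
    · exact List.mem_append_left _ (by simp)

end Pool.Agent.MP_4c145a_lc
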