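import Pool.Agent.Lib.MP_4c145a_lc.Rewrite

/-!
# Counter machines with unreliable decrements are simulated by LF-E0L grammars
-/

namespace Pool.Agent.MP_4c145a_lc

/-- Instructions of the counter machines. -/
inductive Instr : Type
  | skip : Instr
  | inc (c : ℕ) : Instr
  | dec (c : ℕ) : Instr
  | zero (c : ℕ) : Instr
  | emit (b : Bool) : Instr

/-- A state: the register contents and the output produced so far. -/
abbrev St : Type := (ℕ → ℕ) × List Bool

/-- One instruction, where a decrement may fail silently. -/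
def gstep : Instr → St → St → Prop
  | .skip, s, t => t = s
  | .inc c, s, t => t = (Function.update s.1 c (s.1 c + 1), s.2)
  | .dec c, s, t => t = s ∨ (0 < s.1 c ∧ t = (Function.update s.1 c (s.1 c - 1), s.2))
  | .zero c, s, t => s.1 c = 0 ∧ t = s
  | .emit b, s, t => t = (s.1, s.2 ++ [b])

/-- A finite control over the instructions. -/
structure Machine where
  σ : Type
  σ_finite : Finite σ
  start : σ
  stop : σ
  tr : σ → Instr → σ → Prop
  I : Set Instr
  I_finite : I.Finite
  tr_mem : ∀ q i q', tr q i q' → i ∈ I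
  skip_mem : Instr.skip ∈ I

/-- One move of the machine. -/
def Machine.move (M : Machine) (a b : M.σ × St) : Prop :=
  ∃ i, M.tr a.1 i b.1 ∧ gstep i a.2 b.2

/-- The registers used by a machine. -/
def Machine.C (M : Machine) : Set ℕ :=
  {c | Instr.inc c ∈ M.I ∨ Instr.dec c ∈ M.I ∨ Instr.zero c ∈ M.I}

theorem Machine.C_finite (M : Machine) : M.C.Finite := by
  have h1 : {c | Instr.inc c ∈ M.I}.Finite :=
    Set.Finite.preimage (f := Instr.inc) (by intro a _ b _ h; simpa using h) M.I_finite
  have h2 : {c | Instr.dec c ∈ M.I}.Finite :=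
    Set.Finite.preimage (f := Instr.dec) (by intro a _ b _ h; simpa using h) M.I_finite
  have h3 : {c | Instr.zero c ∈ M.I}.Finite :=
    Set.Finite.preimage (f := Instr.zero) (by intro a _ b _ h; simpa using h) M.I_finite
  exact (h1.union (h2.union h3)).subset (by intro c hc; exact hc)

/-- The symbols of the simulating grammar. -/
inductive Sym (σ : Type) : Type
  | term (b : Bool) : Sym σ
  | L (i : Instr) (q : σ) : Sym σ
  | last : Sym σ
  | X (c : ℕ) : Sym σ
  | F : Sym σ
  | R : Sym σ

/-- Tokens: `some c` is a unit of register `c`, `none` is a unit selected for deletion. -/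
def tk {σ : Type} : Option ℕ → Sym σ
  | some c => Sym.X c
  | none => Sym.F

/-- Tokens created by an instruction. -/
def gen : Instr → List (Option ℕ)
  | .inc c => [some c]
  | _ => []

/-- The set of left controllers whose instruction satisfies `p`. -/
def Lset (M : Machine) (p : Instr → Prop) : Set (Sym M.σ) :=
  {Z | ∃ i q, i ∈ M.I ∧ p i ∧ Z = Sym.L i q}

/-- Zero tests and outputs have to be treated by the right controller. -/
def Special : Instr → Prop
  | .zero _ => True
  | .emit _ => True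
  | _ => False

/-- The rules of the simulating grammar. -/
inductive Rule (M : Machine) : Sym M.σ → List (Sym M.σ) → Set (Sym M.σ) → Prop
  | next {i : Instr} {q : M.σ} {i' : Instr} {q' : M.σ} : i ∈ M.I → M.tr q i' q' →
      Rule M (Sym.L i q) (Sym.L i' q' :: (gen i).map tk) ∅
  | halt {i : Instr} : i ∈ M.I → Rule M (Sym.L i M.stop) (Sym.last :: (gen i).map tk) ∅
  | last : Rule M Sym.last [] ∅
  | keep {c : ℕ} : c ∈ M.C → Rule M (Sym.X c) [Sym.X c] ∅
  | sel {c : ℕ} : c ∈ M.C → Rule M (Sym.X c) [Sym.F] (Lset M (fun i => i ≠ Instr.dec c) ∪ {Sym.last})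
  | del : Rule M Sym.F [] {Sym.F}
  | idle : Rule M Sym.R [Sym.R] (Lset M Special ∪ {Sym.last})
  | test {c : ℕ} : c ∈ M.C → Rule M Sym.R [Sym.R]
      (Lset M (fun i => i ≠ Instr.zero c) ∪ {Sym.last, Sym.X c})
  | out {b : Bool} : Rule M Sym.R [Sym.term b, Sym.R]
      (Lset M (fun i => i ≠ Instr.emit b) ∪ {Sym.last})
  | stop : Rule M Sym.R [] (Lset M (fun _ => True) ∪ Sym.X '' M.C)
  | term {b : Bool} : Rule M (Sym.term b) [Sym.term b] ∅

/-- The alphabet of the simulating grammar. -/
def alph (M : Machine) : Set (Sym M.σ) :=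
  Set.range Sym.term ∪ (Lset M (fun _ => True) ∪ (Sym.X '' M.C ∪ {Sym.last, Sym.F, Sym.R}))

theorem alph_finite (M : Machine) : (alph M).Finite := by
  have hσ := M.σ_finite
  have hL : (Lset M (fun _ => True)).Finite := by
    have : (M.I ×ˢ (Set.univ : Set M.σ)).Finite := M.I_finite.prod Set.finite_univ
    refine (this.image (fun x => Sym.L x.1 x.2)).subset ?_
    rintro Z ⟨i, q, hi, -, rfl⟩
    exact ⟨(i, q), ⟨hi, Set.mem_univ _⟩, rfl⟩
  exact (Set.finite_range _).union (hL.union ((M.C_finite.image _).union (by simp)))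

theorem gen_mem (M : Machine) {i : Instr} (hi : i ∈ M.I) {c : ℕ} (h : some c ∈ gen i) :
    c ∈ M.C := by
  cases i <;> simp [gen] at h
  subst h
  exact Or.inl hi

theorem Lset_subset (M : Machine) (p : Instr → Prop) :
    Lset M p ⊆ alph M \ Set.range Sym.term := by
  rintro Z ⟨i, q, hi, hp, rfl⟩
  refine ⟨Or.inr (Or.inl ⟨i, q, hi, trivial, rfl⟩), ?_⟩
  rintro ⟨b, hb⟩
  cases hb

theorem rule_mem (M : Machine) (X : Sym M.σ) (y : List (Sym M.σ)) (W : Set (Sym M.σ))
    (h : Rule M X y W) : X ∈ alph M ∧ (∀ Y ∈ y, Y ∈ alph M) ∧ W ⊆ alph M \ Set.range Sym.term := by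
  have hgen : ∀ i ∈ M.I, ∀ Y ∈ (gen i).map (tk (σ := M.σ)), Y ∈ alph M := by
    intro i hi Y hY
    obtain ⟨o, ho, rfl⟩ := List.mem_map.1 hY
    cases o with
    | none => exact Or.inr (Or.inr (Or.inr (by simp [tk])))
    | some c => exact Or.inr (Or.inr (Or.inl ⟨c, gen_mem M hi ho, rfl⟩))
  have hlast : (Sym.last : Sym M.σ) ∈ alph M \ Set.range Sym.term := by
    refine ⟨Or.inr (Or.inr (Or.inr (by simp))), ?_⟩
    rintro ⟨b, hb⟩
    cases hb
  have hF : (Sym.F : Sym M.σ) ∈ alph M \ Set.range Sym.term := by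
    refine ⟨Or.inr (Or.inr (Or.inr (by simp))), ?_⟩
    rintro ⟨b, hb⟩
    cases hb
  have hX : ∀ c ∈ M.C, (Sym.X c : Sym M.σ) ∈ alph M \ Set.range Sym.term := by
    intro c hc
    refine ⟨Or.inr (Or.inr (Or.inl ⟨c, hc, rfl⟩)), ?_⟩
    rintro ⟨b, hb⟩
    cases hb
  have hR : (Sym.R : Sym M.σ) ∈ alph M := Or.inr (Or.inr (Or.inr (by simp)))
  cases h with
  | @next i q i' q' hi htr =>
    refine ⟨Or.inr (Or.inl ⟨i, q, hi, trivial, rfl⟩), ?_, by simp⟩
    intro Y hY
    rcases List.mem_cons.1 hY with rfl | hY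
    · exact Or.inr (Or.inl ⟨i', q', M.tr_mem _ _ _ htr, trivial, rfl⟩)
    · exact hgen i hi Y hY
  | @halt i hi =>
    refine ⟨Or.inr (Or.inl ⟨i, M.stop, hi, trivial, rfl⟩), ?_, by simp⟩
    intro Y hY
    rcases List.mem_cons.1 hY with rfl | hY
    · exact hlast.1
    · exact hgen i hi Y hY
  | last => exact ⟨hlast.1, by simp, by simp⟩
  | keep hc => exact ⟨(hX _ hc).1, by simpa using (hX _ hc).1, by simp⟩
  | sel hc =>
    refine ⟨(hX _ hc).1, by simpa using hF.1, Set.union_subset (Lset_subset _ _) ?_⟩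
    rw [Set.singleton_subset_iff]
    exact hlast
  | del => exact ⟨hF.1, by simp, by rw [Set.singleton_subset_iff]; exact hF⟩
  | idle =>
    refine ⟨hR, by simpa using hR, Set.union_subset (Lset_subset _ _) ?_⟩
    rw [Set.singleton_subset_iff]
    exact hlast
  | test hc =>
    refine ⟨hR, by simpa using hR, Set.union_subset (Lset_subset _ _) ?_⟩
    rw [Set.insert_subset_iff, Set.singleton_subset_iff]
    exact ⟨hlast, hX _ hc⟩
  | @out b =>
    refine ⟨hR, ?_, Set.union_subset (Lset_subset _ _) ?_⟩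
    · intro Y hY
      simp only [List.mem_cons, List.not_mem_nil, or_false] at hY
      rcases hY with rfl | rfl
      · exact Or.inl ⟨b, rfl⟩
      · exact hR
    · rw [Set.singleton_subset_iff]
      exact hlast
  | stop =>
    refine ⟨hR, by simp, Set.union_subset (Lset_subset _ _) ?_⟩
    rintro _ ⟨c, hc, rfl⟩
    exact hX _ hc
  | @term b => exact ⟨Or.inl ⟨b, rfl⟩, by intro Y hY; rw [List.mem_singleton] at hY; exact Or.inl ⟨b, hY.symm⟩, by simp⟩

theorem rule_length (M : Machine) (X : Sym M.σ) (y : List (Sym M.σ)) (W : Set (Sym M.σ))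
    (h : Rule M X y W) : y.length ≤ 2 := by
  have hg : ∀ i, (gen i).length ≤ 1 := by intro i; cases i <;> simp [gen]
  cases h with
  | @next i q i' q' hi htr => have := hg i; simpa using this
  | @halt i hi => have := hg i; simpa using this
  | _ => simp

theorem lists_finite {α : Type} {V : Set α} (hV : V.Finite) (n : ℕ) :
    {l : List α | l.length ≤ n ∧ ∀ x ∈ l, x ∈ V}.Finite := by
  have : Finite V := hV
  refine ((List.finite_length_le V n).image (List.map Subtype.val)).subset ?_
  rintro l ⟨h1, h2⟩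
  refine ⟨l.pmap Subtype.mk h2, by simpa using h1, ?_⟩
  simp [List.map_pmap]

/-- The simulating grammar. -/
def gram (M : Machine) : Grammar (Sym M.σ) where
  V := alph M
  T := Set.range Sym.term
  P := {r | Rule M r.1 r.2.1 r.2.2}
  w := [Sym.L Instr.skip M.start, Sym.R]
  V_finite := alph_finite M
  T_subset := Set.subset_union_left
  P_finite := by
    refine ((alph_finite M).prod ((lists_finite (alph_finite M) 2).prod
      (alph_finite M).finite_subsets)).subset ?_
    rintro ⟨X, y, W⟩ h
    obtain ⟨h1, h2, h3⟩ := rule_mem M X y W h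
    exact ⟨h1, ⟨rule_length M X y W h, h2⟩, fun Z hZ => (h3 hZ).1⟩
  P_mem := fun X y W h => rule_mem M X y W h
  w_ne := by simp
  w_mem := by
    intro Y hY
    simp only [List.mem_cons, List.not_mem_nil, or_false] at hY
    rcases hY with rfl | rfl
    · exact Or.inr (Or.inl ⟨Instr.skip, M.start, M.skip_mem, trivial, rfl⟩)
    · exact Or.inr (Or.inr (Or.inr (by simp)))

/-- The sentential form with pending instruction `i`, next state `q`, tokens `ts`, output `o`. -/
def cfg (M : Machine) (i : Instr) (q : M.σ) (ts : List (Option ℕ)) (o : List Bool) :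
    List (Sym M.σ) :=
  Sym.L i q :: (ts.map tk ++ (o.map Sym.term ++ [Sym.R]))

/-- The final sentential form. -/
def fcfg (M : Machine) (ts : List (Option ℕ)) (o : List Bool) : List (Sym M.σ) :=
  Sym.last :: (ts.map tk ++ (o.map Sym.term ++ [Sym.R]))

/-- The register contents given by a list of tokens. -/
def cnt (ts : List (Option ℕ)) (c : ℕ) : ℕ := ts.count (some c)

end Pool.Agent.MP_4c145a_lc
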