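import Pool.Agent.Lib.MP_4c145a_lc.Compile2

/-!
# Every primitive recursive predicate is decided by an LF-E0L language on the words `1ⁿ0ⁿ`
-/

namespace Pool.Agent.MP_4c145a_lc

open Function List.Vector

/-- Test that the registers `2, …, k + 1` are empty. -/
def testsP : ℕ → Prog
  | 0 => .atom .skip
  | k + 1 => .seq (testsP k) (.atom (.zero (k + 2)))

theorem silent_tests (k : ℕ) : (testsP k).Silent := by
  induction k with
  | zero => trivial
  | succ k ih => exact ⟨ih, trivial⟩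

theorem tests_iff (k : ℕ) : ∀ s t, (testsP k).rel rstep s t ↔
    t = s ∧ ∀ c, 2 ≤ c → c < k + 2 → s c = 0 := by
  induction k with
  | zero =>
    intro s t
    constructor
    · intro h
      exact ⟨h, fun c h1 h2 => by omega⟩
    · rintro ⟨h, -⟩
      exact h
  | succ k ih =>
    intro s t
    constructor
    · rintro ⟨u, h1, h2⟩
      obtain ⟨rfl, h3⟩ := (ih s u).1 h1
      have h2 : u (k + 2) = 0 ∧ t = u := h2
      refine ⟨h2.2, fun c h4 h5 => ?_⟩
      by_cases hc : c = k + 2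
      · subst hc; exact h2.1
      · exact h3 c h4 (by omega)
    · rintro ⟨rfl, h⟩
      exact ⟨t, (ih t t).2 ⟨rfl, fun c h1 h2 => h c h1 (by omega)⟩,
        h (k + 2) (by omega) (by omega), rfl⟩

/-- The loop producing `n` letters `true` and storing `n` in the registers `0` and `1`. -/
def initP : Prog :=
  .star (.seq (.atom (.emit true)) (.seq (.atom (.inc 0)) (.atom (.inc 1))))

/-- The loop producing a letter `false` for each unit of the registers `0` and `1`. -/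
def finP : Prog :=
  .star (.seq (.atom (.dec 0)) (.seq (.atom (.dec 1)) (.atom (.emit false))))

theorem gdec {c : ℕ} {s t : St} (h : gstep (.dec c) s t) :
    (t.1 c = s.1 c ∨ t.1 c + 1 = s.1 c) ∧ (∀ d, d ≠ c → t.1 d = s.1 d) ∧ t.2 = s.2 := by
  rcases h with rfl | ⟨h1, rfl⟩
  · exact ⟨Or.inl rfl, fun _ _ => rfl, rfl⟩
  · refine ⟨Or.inr ?_, fun d hd => update_of_ne hd _ _, rfl⟩
    show update s.1 c (s.1 c - 1) c + 1 = s.1 c
    rw [update_self]; omega

theorem ginc {c : ℕ} {s t : St} (h : gstep (.inc c) s t) :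
    t.1 c = s.1 c + 1 ∧ (∀ d, d ≠ c → t.1 d = s.1 d) ∧ t.2 = s.2 := by
  have h : t = _ := h
  subst h
  exact ⟨update_self _ _ _, fun d hd => update_of_ne hd _ _, rfl⟩

theorem init_sound {t : St} (h : initP.rel gstep ((fun _ => 0), []) t) :
    ∃ n, t.1 0 = n ∧ t.1 1 = n ∧ (∀ c, c ≠ 0 → c ≠ 1 → t.1 c = 0) ∧
      t.2 = List.replicate n true := by
  refine star_inv (I := fun n (t : St) => t.1 0 = n ∧ t.1 1 = n ∧ (∀ c, c ≠ 0 → c ≠ 1 → t.1 c = 0) ∧
      t.2 = List.replicate n true) ⟨rfl, rfl, fun _ _ _ => rfl, rfl⟩ ?_ h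
  rintro i u v ⟨h1, h2, h3, h4⟩ ⟨w, h5, w', h6, h7⟩
  have h5 : w = (u.1, u.2 ++ [true]) := h5
  subst h5
  obtain ⟨a1, a2, a3⟩ := ginc h6
  obtain ⟨b1, b2, b3⟩ := ginc h7
  simp only at a1 a2 a3
  refine ⟨?_, ?_, ?_, ?_⟩
  · rw [b2 0 (by omega), a1, h1]
  · rw [b1, a2 1 (by omega), h2]
  · intro c hc0 hc1
    rw [b2 c hc1, a2 c hc0, h3 c hc0 hc1]
  · rw [b3, a3, h4, List.replicate_succ']

theorem init_exists (n : ℕ) : ∃ t : St, initP.rel gstep ((fun _ => 0), []) t ∧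
    t.1 0 = n ∧ t.1 1 = n ∧ (∀ c, c ≠ 0 → c ≠ 1 → t.1 c = 0) ∧
      t.2 = List.replicate n true := by
  refine star_exists (I := fun n (t : St) => t.1 0 = n ∧ t.1 1 = n ∧
      (∀ c, c ≠ 0 → c ≠ 1 → t.1 c = 0) ∧
      t.2 = List.replicate n true) n ⟨rfl, rfl, fun _ _ _ => rfl, rfl⟩ ?_
  rintro i u hi ⟨h1, h2, h3, h4⟩
  have h6 : gstep (.inc 0) (u.1, u.2 ++ [true]) (update u.1 0 (u.1 0 + 1), u.2 ++ [true]) := rfl
  have h7 : gstep (.inc 1) (update u.1 0 (u.1 0 + 1), u.2 ++ [true])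
    (update (update u.1 0 (u.1 0 + 1)) 1 (update u.1 0 (u.1 0 + 1) 1 + 1), u.2 ++ [true]) := rfl
  obtain ⟨a1, a2, a3⟩ := ginc h6
  obtain ⟨b1, b2, b3⟩ := ginc h7
  refine ⟨_, ⟨_, rfl, _, h6, h7⟩, ?_, ?_, ?_, ?_⟩
  · rw [b2 0 (by omega), a1, h1]
  · rw [b1, a2 1 (by omega), h2]
  · intro c hc0 hc1
    rw [b2 c hc1, a2 c hc0, h3 c hc0 hc1]
  · rw [b3, h4, List.replicate_succ']

theorem fin_sound {s t : St} (h : finP.rel gstep s t) :
    ∃ k, s.1 0 ≤ t.1 0 + k ∧ s.1 1 ≤ t.1 1 + k ∧ (∀ c, c ≠ 0 → c ≠ 1 → t.1 c = s.1 c) ∧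
      t.2 = s.2 ++ List.replicate k false := by
  refine star_inv (I := fun k (t : St) => s.1 0 ≤ t.1 0 + k ∧ s.1 1 ≤ t.1 1 + k ∧
      (∀ c, c ≠ 0 → c ≠ 1 → t.1 c = s.1 c) ∧
      t.2 = s.2 ++ List.replicate k false) ⟨le_rfl, le_rfl, fun _ _ _ => rfl, by simp⟩ ?_ h
  rintro i u v ⟨h1, h2, h3, h4⟩ ⟨w, h5, w', h6, h7⟩
  have h7 : v = (w'.1, w'.2 ++ [false]) := h7
  subst h7
  obtain ⟨a1, a2, a3⟩ := gdec h5
  obtain ⟨b1, b2, b3⟩ := gdec h6
  have e0 := b2 0 (by omega)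
  have e1 := a2 1 (by omega)
  refine ⟨?_, ?_, ?_, ?_⟩
  · show s.1 0 ≤ w'.1 0 + (i + 1)
    omega
  · show s.1 1 ≤ w'.1 1 + (i + 1)
    omega
  · intro c hc0 hc1
    show w'.1 c = s.1 c
    rw [b2 c hc1, a2 c hc0, h3 c hc0 hc1]
  · show w'.2 ++ [false] = _
    rw [b3, a3, h4, List.replicate_succ', List.append_assoc]

theorem fin_exists {s : St} {n : ℕ} (h0 : s.1 0 = n) (h1 : s.1 1 = n)
    (h2 : ∀ c, c ≠ 0 → c ≠ 1 → s.1 c = 0) :
    finP.rel gstep s ((fun _ => 0), s.2 ++ List.replicate n false) := by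
  obtain ⟨t, h3, h4, h5, h6, h7⟩ := star_exists
    (R := (Prog.seq (.atom (.dec 0)) (.seq (.atom (.dec 1)) (.atom (.emit false)))).rel gstep)
    (s := s) (I := fun i (t : St) => t.1 0 + i = n ∧ t.1 1 + i = n ∧
      (∀ c, c ≠ 0 → c ≠ 1 → t.1 c = 0) ∧
      t.2 = s.2 ++ List.replicate i false) n ⟨h0, h1, h2, by simp⟩ (by
    rintro i u hi ⟨h1, h2, h3, h4⟩
    have h6 : gstep (.dec 0) u (update u.1 0 (u.1 0 - 1), u.2) := Or.inr ⟨by omega, rfl⟩
    have h7 : gstep (.dec 1) (update u.1 0 (u.1 0 - 1), u.2)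
      (update (update u.1 0 (u.1 0 - 1)) 1 (update u.1 0 (u.1 0 - 1) 1 - 1), u.2) := by
      refine Or.inr ⟨?_, rfl⟩
      show 0 < update u.1 0 (u.1 0 - 1) 1
      rw [update_of_ne (by omega)]
      omega
    refine ⟨_, ⟨_, h6, _, h7, rfl⟩, ?_, ?_, ?_, ?_⟩
    · show update (update u.1 0 (u.1 0 - 1)) 1 (update u.1 0 (u.1 0 - 1) 1 - 1) 0 + (i + 1) = n
      rw [update_of_ne (by omega), update_self]
      omega
    · show update (update u.1 0 (u.1 0 - 1)) 1 (update u.1 0 (u.1 0 - 1) 1 - 1) 1 + (i + 1) = n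
      rw [update_self, update_of_ne (by omega)]
      omega
    · intro c hc0 hc1
      show update (update u.1 0 (u.1 0 - 1)) 1 (update u.1 0 (u.1 0 - 1) 1 - 1) c = 0
      rw [update_of_ne hc1, update_of_ne hc0, h3 c hc0 hc1]
    · show u.2 ++ [false] = _
      rw [h4, List.replicate_succ', List.append_assoc])
  have ht : t = ((fun _ => 0), s.2 ++ List.replicate n false) := by
    refine Prod.ext (funext fun c => ?_) h7
    show t.1 c = 0
    by_cases hc0 : c = 0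
    · subst hc0; omega
    · by_cases hc1 : c = 1
      · subst hc1; omega
      · exact h6 c hc0 hc1
  rw [← ht]
  exact h3

theorem tot_two {K : ℕ} {s : ℕ → ℕ} (h : ∀ c, c ≠ 0 → c ≠ 1 → s c = 0) :
    tot (K + 2) s = s 0 + s 1 := by
  unfold tot
  rw [Finset.sum_range_succ', Finset.sum_range_succ']
  have : ∑ k ∈ Finset.range K, s (k + 1 + 1) = 0 :=
    Finset.sum_eq_zero fun k _ => h _ (by omega) (by omega)
  rw [this]
  simp only [zero_add]
  omega

/-- The word `1ⁿ0ⁿ`, with letters `true` and `false`. -/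
def bword (n : ℕ) : List Bool := List.replicate n true ++ List.replicate n false

theorem bword_unique {n n' k : ℕ}
    (h : List.replicate n' true ++ List.replicate k false = bword n) : n' = n ∧ k = n := by
  have h1 := congrArg (List.count true) h
  have h2 := congrArg (List.count false) h
  simp [bword, List.count_replicate] at h1 h2
  exact ⟨h1, h2⟩

theorem exists_prog (f : ℕ → ℕ) (hf : Primrec f) :
    ∃ p : Prog, ∀ n, p.rel gstep ((fun _ => 0), []) ((fun _ => 0), bword n) ↔ f n = 0 := by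
  obtain ⟨S, hS, hgood⟩ := good_of_primrec' (Nat.Primrec'.prim_iff₁.2 hf)
  have hS' : Primrec fun n : ℕ => S (n ::ᵥ nil) :=
    hS.to_prim.comp (Primrec.vector_cons.comp Primrec.id (Primrec.const nil))
  obtain ⟨m, hm⟩ := exists_lt_ack_of_nat_primrec (Primrec.nat_iff.1 hS')
  obtain ⟨p, hp1, ⟨K, hp2⟩, hp3⟩ := hgood (fun _ => 1) (m + 2) (m + 3)
    (fun _ => ⟨by omega, by omega, by omega⟩) (by omega) (by omega)
  have hvec : ∀ s : ℕ → ℕ, (ofFn fun _ : Fin 1 => s 1) = s 1 ::ᵥ nil := fun s => rfl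
  -- the simulated computation
  let q : Prog := .seq p (.atom (.zero (m + 2)))
  have hqs : q.Silent := ⟨hp1, trivial⟩
  have hqb : q.Bdd (max K (m + 3) + 2) :=
    ⟨hp2.mono (by omega), ⟨by omega, by have := le_max_right K (m + 3); omega⟩⟩
  refine ⟨.seq initP (.seq (growP m 0) (.seq q.cons (.seq (testsP m) (.seq (shrinkP m 0)
    finP)))), fun n => ⟨?_, ?_⟩⟩
  · rintro ⟨s0, h0, s1, h1, s2, h2, s2', h2', s3, h3, h4⟩
    obtain ⟨n', a1, a2, a3, a4⟩ := init_sound h0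
    obtain ⟨h1, b0⟩ := silent_sound _ (silent_grow m 0) _ _ h1
    obtain ⟨b1, b2⟩ := grow_sound m 0 _ _ (by omega) (fun c hc _ => a3 c (by omega) (by omega)) h1
    obtain ⟨h2, c0⟩ := silent_sound _ (silent_cons _ hqs) _ _ h2
    obtain ⟨c1, c2⟩ := cons_sound (K := max K (m + 3) + 2) (by omega) q hqb _ _ h2
    obtain ⟨h2', d0⟩ := silent_sound _ (silent_tests m) _ _ h2'
    obtain ⟨d1, d2⟩ := (tests_iff m _ _).1 h2'
    obtain ⟨h3, e0⟩ := silent_sound _ (silent_shrink m 0) _ _ h3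
    rw [d1] at h3
    obtain ⟨e1, e2⟩ := shrink_sound m 0 _ _ (by omega) d2 h3
    obtain ⟨k, f0, f1, f2, f3⟩ := fin_sound h4
    simp only [zero_add] at f0 f1 f2 f3
    rw [e0, d0, c0, b0, a4] at f3
    obtain ⟨rfl, rfl⟩ := bword_unique f3.symm
    -- the state after growing
    have g1 : ∀ c, c ≠ 0 → c ≠ 1 → s1.1 c = 0 := fun c hc0 hc1 => by
      rw [b2 c hc0, a3 c hc0 hc1]
    have g2 : s1.1 1 = k := by rw [b2 1 (by omega), a2]
    have g3 : ∀ c, c ≠ 0 → c ≠ 1 → s2.1 c = 0 := fun c hc0 hc1 => by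
      rw [← e2 c hc0, ← f2 c hc0 hc1]
    have g4 : s2.1 1 ≤ k := by
      rw [e2 1 (by omega)] at f1
      exact f1
    have g5 : s2.1 0 ≤ ack m k := e1.trans (ack_mono_right m f0)
    have g6 : ack m k ≤ s1.1 0 := by
      rw [a1] at b1
      exact b1
    have g7 := tot_two (K := max K (m + 3)) g1
    have g8 := tot_two (K := max K (m + 3)) g3
    obtain ⟨u, hu1, hu2⟩ := c2 (by omega)
    have hu2 : u (m + 2) = 0 ∧ s2.1 = u := hu2
    obtain ⟨k1, -, -⟩ := (hp3 s1.1 (fun c hc => g1 c (by omega) (by omega))).1 u hu1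
    rw [hvec, g2, hu2.1] at k1
    simp only [head_cons] at k1
    omega
  · intro hfn
    obtain ⟨s0, h0, a1, a2, a3, a4⟩ := init_exists n
    obtain ⟨r1, h1, b1, b2⟩ := grow_exists m 0 s0.1 (by omega)
      (fun c hc _ => a3 c (by omega) (by omega))
    have g1 : ∀ c, c ≠ 0 → c ≠ 1 → r1 c = 0 := fun c hc0 hc1 => by
      rw [b2 c hc0, a3 c hc0 hc1]
    have g2 : r1 1 = n := by rw [b2 1 (by omega), a2]
    obtain ⟨k1, k2⟩ := hp3 r1 (fun c hc => g1 c (by omega) (by omega))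
    rw [hvec, g2] at k1 k2
    simp only [head_cons] at k1
    obtain ⟨u, hu⟩ := k2 (by rw [b1, a1]; exact (hm n).le)
    obtain ⟨c1, c2, c3⟩ := k1 u hu
    have hru : u = r1 := by
      funext c
      by_cases hc : c = m + 2
      · subst hc
        omega
      · by_cases hc0 : c = 0
        · subst hc0; omega
        · exact c3 c hc hc0
    subst hru
    have hq : q.cons.rel rstep u u := by
      refine cons_complete (K := max K (m + 3) + 2) q hqb u u ⟨u, hu, ?_, rfl⟩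
      exact g1 (m + 2) (by omega) (by omega)
    obtain ⟨r3, h3, e1, e2⟩ := shrink_exists m 0 u n (by omega)
      (fun c hc _ => g1 c (by omega) (by omega)) (by rw [b1, a1])
    have hfin := fin_exists (s := (r3, s0.2)) (n := n) e1 (by
      show r3 1 = n
      rw [e2 1 (by omega), g2]) (by
      intro c hc0 hc1
      show r3 c = 0
      rw [e2 c hc0, g1 c hc0 hc1])
    have hout : (r3, s0.2).2 ++ List.replicate n false = bword n := by
      show s0.2 ++ _ = _
      rw [a4]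
      rfl
    rw [hout] at hfin
    refine ⟨s0, h0, (u, s0.2), silent_complete _ (silent_grow m 0) _ _ _ h1, (u, s0.2),
      silent_complete _ (silent_cons _ hqs) _ _ _ hq, (u, s0.2),
      silent_complete _ (silent_tests m) _ _ _ ((tests_iff m u u).2
        ⟨rfl, fun c hc _ => g1 c (by omega) (by omega)⟩), (r3, s0.2),
      silent_complete _ (silent_shrink m 0) _ _ _ h3, hfin⟩

end Pool.Agent.MP_4c145a_lc
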