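import Pool.Agent.Lib.MP_4c145a_lc.SimLang

/-!
# Regular programs over the instructions and their machines
-/

namespace Pool.Agent.MP_4c145a_lc

/-- Regular programs. -/
inductive Prog : Type
  | atom (i : Instr) : Prog
  | seq (p q : Prog) : Prog
  | star (p : Prog) : Prog

/-- The input-output relation of a program for a given meaning of the instructions. -/
def Prog.rel {S : Type} (δ : Instr → S → S → Prop) : Prog → S → S → Prop
  | .atom i => δ i
  | .seq p q => fun s t => ∃ u, p.rel δ s u ∧ q.rel δ u t
  | .star p => Relation.ReflTransGen (p.rel δ)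

/-- Small steps on stacks of programs. -/
inductive Small : List Prog → Instr → List Prog → Prop
  | atom (i : Instr) (k : List Prog) : Small (.atom i :: k) i k
  | seq (p q : Prog) (k : List Prog) : Small (.seq p q :: k) .skip (p :: q :: k)
  | star0 (p : Prog) (k : List Prog) : Small (.star p :: k) .skip k
  | star1 (p : Prog) (k : List Prog) : Small (.star p :: k) .skip (p :: .star p :: k)

/-- The stacks that can occur while `p` is executed on top of `k`. -/
def pos : Prog → List Prog → Set (List Prog)
  | .atom i, k => {.atom i :: k}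
  | .seq p q, k => {.seq p q :: k} ∪ (pos p (q :: k) ∪ pos q k)
  | .star p, k => {.star p :: k} ∪ pos p (.star p :: k)

/-- The instructions of a program. -/
def Prog.instrs : Prog → Set Instr
  | .atom i => {i}
  | .seq p q => p.instrs ∪ q.instrs
  | .star p => p.instrs

theorem pos_finite (p : Prog) : ∀ k, (pos p k).Finite := by
  induction p with
  | atom i => intro k; exact Set.finite_singleton _
  | seq p q ihp ihq =>
    intro k
    exact (Set.finite_singleton _).union ((ihp _).union (ihq _))
  | star p ih =>
    intro k
    exact (Set.finite_singleton _).union (ih _)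

theorem instrs_finite (p : Prog) : p.instrs.Finite := by
  induction p with
  | atom i => exact Set.finite_singleton _
  | seq p q ihp ihq => exact ihp.union ihq
  | star p ih => exact ih

theorem self_mem_pos (p : Prog) (k : List Prog) : p :: k ∈ pos p k := by
  cases p with
  | atom i => exact rfl
  | seq p q => exact Or.inl rfl
  | star p => exact Or.inl rfl

theorem pos_closed (p : Prog) : ∀ k u i v, u ∈ pos p k → Small u i v →
    (v ∈ pos p k ∨ v = k) ∧ i ∈ insert Instr.skip p.instrs := by
  induction p with
  | atom j =>
    intro k u i v hu hs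
    have hu' : u = .atom j :: k := hu
    subst hu'
    cases hs
    exact ⟨Or.inr rfl, Or.inr rfl⟩
  | seq p q ihp ihq =>
    intro k u i v hu hs
    rcases hu with hu | hu | hu
    · have hu' : u = .seq p q :: k := hu
      subst hu'
      cases hs
      exact ⟨Or.inl (Or.inr (Or.inl (self_mem_pos _ _))), Or.inl rfl⟩
    · obtain ⟨h1, h2⟩ := ihp _ _ _ _ hu hs
      refine ⟨Or.inl ?_, ?_⟩
      · rcases h1 with h1 | rfl
        · exact Or.inr (Or.inl h1)
        · exact Or.inr (Or.inr (self_mem_pos _ _))
      · rcases h2 with h2 | h2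
        · exact Or.inl h2
        · exact Or.inr (Or.inl h2)
    · obtain ⟨h1, h2⟩ := ihq _ _ _ _ hu hs
      refine ⟨?_, ?_⟩
      · rcases h1 with h1 | rfl
        · exact Or.inl (Or.inr (Or.inr h1))
        · exact Or.inr rfl
      · rcases h2 with h2 | h2
        · exact Or.inl h2
        · exact Or.inr (Or.inr h2)
  | star p ih =>
    intro k u i v hu hs
    rcases hu with hu | hu
    · have hu' : u = .star p :: k := hu
      subst hu'
      cases hs with
      | star0 => exact ⟨Or.inr rfl, Or.inl rfl⟩
      | star1 => exact ⟨Or.inl (Or.inr (self_mem_pos _ _)), Or.inl rfl⟩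
    · obtain ⟨h1, h2⟩ := ih _ _ _ _ hu hs
      refine ⟨Or.inl ?_, h2⟩
      rcases h1 with h1 | rfl
      · exact Or.inr h1
      · exact Or.inl rfl

/-- The machine of a program. -/
def Prog.machine (p : Prog) : Machine where
  σ := {u : List Prog // u ∈ insert [] (pos p [])}
  σ_finite := ((pos_finite p []).insert []).to_subtype
  start := ⟨[p], Or.inr (self_mem_pos p [])⟩
  stop := ⟨[], Or.inl rfl⟩
  tr := fun u i v => Small u.1 i v.1
  I := insert Instr.skip p.instrs
  I_finite := (instrs_finite p).insert _
  tr_mem := by
    rintro ⟨u, hu⟩ i ⟨v, hv⟩ h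
    rcases hu with rfl | hu
    · cases h
    · exact (pos_closed p _ _ _ _ hu h).2
  skip_mem := Or.inl rfl

/-- The input-output relation of a stack of programs. -/
def relL (δ : Instr → St → St → Prop) : List Prog → St → St → Prop
  | [] => fun s t => s = t
  | p :: k => fun s t => ∃ u, p.rel δ s u ∧ relL δ k u t

theorem small_sound {u v : List Prog} {i : Instr} (h : Small u i v) {s s' t : St}
    (h1 : gstep i s s') (h2 : relL gstep v s' t) : relL gstep u s t := by
  cases h with
  | atom i k => exact ⟨s', h1, h2⟩
  | seq p q k =>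
    have h3 : s' = s := h1
    subst h3
    obtain ⟨u, hu, w, hw, hk⟩ := h2
    exact ⟨w, ⟨u, hu, hw⟩, hk⟩
  | star0 p k =>
    have h3 : s' = s := h1
    subst h3
    exact ⟨s', Relation.ReflTransGen.refl, h2⟩
  | star1 p k =>
    have h3 : s' = s := h1
    subst h3
    obtain ⟨u, hu, w, hw, hk⟩ := h2
    exact ⟨w, Relation.ReflTransGen.head hu hw, hk⟩

theorem machine_sound (p : Prog) {a b : p.machine.σ × St}
    (h : Relation.ReflTransGen p.machine.move a b) (hb : b.1 = p.machine.stop) :
    relL gstep a.1.1 a.2 b.2 := by
  induction h using Relation.ReflTransGen.head_induction_on with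
  | refl => rw [hb]; exact rfl
  | head hm _ ih =>
    obtain ⟨i, h1, h2⟩ := hm
    exact small_sound h1 h2 ih

/-- Moves on stacks, without the finiteness restriction. -/
def mv (a b : List Prog × St) : Prop := ∃ i, Small a.1 i b.1 ∧ gstep i a.2 b.2

theorem mv_complete (p : Prog) : ∀ k s t, p.rel gstep s t →
    Relation.ReflTransGen mv (p :: k, s) (k, t) := by
  induction p with
  | atom i =>
    intro k s t h
    exact Relation.ReflTransGen.single ⟨i, Small.atom i k, h⟩
  | seq p q ihp ihq =>
    rintro k s t ⟨u, h1, h2⟩
    refine Relation.ReflTransGen.head (b := (p :: q :: k, s)) ⟨_, Small.seq p q k, rfl⟩ ?_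
    exact (ihp _ _ _ h1).trans (ihq _ _ _ h2)
  | star p ih =>
    intro k s t h
    induction h using Relation.ReflTransGen.head_induction_on with
    | refl => exact Relation.ReflTransGen.single ⟨_, Small.star0 p k, rfl⟩
    | @head a c h1 _ ih2 =>
      refine Relation.ReflTransGen.head (b := (p :: .star p :: k, a)) ⟨_, Small.star1 p k, rfl⟩ ?_
      exact (ih _ _ _ h1).trans ih2

theorem mv_lift (p : Prog) {a b : List Prog × St} (h : Relation.ReflTransGen mv a b)
    (ha : a.1 ∈ insert [] (pos p [])) :
    ∃ hb : b.1 ∈ insert [] (pos p []),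
      Relation.ReflTransGen p.machine.move (⟨a.1, ha⟩, a.2) (⟨b.1, hb⟩, b.2) := by
  induction h with
  | refl => exact ⟨ha, .refl⟩
  | @tail b c _ hm ih =>
    obtain ⟨hb, ih⟩ := ih
    obtain ⟨i, h1, h2⟩ := hm
    have hc : c.1 ∈ insert [] (pos p []) := by
      rcases hb with hb | hb
      · rw [hb] at h1
        cases h1
      · rcases (pos_closed p _ _ _ _ hb h1).1 with h | h
        · exact Or.inr h
        · exact Or.inl h
    exact ⟨hc, ih.tail ⟨i, h1, h2⟩⟩

theorem machine_run_iff (p : Prog) (s t : St) :
    Relation.ReflTransGen p.machine.move (p.machine.start, s) (p.machine.stop, t) ↔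
      p.rel gstep s t := by
  constructor
  · intro h
    obtain ⟨u, h1, h2⟩ := machine_sound p h rfl
    have h3 : u = t := h2
    subst h3
    exact h1
  · intro h
    obtain ⟨_, h2⟩ := mv_lift p (mv_complete p [] s t h) (Or.inr (self_mem_pos p []))
    exact h2

/-- Every regular program gives an LF-E0L language. -/
theorem mem_prog_language (p : Prog) (o : List Bool) :
    o.map Sym.term ∈ (gram p.machine).language ↔
      p.rel gstep ((fun _ => 0), []) ((fun _ => 0), o) := by
  rw [mem_gram_language, ← machine_run_iff]
  constructor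
  · rintro ⟨o', h1, h2⟩
    have : o = o' := by
      refine List.map_injective_iff.2 ?_ h1
      intro a b hab
      simpa using hab
    subst this
    exact h2
  · intro h
    exact ⟨o, rfl, h⟩

end Pool.Agent.MP_4c145a_lc
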