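import Pool.Agent.Lib.MP_4c145a_lc.Defs

/-! # Parallel rewriting as an inductive relation -/

namespace Pool.Agent.MP_4c145a_lc

variable {α β : Type}

/-- Parallel rewriting of a word whose left context has the set of symbols `C`. -/
inductive Rw (P : Set (α × List α × Set α)) : Set α → List α → List α → Prop
  | nil (C : Set α) : Rw P C [] []
  | cons {C : Set α} {X : α} {y : List α} {W : Set α} {u v : List α} :
      (X, y, W) ∈ P → (∀ Z ∈ C, Z ∉ W) → Rw P (insert X C) u v → Rw P C (X :: u) (y ++ v)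

theorem Rw.exists_ys {P : Set (α × List α × Set α)} {C : Set α} {u v : List α}
    (h : Rw P C u v) : ∃ ys : List (List α), ys.length = u.length ∧ v = ys.flatten ∧
      ∀ (i : ℕ) (hu : i < u.length) (hy : i < ys.length),
        ∃ W : Set α, (u[i], ys[i], W) ∈ P ∧ (∀ Z ∈ C, Z ∉ W) ∧ ∀ Z ∈ u.take i, Z ∉ W := by
  induction h with
  | nil C => exact ⟨[], rfl, rfl, fun i hu => absurd hu (by simp)⟩
  | @cons C X y W u v hm hC _ ih =>
    obtain ⟨ys, hl, hv, hys⟩ := ih
    refine ⟨y :: ys, by simp [hl], by simp [hv], ?_⟩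
    intro i hu hy
    rcases i with _ | i
    · exact ⟨W, by simpa using hm, hC, by simp⟩
    · obtain ⟨W', h1, h2, h3⟩ := hys i (by simpa using hu) (by simpa using hy)
      refine ⟨W', by simpa using h1, fun Z hZ => h2 Z (Set.mem_insert_of_mem _ hZ), ?_⟩
      intro Z hZ
      rw [List.take_succ_cons] at hZ
      rcases List.mem_cons.1 hZ with rfl | hZ
      · exact h2 Z (Set.mem_insert _ _)
      · exact h3 Z hZ

theorem Rw.of_ys {P : Set (α × List α × Set α)} (u : List α) :
    ∀ (C : Set α) (ys : List (List α)), ys.length = u.length →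
      (∀ (i : ℕ) (hu : i < u.length) (hy : i < ys.length),
        ∃ W : Set α, (u[i], ys[i], W) ∈ P ∧ (∀ Z ∈ C, Z ∉ W) ∧ ∀ Z ∈ u.take i, Z ∉ W) →
      Rw P C u ys.flatten := by
  induction u with
  | nil =>
    intro C ys hl _
    have : ys = [] := by simpa using hl
    subst this
    exact Rw.nil C
  | cons X u ih =>
    intro C ys hl h
    rcases ys with _ | ⟨y, ys⟩
    · simp at hl
    · obtain ⟨W, h1, h2, _⟩ := h 0 (by simp) (by simp)
      rw [List.flatten_cons]
      refine Rw.cons (W := W) (by simpa using h1) h2 (ih _ ys (by simpa using hl) ?_)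
      intro i hu hy
      obtain ⟨W', h1', h2', h3'⟩ := h (i + 1) (by simpa using hu) (by simpa using hy)
      refine ⟨W', by simpa using h1', ?_, ?_⟩
      · intro Z hZ
        rcases Set.mem_insert_iff.1 hZ with rfl | hZ
        · exact h3' Z (by simp)
        · exact h2' Z hZ
      · intro Z hZ
        exact h3' Z (by rw [List.take_succ_cons]; exact List.mem_cons_of_mem _ hZ)

theorem step_iff (G : Grammar α) (u v : List α) : G.Step u v ↔ u ≠ [] ∧ Rw G.P ∅ u v := by
  constructor
  · rintro ⟨hu, ys, hl, rfl, h⟩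
    refine ⟨hu, Rw.of_ys u ∅ ys hl ?_⟩
    intro i h1 h2
    obtain ⟨W, h3, h4⟩ := h i h1 h2
    exact ⟨W, h3, by simp, h4⟩
  · rintro ⟨hu, h⟩
    obtain ⟨ys, hl, hv, hys⟩ := h.exists_ys
    refine ⟨hu, ys, hl, hv, ?_⟩
    intro i h1 h2
    obtain ⟨W, h3, _, h4⟩ := hys i h1 h2
    exact ⟨W, h3, h4⟩

theorem Rw.append_iff {P : Set (α × List α × Set α)} {C : Set α} {u1 u2 v : List α} :
    Rw P C (u1 ++ u2) v ↔
      ∃ v1 v2, v = v1 ++ v2 ∧ Rw P C u1 v1 ∧ Rw P ({Z | Z ∈ u1} ∪ C) u2 v2 := by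
  induction u1 generalizing C v with
  | nil =>
    constructor
    · intro h
      exact ⟨[], v, rfl, Rw.nil C, by simpa using h⟩
    · rintro ⟨v1, v2, rfl, h1, h2⟩
      cases h1
      simpa using h2
  | cons X u1 ih =>
    have hset : ({Z | Z ∈ X :: u1} ∪ C : Set α) = {Z | Z ∈ u1} ∪ insert X C := by
      ext Z
      simp only [List.mem_cons, Set.mem_union, Set.mem_ofPred_eq, Set.mem_insert_iff]
      tauto
    constructor
    · intro h
      rw [List.cons_append] at h
      cases h with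
      | @cons _ _ y W _ v' hm hC hr =>
        obtain ⟨v1, v2, rfl, h1, h2⟩ := ih.1 hr
        refine ⟨y ++ v1, v2, by simp, Rw.cons hm hC h1, ?_⟩
        rw [hset]
        exact h2
    · rintro ⟨v1, v2, rfl, h1, h2⟩
      cases h1 with
      | @cons _ _ y W _ v' hm hC hr =>
        rw [List.cons_append, List.append_assoc]
        refine Rw.cons hm hC (ih.2 ⟨v', v2, rfl, hr, ?_⟩)
        rw [hset] at h2
        exact h2

/-- Renaming the symbols of a grammar along an injection. -/
def Grammar.map (G : Grammar α) (f : α → β) (hf : Function.Injective f) : Grammar β where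
  V := f '' G.V
  T := f '' G.T
  P := (fun r : α × List α × Set α => (f r.1, r.2.1.map f, f '' r.2.2)) '' G.P
  w := G.w.map f
  V_finite := G.V_finite.image f
  T_subset := Set.image_mono G.T_subset
  P_finite := G.P_finite.image _
  P_mem := by
    rintro X y W ⟨⟨X', y', W'⟩, hr, heq⟩
    simp only [Prod.mk.injEq] at heq
    obtain ⟨rfl, rfl, rfl⟩ := heq
    obtain ⟨h1, h2, h3⟩ := G.P_mem _ _ _ hr
    refine ⟨⟨X', h1, rfl⟩, ?_, ?_⟩
    · intro Y hY
      obtain ⟨Y', hY', rfl⟩ := List.mem_map.1 hY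
      exact ⟨Y', h2 _ hY', rfl⟩
    · rintro _ ⟨Z, hZ, rfl⟩
      refine ⟨⟨Z, (h3 hZ).1, rfl⟩, ?_⟩
      rintro ⟨Z', hZ', he⟩
      exact (h3 hZ).2 (hf he ▸ hZ')
  w_ne := by simpa using G.w_ne
  w_mem := by
    intro Y hY
    obtain ⟨Y', hY', rfl⟩ := List.mem_map.1 hY
    exact ⟨Y', G.w_mem _ hY', rfl⟩

theorem Rw.map_iff (G : Grammar α) (f : α → β) (hf : Function.Injective f)
    {C : Set α} {u : List α} {v' : List β} :
    Rw (G.map f hf).P (f '' C) (u.map f) v' ↔ ∃ v, v' = v.map f ∧ Rw G.P C u v := by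
  induction u generalizing C v' with
  | nil =>
    constructor
    · intro h
      cases h
      exact ⟨[], rfl, Rw.nil C⟩
    · rintro ⟨v, rfl, h⟩
      cases h
      exact Rw.nil _
  | cons X u ih =>
    constructor
    · intro h
      rw [List.map_cons] at h
      cases h with
      | @cons _ _ y W _ v1 hm hC hr =>
        obtain ⟨⟨X', y', W'⟩, hr', heq⟩ := hm
        simp only [Prod.mk.injEq] at heq
        obtain ⟨h1, rfl, rfl⟩ := heq
        have h1' := hf h1
        subst h1'
        rw [← Set.image_insert_eq] at hr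
        obtain ⟨v2, rfl, h2⟩ := ih.1 hr
        refine ⟨y' ++ v2, by simp, Rw.cons hr' ?_ h2⟩
        intro Z hZ hZW
        exact hC (f Z) ⟨Z, hZ, rfl⟩ ⟨Z, hZW, rfl⟩
    · rintro ⟨v, rfl, h⟩
      cases h with
      | @cons _ _ y W _ v1 hm hC hr =>
        rw [List.map_cons, List.map_append]
        refine Rw.cons (W := f '' W) ⟨(X, y, W), hm, rfl⟩ ?_ ?_
        · rintro _ ⟨Z, hZ, rfl⟩ ⟨Z', hZ', he⟩
          exact hC Z hZ (hf he ▸ hZ')
        · rw [← Set.image_insert_eq]
          exact ih.2 ⟨v1, rfl, hr⟩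

theorem step_map_iff (G : Grammar α) (f : α → β) (hf : Function.Injective f)
    {u : List α} {v' : List β} :
    (G.map f hf).Step (u.map f) v' ↔ ∃ v, v' = v.map f ∧ G.Step u v := by
  rw [step_iff]
  constructor
  · rintro ⟨hne, h⟩
    have h' : Rw (G.map f hf).P (f '' ∅) (u.map f) v' := by simpa using h
    obtain ⟨v, hv, hr⟩ := (Rw.map_iff G f hf).1 h'
    exact ⟨v, hv, (step_iff _ _ _).2 ⟨by simpa using hne, hr⟩⟩
  · rintro ⟨v, hv, hr⟩
    obtain ⟨hne, hr⟩ := (step_iff _ _ _).1 hr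
    refine ⟨by simpa using hne, ?_⟩
    have := (Rw.map_iff G f hf).2 ⟨v, hv, hr⟩
    simpa using this

theorem reaches_map_iff (G : Grammar α) (f : α → β) (hf : Function.Injective f)
    {u : List α} {v' : List β} :
    Relation.ReflTransGen (G.map f hf).Step (u.map f) v' ↔
      ∃ v, v' = v.map f ∧ Relation.ReflTransGen G.Step u v := by
  constructor
  · intro h
    induction h with
    | refl => exact ⟨u, rfl, .refl⟩
    | tail _ hs ih =>
      obtain ⟨v, rfl, hv⟩ := ih
      obtain ⟨v2, rfl, h2⟩ := (step_map_iff G f hf).1 hs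
      exact ⟨v2, rfl, hv.tail h2⟩
  · rintro ⟨v, rfl, h⟩
    induction h with
    | refl => exact .refl
    | tail _ hs ih => exact ih.tail ((step_map_iff G f hf).2 ⟨_, rfl, hs⟩)

theorem mem_language_map_iff (G : Grammar α) (f : α → β) (hf : Function.Injective f)
    {x : List α} : x.map f ∈ (G.map f hf).language ↔ x ∈ G.language := by
  constructor
  · rintro ⟨h1, h2⟩
    obtain ⟨v, hv, h3⟩ := (reaches_map_iff G f hf).1 h2
    have hx : x = v := List.map_injective_iff.2 hf hv
    subst hx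
    refine ⟨?_, h3⟩
    intro s hs
    obtain ⟨s', hs', he⟩ := h1 (f s) (List.mem_map_of_mem hs)
    exact hf he ▸ hs'
  · rintro ⟨h1, h2⟩
    refine ⟨?_, (reaches_map_iff G f hf).2 ⟨x, rfl, h2⟩⟩
    intro s hs
    obtain ⟨s', hs', rfl⟩ := List.mem_map.1 hs
    exact ⟨s', h1 s' hs', rfl⟩

end Pool.Agent.MP_4c145a_lc
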