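import Pool.Agent.Lib.MP_4c145a_lc.Machine

/-!
# The language of the simulating grammar
-/

namespace Pool.Agent.MP_4c145a_lc

variable (M : Machine)

theorem gram_mem {X : Sym M.σ} {y : List (Sym M.σ)} {W : Set (Sym M.σ)} :
    (X, y, W) ∈ (gram M).P ↔ Rule M X y W := Iff.rfl

theorem tok_sound {i : Instr} {q : M.σ} (hi : i ∈ M.I)
    (ts : List (Option ℕ)) :
    ∀ (D : Set (Sym M.σ)) (v : List (Sym M.σ)), Sym.L i q ∈ D → Rw (gram M).P D (ts.map tk) v →
    ∃ ts', v = ts'.map tk ∧ ts.count none ≤ 1 ∧ (Sym.F ∈ D → ts.count none = 0) ∧
      (∀ c, some c ∈ ts → c ∈ M.C) ∧
      ∀ c, (i ≠ Instr.dec c → cnt ts' c = cnt ts c) ∧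
        (i = Instr.dec c → cnt ts' c + ts'.count none = cnt ts c) := by
  induction ts with
  | nil =>
    intro D v hD h
    cases h
    exact ⟨[], rfl, by simp, by simp, by simp, by simp [cnt]⟩
  | cons t ts ih =>
    intro D v hD h
    rw [List.map_cons] at h
    cases h with
    | @cons _ _ y W _ v1 hm hC hr =>
      obtain ⟨ts', rfl, h1, h2, h3, h4⟩ := ih _ v1 (Set.mem_insert_of_mem _ hD) hr
      cases t with
      | none =>
        rw [gram_mem] at hm
        simp only [tk] at hm hr
        cases hm
        have hF : Sym.F ∉ D := fun hF => hC _ hF (by simp)
        have h0 : ts.count none = 0 := h2 (by simp [tk])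
        refine ⟨ts', by simp, by simp [h0], fun h => absurd h hF, ?_, ?_⟩
        · intro c hc
          exact h3 c (by simpa using hc)
        · intro c
          obtain ⟨h5, h6⟩ := h4 c
          refine ⟨fun h => ?_, fun h => ?_⟩
          · rw [h5 h]; simp [cnt]
          · rw [h6 h]; simp [cnt]
      | some d =>
        rw [gram_mem] at hm
        simp only [tk] at hm hr
        have h2' : Sym.F ∈ D → ts.count none = 0 := fun h => h2 (Set.mem_insert_of_mem _ h)
        cases hm with
        | keep hc =>
          refine ⟨some d :: ts', by simp [tk], by simpa using h1, by simpa using h2', ?_, ?_⟩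
          · intro c hc'
            rcases List.mem_cons.1 hc' with h | h
            · cases h; exact hc
            · exact h3 c h
          · intro c
            obtain ⟨h5, h6⟩ := h4 c
            simp only [cnt, List.count_cons] at h5 h6 ⊢
            refine ⟨fun h => ?_, fun h => ?_⟩
            · rw [h5 h]
            · have := h6 h
              simp only [reduceCtorEq, beq_iff_eq, if_false]
              omega
        | sel hc =>
          have hid : i = Instr.dec d := by
            by_contra hne
            exact hC _ hD (Or.inl ⟨i, q, hi, hne, rfl⟩)
          refine ⟨none :: ts', by simp [tk], by simpa using h1, by simpa using h2', ?_, ?_⟩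
          · intro c hc'
            rcases List.mem_cons.1 hc' with h | h
            · cases h; exact hc
            · exact h3 c h
          · intro c
            obtain ⟨h5, h6⟩ := h4 c
            simp only [cnt, List.count_cons] at h5 h6 ⊢
            refine ⟨fun h => ?_, fun h => ?_⟩
            · have hne : d ≠ c := by
                rintro rfl
                exact h hid
              have h7 := h5 h
              simp [hne, h7]
            · have h7 := h6 h
              have hdc : d = c := by
                rw [hid] at h
                simpa using h
              subst hdc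
              simp
              omega

theorem tok_none (ts : List (Option ℕ)) :
    ∀ (D : Set (Sym M.σ)) (v : List (Sym M.σ)), Rw (gram M).P D (ts.map tk) v →
    ts.count none ≤ 1 ∧ (Sym.F ∈ D → ts.count none = 0) ∧ (∀ c, some c ∈ ts → c ∈ M.C) ∧
      ((∀ c, some c ∉ ts) → v = []) := by
  induction ts with
  | nil =>
    intro D v h
    cases h
    simp
  | cons t ts ih =>
    intro D v h
    rw [List.map_cons] at h
    cases h with
    | @cons _ _ y W _ v1 hm hC hr =>
      obtain ⟨h1, h2, h3, h4⟩ := ih _ v1 hr
      cases t with
      | none =>
        rw [gram_mem] at hm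
        simp only [tk] at hm hr
        cases hm
        have hF : Sym.F ∉ D := fun hF => hC _ hF (by simp)
        have h0 : ts.count none = 0 := h2 (by simp [tk])
        refine ⟨by simp [h0], fun h => absurd h hF, ?_, ?_⟩
        · intro c hc
          exact h3 c (by simpa using hc)
        · intro h
          rw [h4 (fun c hc => h c (List.mem_cons_of_mem _ hc))]
          rfl
      | some d =>
        have hd : d ∈ M.C := by
          rw [gram_mem] at hm
          simp only [tk] at hm
          cases hm with
          | keep hc => exact hc
          | sel hc => exact hc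
        refine ⟨by simpa using h1, ?_, ?_, ?_⟩
        · intro h
          simpa using h2 (Set.mem_insert_of_mem _ h)
        · intro c hc'
          rcases List.mem_cons.1 hc' with h | h
          · cases h; exact hd
          · exact h3 c h
        · intro h
          exact absurd (List.mem_cons_self) (h d)

theorem term_sound (o : List Bool) :
    ∀ (D : Set (Sym M.σ)) (v : List (Sym M.σ)), Rw (gram M).P D (o.map Sym.term) v →
      v = o.map Sym.term := by
  induction o with
  | nil =>
    intro D v h
    cases h
    rfl
  | cons b o ih =>
    intro D v h
    rw [List.map_cons] at h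
    cases h with
    | @cons _ _ y W _ v1 hm hC hr =>
      rw [gram_mem] at hm
      cases hm
      rw [ih _ _ hr]
      rfl

theorem term_complete (o : List Bool) :
    ∀ (D : Set (Sym M.σ)), Rw (gram M).P D (o.map Sym.term) (o.map Sym.term) := by
  induction o with
  | nil => intro D; exact Rw.nil D
  | cons b o ih =>
    intro D
    exact Rw.cons (y := [Sym.term b]) (W := ∅) Rule.term (by simp) (ih _)

theorem tok_keep (ts : List (Option ℕ)) :
    ∀ (D : Set (Sym M.σ)), (∀ c, some c ∈ ts → c ∈ M.C) → ts.count none ≤ 1 →
      (Sym.F ∈ D → ts.count none = 0) →
      ∃ ts', Rw (gram M).P D (ts.map tk) (ts'.map tk) ∧ ts'.count none = 0 ∧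
        ∀ c, cnt ts' c = cnt ts c := by
  induction ts with
  | nil => intro D _ _ _; exact ⟨[], Rw.nil D, rfl, fun c => rfl⟩
  | cons t ts ih =>
    intro D h1 h2 h3
    cases t with
    | none =>
      have h0 : ts.count none = 0 := by simpa using h2
      obtain ⟨ts', h4, h5, h6⟩ := ih (insert (tk none) D) (fun c hc => h1 c (by simp [hc]))
        (by omega) (fun _ => h0)
      refine ⟨ts', ?_, h5, ?_⟩
      · rw [List.map_cons]
        refine Rw.cons (y := []) (W := {Sym.F}) Rule.del ?_ h4
        intro Z hZ hF
        rw [Set.mem_singleton_iff] at hF
        subst hF
        have := h3 hZ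
        simp at this
      · intro c
        rw [h6 c]
        simp [cnt]
    | some d =>
      obtain ⟨ts', h4, h5, h6⟩ := ih (insert (tk (some d)) D) (fun c hc => h1 c (by simp [hc]))
        (by simpa using h2) (by
          intro h
          rcases Set.mem_insert_iff.1 h with h | h
          · simp [tk] at h
          · simpa using h3 h)
      refine ⟨some d :: ts', ?_, by simpa using h5, ?_⟩
      · rw [List.map_cons, List.map_cons]
        exact Rw.cons (y := [Sym.X d]) (W := ∅) (Rule.keep (h1 d (by simp))) (by simp) h4
      · intro c
        have := h6 c
        simp only [cnt, List.count_cons] at this ⊢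
        rw [this]

theorem tok_dec (c : ℕ) (ts : List (Option ℕ)) :
    ∀ (D : Set (Sym M.σ)), (∀ c, some c ∈ ts → c ∈ M.C) → ts.count none ≤ 1 →
      (Sym.F ∈ D → ts.count none = 0) →
      (∀ Z ∈ D, Z ∉ Lset M (fun i => i ≠ Instr.dec c) ∪ {Sym.last}) → 0 < cnt ts c →
      ∃ ts', Rw (gram M).P D (ts.map tk) (ts'.map tk) ∧ ts'.count none = 1 ∧
        ∀ d, cnt ts' d = if d = c then cnt ts c - 1 else cnt ts d := by
  induction ts with
  | nil => intro D _ _ _ _ h; simp [cnt] at h
  | cons t ts ih =>
    intro D h1 h2 h3 hD hpos
    cases t with
    | none =>
      have h0 : ts.count none = 0 := by simpa using h2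
      obtain ⟨ts', h4, h5, h6⟩ := ih (insert (tk none) D) (fun c hc => h1 c (by simp [hc]))
        (by omega) (fun _ => h0) (by
          intro Z hZ
          rcases Set.mem_insert_iff.1 hZ with rfl | hZ
          · rintro (⟨i, q, -, -, h⟩ | h)
            · simp [tk] at h
            · simp [tk] at h
          · exact hD Z hZ) (by simpa [cnt] using hpos)
      refine ⟨ts', ?_, h5, ?_⟩
      · rw [List.map_cons]
        refine Rw.cons (y := []) (W := {Sym.F}) Rule.del ?_ h4
        intro Z hZ hF
        rw [Set.mem_singleton_iff] at hF
        subst hF
        have := h3 hZ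
        simp at this
      · intro d
        rw [h6 d]
        simp [cnt]
    | some e =>
      by_cases hec : e = c
      · subst hec
        obtain ⟨ts', h4, h5, h6⟩ := tok_keep M ts (insert (tk (some e)) D)
          (fun c hc => h1 c (by simp [hc])) (by simpa using h2) (by
            intro h
            rcases Set.mem_insert_iff.1 h with h | h
            · simp [tk] at h
            · simpa using h3 h)
        refine ⟨none :: ts', ?_, by simp [h5], ?_⟩
        · rw [List.map_cons, List.map_cons]
          exact Rw.cons (y := [Sym.F]) (W := Lset M (fun i => i ≠ Instr.dec e) ∪ {Sym.last})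
            (Rule.sel (h1 e (by simp))) hD h4
        · intro d
          have := h6 d
          simp only [cnt, List.count_cons] at this ⊢
          by_cases hde : d = e
          · subst hde
            simp [this]
          · have hed : e ≠ d := fun h => hde h.symm
            simp [this, hde, hed]
      · obtain ⟨ts', h4, h5, h6⟩ := ih (insert (tk (some e)) D) (fun c hc => h1 c (by simp [hc]))
          (by simpa using h2) (by
            intro h
            rcases Set.mem_insert_iff.1 h with h | h
            · simp [tk] at h
            · simpa using h3 h) (by
            intro Z hZ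
            rcases Set.mem_insert_iff.1 hZ with rfl | hZ
            · rintro (⟨i, q, -, -, h⟩ | h)
              · simp [tk] at h
              · simp [tk] at h
            · exact hD Z hZ) (by
            simp only [cnt, List.count_cons] at hpos ⊢
            simpa [hec] using hpos)
        refine ⟨some e :: ts', ?_, by simpa using h5, ?_⟩
        · rw [List.map_cons, List.map_cons]
          exact Rw.cons (y := [Sym.X e]) (W := ∅) (Rule.keep (h1 e (by simp))) (by simp) h4
        · intro d
          have := h6 d
          simp only [cnt, List.count_cons] at this ⊢
          by_cases hdc : d = c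
          · subst hdc
            simp [hec] at this ⊢
            exact this
          · simp only [hdc, if_false] at this ⊢
            rw [this]

end Pool.Agent.MP_4c145a_lc
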