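import Pool.Agent.Lib.MP_4c145a_lc.Sim

/-!
# The language of the simulating grammar, part 2
-/

namespace Pool.Agent.MP_4c145a_lc

variable (M : Machine)

theorem rw_single {α : Type} {P : Set (α × List α × Set α)} {D : Set α} {X : α} {v : List α} :
    Rw P D [X] v ↔ ∃ W, (X, v, W) ∈ P ∧ ∀ Z ∈ D, Z ∉ W := by
  constructor
  · intro h
    cases h with
    | @cons _ _ y W _ v1 hm hC hr =>
      cases hr
      exact ⟨W, by simpa using hm, hC⟩
  · rintro ⟨W, hm, hC⟩
    have := Rw.cons hm hC (Rw.nil (insert X D))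
    simpa using this

theorem R_sound {D : Set (Sym M.σ)} {i : Instr} {q : M.σ} (hi : i ∈ M.I) (hD : Sym.L i q ∈ D)
    {v : List (Sym M.σ)} (h : Rw (gram M).P D [Sym.R] v) :
    (v = [Sym.R] ∧ (¬ Special i ∨ ∃ c, i = Instr.zero c ∧ Sym.X c ∉ D)) ∨
      (∃ b, i = Instr.emit b ∧ v = [Sym.term b, Sym.R]) := by
  obtain ⟨W, hm, hC⟩ := rw_single.1 h
  rw [gram_mem] at hm
  cases hm with
  | idle =>
    refine Or.inl ⟨rfl, Or.inl fun hs => hC _ hD (Or.inl ⟨i, q, hi, hs, rfl⟩)⟩
  | @test c hc =>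
    refine Or.inl ⟨rfl, Or.inr ⟨c, ?_, ?_⟩⟩
    · by_contra hne
      exact hC _ hD (Or.inl ⟨i, q, hi, hne, rfl⟩)
    · intro hX
      exact hC _ hX (Or.inr (by simp))
  | @out b =>
    refine Or.inr ⟨b, ?_, rfl⟩
    by_contra hne
    exact hC _ hD (Or.inl ⟨i, q, hi, hne, rfl⟩)
  | stop => exact absurd (Or.inl ⟨i, q, hi, trivial, rfl⟩) (hC _ hD)

theorem R_sound_last {D : Set (Sym M.σ)} (hD : Sym.last ∈ D)
    {v : List (Sym M.σ)} (h : Rw (gram M).P D [Sym.R] v) :
    v = [] ∧ ∀ c ∈ M.C, Sym.X c ∉ D := by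
  obtain ⟨W, hm, hC⟩ := rw_single.1 h
  rw [gram_mem] at hm
  cases hm with
  | idle => exact absurd (Or.inr (by simp)) (hC _ hD)
  | @test c hc => exact absurd (Or.inr (by simp)) (hC _ hD)
  | @out b => exact absurd (Or.inr (by simp)) (hC _ hD)
  | stop => exact ⟨rfl, fun c hc hX => hC _ hX (Or.inr ⟨c, hc, rfl⟩)⟩

theorem L_sound {i : Instr} {q : M.σ} {y : List (Sym M.σ)} {W : Set (Sym M.σ)}
    (h : Rule M (Sym.L i q) y W) :
    (∃ i' q', M.tr q i' q' ∧ y = Sym.L i' q' :: (gen i).map tk) ∨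
      (q = M.stop ∧ y = Sym.last :: (gen i).map tk) := by
  cases h with
  | next hi htr => exact Or.inl ⟨_, _, htr, rfl⟩
  | halt hi => exact Or.inr ⟨rfl, rfl⟩

theorem cnt_gen_of_not (i : Instr) (ts : List (Option ℕ)) (h : ∀ c, i ≠ Instr.inc c) :
    cnt (gen i ++ ts) = cnt ts := by
  cases i with
  | inc c => exact absurd rfl (h c)
  | _ => rfl

theorem count_none_gen (i : Instr) (ts : List (Option ℕ)) :
    (gen i ++ ts).count none = ts.count none := by
  cases i <;> simp [gen]

/-- The effect of one step on the tokens and the output, seen as an instruction. -/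
theorem gstep_of {i : Instr} {ts ts' : List (Option ℕ)} {o o' : List Bool}
    (h1 : ts'.count none ≤ 1)
    (h2 : ∀ c, (i ≠ Instr.dec c → cnt ts' c = cnt ts c) ∧
        (i = Instr.dec c → cnt ts' c + ts'.count none = cnt ts c))
    (h3 : (o' = o ∧ (¬ Special i ∨ ∃ c, i = Instr.zero c ∧ some c ∉ ts)) ∨
      (∃ b, i = Instr.emit b ∧ o' = o ++ [b])) :
    gstep i (cnt ts, o) (cnt (gen i ++ ts'), o') := by
  cases i with
  | skip =>
    rcases h3 with ⟨rfl, -⟩ | ⟨b, h, -⟩
    · have : cnt (gen Instr.skip ++ ts') = cnt ts := by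
        funext c
        exact (h2 c).1 (by simp)
      simp [gstep, this]
    · cases h
  | inc d =>
    rcases h3 with ⟨rfl, -⟩ | ⟨b, h, -⟩
    · have : cnt (gen (Instr.inc d) ++ ts') = Function.update (cnt ts) d (cnt ts d + 1) := by
        funext c
        have := (h2 c).1 (by simp)
        by_cases hcd : c = d
        · subst hcd
          simp [gen, cnt] at this ⊢
          exact this
        · have hdc : d ≠ c := fun h => hcd h.symm
          simp [gen, cnt, hcd, hdc] at this ⊢
          exact this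
      simp [gstep, this]
    · cases h
  | dec d =>
    rcases h3 with ⟨rfl, -⟩ | ⟨b, h, -⟩
    · have h4 := (h2 d).2 rfl
      have h5 : ∀ c, c ≠ d → cnt ts' c = cnt ts c := by
        intro c hc
        exact (h2 c).1 (by simpa using fun h => hc h.symm)
      have hg : cnt (gen (Instr.dec d) ++ ts') = cnt ts' := rfl
      rcases Nat.lt_or_ge 0 (ts'.count none) with h6 | h6
      · refine Or.inr ⟨?_, ?_⟩
        · show 0 < cnt ts d
          omega
        · simp only [hg, Prod.mk.injEq, and_true]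
          funext c
          by_cases hcd : c = d
          · subst hcd
            simp
            omega
          · simp [hcd, h5 c hcd]
      · refine Or.inl ?_
        simp only [hg, Prod.mk.injEq, and_true]
        funext c
        by_cases hcd : c = d
        · subst hcd
          omega
        · exact h5 c hcd
    · cases h
  | zero d =>
    rcases h3 with ⟨rfl, h4⟩ | ⟨b, h, -⟩
    · have : cnt (gen (Instr.zero d) ++ ts') = cnt ts := by
        funext c
        exact (h2 c).1 (by simp)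
      rcases h4 with h4 | ⟨c, hc, h4⟩
      · exact absurd trivial h4
      · cases hc
        refine ⟨?_, by simp [this]⟩
        simpa [cnt, List.count_eq_zero] using h4
    · cases h
  | emit b =>
    have : cnt (gen (Instr.emit b) ++ ts') = cnt ts := by
      funext c
      exact (h2 c).1 (by simp)
    rcases h3 with ⟨rfl, h4⟩ | ⟨b', h, rfl⟩
    · rcases h4 with h4 | ⟨c, hc, -⟩
      · exact absurd trivial h4
      · cases hc
    · cases h
      simp [gstep, this]

theorem cfg_step_sound {i : Instr} {q : M.σ} (hi : i ∈ M.I) {ts : List (Option ℕ)}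
    {o : List Bool} {v : List (Sym M.σ)} (h : (gram M).Step (cfg M i q ts o) v) :
    ∃ ts' o', ts.count none ≤ 1 ∧ (ts'.count none ≤ 1 → gstep i (cnt ts, o) (cnt ts', o')) ∧
      ((∃ i' q', M.tr q i' q' ∧ v = cfg M i' q' ts' o') ∨ (q = M.stop ∧ v = fcfg M ts' o')) := by
  obtain ⟨-, h⟩ := (step_iff _ _ _).1 h
  rw [cfg] at h
  cases h with
  | @cons _ _ y W _ v1 hm hC hr =>
    obtain ⟨tv, v2, rfl, ht, hr2⟩ := Rw.append_iff.1 hr
    obtain ⟨ov, rv, rfl, ho, hr3⟩ := Rw.append_iff.1 hr2
    obtain ⟨ts', rfl, h1, -, h3, h4⟩ := tok_sound M hi ts _ _ (Set.mem_insert _ _) ht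
    have h5 := term_sound M o _ _ ho
    subst h5
    have h6 := R_sound M hi (q := q) (Or.inr (Or.inr (Set.mem_insert _ _))) hr3
    have h7 : ∃ o', o.map Sym.term ++ rv = o'.map Sym.term ++ [Sym.R] ∧
        ((o' = o ∧ (¬ Special i ∨ ∃ c, i = Instr.zero c ∧ some c ∉ ts)) ∨
          (∃ b, i = Instr.emit b ∧ o' = o ++ [b])) := by
      rcases h6 with ⟨rfl, h7⟩ | ⟨b, rfl, rfl⟩
      · refine ⟨o, rfl, Or.inl ⟨rfl, ?_⟩⟩
        rcases h7 with h7 | ⟨c, hc, h7⟩
        · exact Or.inl h7
        · refine Or.inr ⟨c, hc, fun hts => h7 (Or.inr (Or.inl ?_))⟩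
          exact List.mem_map.2 ⟨some c, hts, rfl⟩
      · exact ⟨o ++ [b], by simp, Or.inr ⟨b, rfl, rfl⟩⟩
    obtain ⟨o', h8, h9⟩ := h7
    refine ⟨gen i ++ ts', o', h1, ?_, ?_⟩
    · intro h10
      rw [count_none_gen] at h10
      exact gstep_of h10 h4 h9
    · rw [h8]
      rw [gram_mem] at hm
      rcases L_sound M hm with ⟨i', q', htr, rfl⟩ | ⟨rfl, rfl⟩
      · refine Or.inl ⟨i', q', htr, ?_⟩
        simp [cfg]
      · refine Or.inr ⟨rfl, ?_⟩
        simp [fcfg]

theorem fcfg_step_sound {ts : List (Option ℕ)}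
    {o : List Bool} {v : List (Sym M.σ)} (h : (gram M).Step (fcfg M ts o) v) :
    ts.count none ≤ 1 ∧ (∀ c, some c ∉ ts) ∧ v = o.map Sym.term := by
  obtain ⟨-, h⟩ := (step_iff _ _ _).1 h
  rw [fcfg] at h
  cases h with
  | @cons _ _ y W _ v1 hm hC hr =>
    obtain ⟨tv, v2, rfl, ht, hr2⟩ := Rw.append_iff.1 hr
    obtain ⟨ov, rv, rfl, ho, hr3⟩ := Rw.append_iff.1 hr2
    obtain ⟨h1, -, h3, h4⟩ := tok_none M ts _ _ ht
    have h5 := term_sound M o _ _ ho
    subst h5
    obtain ⟨rfl, h6⟩ := R_sound_last M (Or.inr (Or.inr (Set.mem_insert _ _))) hr3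
    have h7 : ∀ c, some c ∉ ts := by
      intro c hc
      exact h6 c (h3 c hc) (Or.inr (Or.inl (List.mem_map.2 ⟨some c, hc, rfl⟩)))
    rw [gram_mem] at hm
    cases hm
    exact ⟨h1, h7, by simp [h4 h7]⟩

theorem term_step_sound {o : List Bool} {v : List (Sym M.σ)}
    (h : (gram M).Step (o.map Sym.term) v) : v = o.map Sym.term :=
  term_sound M o _ _ ((step_iff _ _ _).1 h).2

theorem derivation_sound {x : List (Sym M.σ)} (hx : ∀ s ∈ x, s ∈ (gram M).T)
    {u : List (Sym M.σ)} (h : Relation.ReflTransGen (gram M).Step u x) :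
    (∀ i q ts o, i ∈ M.I → u = cfg M i q ts o → ts.count none ≤ 1 ∧
      ∃ st o', gstep i (cnt ts, o) st ∧
        Relation.ReflTransGen M.move (q, st) (M.stop, ((fun _ => 0), o')) ∧
        x = o'.map Sym.term) ∧
    (∀ ts o, u = fcfg M ts o → ts.count none ≤ 1 ∧ (∀ c, some c ∉ ts) ∧ x = o.map Sym.term) ∧
    (∀ o : List Bool, u = o.map Sym.term → x = u) := by
  induction h using Relation.ReflTransGen.head_induction_on with
  | refl =>
    refine ⟨?_, ?_, ?_⟩
    · rintro i q ts o - rfl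
      obtain ⟨b, hb⟩ := hx (Sym.L i q) (by simp [cfg])
      cases hb
    · rintro ts o rfl
      obtain ⟨b, hb⟩ := hx Sym.last (by simp [fcfg])
      cases hb
    · intro o _
      rfl
  | @head u v hs _ ih =>
    obtain ⟨ih1, ih2, ih3⟩ := ih
    refine ⟨?_, ?_, ?_⟩
    · rintro i q ts o hi rfl
      obtain ⟨ts', o', h1, h2, h3⟩ := cfg_step_sound M hi hs
      refine ⟨h1, ?_⟩
      rcases h3 with ⟨i', q', htr, hv⟩ | ⟨rfl, hv⟩
      · obtain ⟨h4, st, o'', h5, h6, h7⟩ := ih1 i' q' ts' o' (M.tr_mem _ _ _ htr) hv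
        exact ⟨(cnt ts', o'), o'', h2 h4, Relation.ReflTransGen.head ⟨i', htr, h5⟩ h6, h7⟩
      · obtain ⟨h4, h5, h6⟩ := ih2 ts' o' hv
        refine ⟨(cnt ts', o'), o', h2 h4, ?_, h6⟩
        have : cnt ts' = fun _ => 0 := by
          funext c
          simpa [cnt, List.count_eq_zero] using h5 c
        rw [this]
    · rintro ts o rfl
      obtain ⟨h1, h2, h3⟩ := fcfg_step_sound M hs
      exact ⟨h1, h2, by rw [ih3 o h3, h3]⟩
    · rintro o rfl
      have hv := term_step_sound M hs
      rw [ih3 o hv, hv]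

/-! ### Completeness -/

theorem not_W_tok {p : Instr → Prop} {Z : Sym M.σ} {ts : List (Option ℕ)} (h : Z ∈ ts.map tk) :
    Z ∉ Lset M p ∪ {Sym.last} := by
  obtain ⟨t, -, rfl⟩ := List.mem_map.1 h
  rintro (⟨i, q, -, -, h⟩ | h)
  · cases t <;> simp [tk] at h
  · cases t <;> simp [tk] at h

theorem not_W_term {p : Instr → Prop} {Z : Sym M.σ} {o : List Bool} (h : Z ∈ o.map Sym.term) :
    Z ∉ Lset M p ∪ {Sym.last} := by
  obtain ⟨t, -, rfl⟩ := List.mem_map.1 h
  rintro (⟨i, q, -, -, h⟩ | h)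
  · cases h
  · simp at h

theorem tok_complete {i : Instr} {q : M.σ} {ts : List (Option ℕ)} {o : List Bool} {st : St}
    (hC : ∀ c, some c ∈ ts → c ∈ M.C) (h1 : ts.count none ≤ 1)
    (h : gstep i (cnt ts, o) st) :
    ∃ ts', Rw (gram M).P (insert (Sym.L i q) ∅) (ts.map tk) (ts'.map tk) ∧
      ts'.count none ≤ 1 ∧ cnt (gen i ++ ts') = st.1 := by
  have hF : Sym.F ∈ (insert (Sym.L i q) ∅ : Set (Sym M.σ)) → ts.count none = 0 := by
    intro h
    simp at h
  obtain ⟨ts', h2, h3, h4⟩ := tok_keep M ts (insert (Sym.L i q) ∅) hC h1 hF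
  have h5 : cnt ts' = cnt ts := funext h4
  cases i with
  | skip =>
    refine ⟨ts', h2, by omega, ?_⟩
    rw [cnt_gen_of_not _ _ (by simp), h5, (show st = _ from h)]
  | inc d =>
    refine ⟨ts', h2, by omega, ?_⟩
    rw [(show st = _ from h)]
    funext c
    have := h4 c
    by_cases hcd : c = d
    · subst hcd
      simp [gen, cnt] at this ⊢
      exact this
    · have hdc : d ≠ c := fun h => hcd h.symm
      simp [gen, cnt, hcd, hdc] at this ⊢
      exact this
  | dec d =>
    rcases h with h | ⟨hpos, h⟩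
    · refine ⟨ts', h2, by omega, ?_⟩
      rw [cnt_gen_of_not _ _ (by simp), h5, h]
    · obtain ⟨ts2, h6, h7, h8⟩ := tok_dec M d ts (insert (Sym.L (Instr.dec d) q) ∅) hC h1 hF (by
        intro Z hZ
        rcases Set.mem_insert_iff.1 hZ with rfl | hZ
        · rintro (⟨i, q, -, h, h'⟩ | h)
          · cases h'
            exact h rfl
          · simp at h
        · simp at hZ) hpos
      refine ⟨ts2, h6, by omega, ?_⟩
      rw [cnt_gen_of_not _ _ (by simp), h]
      funext c
      rw [h8 c]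
      by_cases hcd : c = d
      · subst hcd
        simp
      · simp [hcd]
  | zero d =>
    refine ⟨ts', h2, by omega, ?_⟩
    rw [cnt_gen_of_not _ _ (by simp), h5, h.2]
  | emit b =>
    refine ⟨ts', h2, by omega, ?_⟩
    rw [cnt_gen_of_not _ _ (by simp), h5, (show st = _ from h)]

theorem R_complete {i : Instr} {q : M.σ} (hi : i ∈ M.I) {ts : List (Option ℕ)} {o : List Bool}
    {st : St} (h : gstep i (cnt ts, o) st) :
    ∃ rv, Rw (gram M).P ({Z | Z ∈ o.map Sym.term} ∪
        ({Z | Z ∈ ts.map tk} ∪ insert (Sym.L i q) ∅)) [Sym.R] rv ∧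
      o.map Sym.term ++ rv = st.2.map Sym.term ++ [Sym.R] := by
  have key : ∀ p : Instr → Prop, ¬ p i → ∀ Z ∈ ({Z | Z ∈ o.map Sym.term} ∪
        ({Z | Z ∈ ts.map tk} ∪ insert (Sym.L i q) ∅) : Set (Sym M.σ)),
        Z ∉ Lset M p ∪ {Sym.last} := by
    rintro p hp Z (hZ | hZ | hZ)
    · exact not_W_term M hZ
    · exact not_W_tok M hZ
    · rcases Set.mem_insert_iff.1 hZ with rfl | hZ
      · rintro (⟨i', q', -, h, h'⟩ | h)
        · cases h'
          exact hp h
        · simp at h
      · simp at hZ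
  cases i with
  | skip =>
    exact ⟨[Sym.R], rw_single.2 ⟨_, Rule.idle, key _ (fun h => h)⟩, by
      rw [(show st = _ from h)]⟩
  | inc d =>
    exact ⟨[Sym.R], rw_single.2 ⟨_, Rule.idle, key _ (fun h => h)⟩, by
      rw [(show st = _ from h)]⟩
  | dec d =>
    refine ⟨[Sym.R], rw_single.2 ⟨_, Rule.idle, key _ (fun h => h)⟩, ?_⟩
    rcases h with h | ⟨_, h⟩ <;> rw [h]
  | zero d =>
    refine ⟨[Sym.R], rw_single.2 ⟨_, Rule.test (c := d) (Or.inr (Or.inr hi)), ?_⟩, ?_⟩
    · intro Z hZ hW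
      rcases hW with hW | hW
      · exact key (fun i => i ≠ Instr.zero d) (by simp) Z hZ (Or.inl hW)
      · rcases Set.mem_insert_iff.1 hW with rfl | hW
        · exact key (fun i => i ≠ Instr.zero d) (by simp) _ hZ (Or.inr rfl)
        · rw [Set.mem_singleton_iff] at hW
          subst hW
          rcases hZ with hZ | hZ | hZ
          · obtain ⟨b, -, hb⟩ := List.mem_map.1 hZ
            cases hb
          · obtain ⟨t, ht, hb⟩ := List.mem_map.1 hZ
            cases t with
            | none => cases hb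
            | some c =>
              simp only [tk, Sym.X.injEq] at hb
              subst hb
              have := h.1
              simp only [cnt, List.count_eq_zero] at this
              exact this ht
          · simp at hZ
    · rw [h.2]
  | emit b =>
    refine ⟨[Sym.term b, Sym.R], rw_single.2 ⟨_, Rule.out (b := b), key _ (by simp)⟩, ?_⟩
    rw [(show st = _ from h)]
    simp

theorem cfg_complete {i : Instr} {q : M.σ} (hi : i ∈ M.I) {ts : List (Option ℕ)}
    {o : List Bool} {st : St} (hC : ∀ c, some c ∈ ts → c ∈ M.C) (h1 : ts.count none ≤ 1)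
    (h : gstep i (cnt ts, o) st) :
    ∃ ts', (∀ c, some c ∈ ts' → c ∈ M.C) ∧ ts'.count none ≤ 1 ∧ cnt ts' = st.1 ∧
      (∀ i' q', M.tr q i' q' → (gram M).Step (cfg M i q ts o) (cfg M i' q' ts' st.2)) ∧
      (q = M.stop → (gram M).Step (cfg M i q ts o) (fcfg M ts' st.2)) := by
  obtain ⟨ts', h2, h3, h4⟩ := tok_complete M (q := q) hC h1 h
  obtain ⟨rv, h5, h6⟩ := R_complete M (q := q) hi h
  have hC' : ∀ c, some c ∈ gen i ++ ts' → c ∈ M.C := by
    intro c hc
    rcases List.mem_append.1 hc with hc | hc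
    · exact gen_mem M hi hc
    · obtain ⟨ts2, h7, -, h8, -⟩ := tok_sound M hi ts _ _ (Set.mem_insert _ _) h2
      have h9 : ts' = ts2 := by
        refine List.map_injective_iff.2 ?_ h7
        intro a b hab
        cases a <;> cases b <;> simp [tk] at hab ⊢
        exact hab
      by_contra hcC
      have h10 : cnt ts c = 0 := by
        rw [cnt, List.count_eq_zero]
        exact fun hts => hcC (hC c hts)
      have h11 : 0 < cnt ts' c := by
        rw [cnt, List.count_pos_iff]
        exact hc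
      obtain ⟨ts3, h12, -, -, -, h13⟩ := tok_sound M hi ts _ _ (Set.mem_insert _ _) h2
      have h14 : ts' = ts3 := by
        refine List.map_injective_iff.2 ?_ h12
        intro a b hab
        cases a <;> cases b <;> simp [tk] at hab ⊢
        exact hab
      subst h14
      by_cases hic : i = Instr.dec c
      · have := (h13 c).2 hic
        omega
      · have := (h13 c).1 hic
        omega
  have hrest : Rw (gram M).P (insert (Sym.L i q) ∅) (ts.map tk ++ (o.map Sym.term ++ [Sym.R]))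
      (ts'.map tk ++ (st.2.map Sym.term ++ [Sym.R])) := by
    refine Rw.append_iff.2 ⟨_, _, rfl, h2, ?_⟩
    rw [← h6]
    exact Rw.append_iff.2 ⟨_, _, rfl, term_complete M o _, h5⟩
  refine ⟨gen i ++ ts', hC', by rw [count_none_gen]; exact h3, h4, ?_, ?_⟩
  · intro i' q' htr
    refine (step_iff _ _ _).2 ⟨by simp [cfg], ?_⟩
    have := Rw.cons (P := (gram M).P) (C := ∅) (y := Sym.L i' q' :: (gen i).map tk) (W := ∅)
      (Rule.next hi htr) (by simp) hrest
    simpa [cfg] using this
  · rintro rfl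
    refine (step_iff _ _ _).2 ⟨by simp [cfg], ?_⟩
    have := Rw.cons (P := (gram M).P) (C := ∅) (y := Sym.last :: (gen i).map tk) (W := ∅)
      (Rule.halt hi) (by simp) hrest
    simpa [cfg, fcfg] using this

theorem fcfg_complete {ts : List (Option ℕ)} {o : List Bool} (h1 : ts.count none ≤ 1)
    (h2 : cnt ts = fun _ => 0) : (gram M).Step (fcfg M ts o) (o.map Sym.term) := by
  have h3 : ∀ c, some c ∉ ts := by
    intro c
    have := congrFun h2 c
    simpa [cnt, List.count_eq_zero] using this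
  obtain ⟨ts', h4, h5, h6⟩ := tok_keep M ts (insert Sym.last ∅)
    (fun c hc => absurd hc (h3 c)) h1 (by intro h; simp at h)
  have h7 : ts' = [] := by
    rcases ts' with _ | ⟨t, ts'⟩
    · rfl
    · cases t with
      | none => simp at h5
      | some c =>
        have := h6 c
        rw [congrFun h2 c] at this
        simp [cnt] at this
  subst h7
  refine (step_iff _ _ _).2 ⟨by simp [fcfg], ?_⟩
  refine Rw.cons (y := []) (W := ∅) Rule.last (by simp) ?_
  refine Rw.append_iff.2 ⟨_, _, (List.nil_append _).symm, h4, ?_⟩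
  refine Rw.append_iff.2 ⟨_, _, (List.append_nil _).symm, term_complete M o _, ?_⟩
  refine rw_single.2 ⟨_, Rule.stop, ?_⟩
  rintro Z (hZ | hZ | hZ)
  · obtain ⟨b, -, rfl⟩ := List.mem_map.1 hZ
    rintro (⟨i, q, -, -, h⟩ | ⟨c, -, h⟩) <;> cases h
  · obtain ⟨t, ht, rfl⟩ := List.mem_map.1 hZ
    rintro (⟨i, q, -, -, h⟩ | ⟨c, hc, h⟩)
    · cases t <;> simp [tk] at h
    · cases t with
      | none => cases h
      | some d => exact h3 d ht
  · rcases Set.mem_insert_iff.1 hZ with rfl | hZ
    · rintro (⟨i, q, -, -, h⟩ | ⟨c, -, h⟩) <;> cases h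
    · simp at hZ

theorem run_complete {a b : M.σ × St} (h : Relation.ReflTransGen M.move a b)
    (hb : b.1 = M.stop) (hb2 : b.2.1 = fun _ => 0) :
    ∀ i ts o, i ∈ M.I → (∀ c, some c ∈ ts → c ∈ M.C) → ts.count none ≤ 1 →
      gstep i (cnt ts, o) a.2 →
      Relation.ReflTransGen (gram M).Step (cfg M i a.1 ts o) (b.2.2.map Sym.term) := by
  induction h using Relation.ReflTransGen.head_induction_on with
  | refl =>
    intro i ts o hi hC h1 hg
    obtain ⟨ts', h2, h3, h4, -, h5⟩ := cfg_complete M (q := b.1) hi hC h1 hg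
    exact (Relation.ReflTransGen.single (h5 hb)).tail (fcfg_complete M h3 (h4.trans hb2))
  | @head a c hm _ ih =>
    intro i ts o hi hC h1 hg
    obtain ⟨j, hj, hg'⟩ := hm
    obtain ⟨ts', h2, h3, h4, h5, -⟩ := cfg_complete M (q := a.1) hi hC h1 hg
    refine Relation.ReflTransGen.head (h5 j c.1 hj) ?_
    refine ih j ts' a.2.2 (M.tr_mem _ _ _ hj) h2 h3 ?_
    rw [h4]
    exact hg'

/-- The language of the simulating grammar: outputs of the runs of the machine that start and end
with empty registers. -/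
theorem mem_gram_language (x : List (Sym M.σ)) :
    x ∈ (gram M).language ↔ ∃ o : List Bool, x = o.map Sym.term ∧
      Relation.ReflTransGen M.move (M.start, ((fun _ => 0), [])) (M.stop, ((fun _ => 0), o)) := by
  have hw : (gram M).w = cfg M Instr.skip M.start [] [] := rfl
  constructor
  · rintro ⟨h1, h2⟩
    obtain ⟨-, st, o', h3, h4, h5⟩ := (derivation_sound M h1 h2).1 _ _ _ _ M.skip_mem hw
    refine ⟨o', h5, ?_⟩
    rw [(show st = _ from h3)] at h4
    exact h4
  · rintro ⟨o, rfl, h⟩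
    refine ⟨?_, ?_⟩
    · intro s hs
      obtain ⟨b, -, rfl⟩ := List.mem_map.1 hs
      exact ⟨b, rfl⟩
    · rw [hw]
      exact run_complete M h rfl rfl _ _ _ M.skip_mem (by simp) (by simp) rfl

end Pool.Agent.MP_4c145a_lc
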